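import Pool.Agent.H887.BK.D1
import Pool.Agent.H425.Block
import Pool.Graph.R_pool_sql_team_seeded_3997aac3.Q267.ST.Def

/-!
# Statements of the parts
-/

set_option autoImplicit false
set_option linter.unusedSectionVars false
set_option linter.unusedVariables false

namespace Pool.Agent.H887.BK

open MvPolynomial Pool.Agent.H425

/-- (Rd) the coordinates exist when the leading matrices are invertible -/
def S_Rd : Prop :=
  ∀ (ι : Type) [Fintype ι] [DecidableEq ι] (L : Type) [CommRing L] (e : ℕ) (he : 0 < e)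
    (H : MvPolynomial ι L), H.IsHomogeneous (e + 1) → (∀ j, IsUnit (LM H e he j).det) →
    ∃ D : RdS e H,
      (∀ (v : ι →₀ ℕ) (u : ι → Fin e) (hv : v ∈ Sd ι (bdeg u)),
        D.rd (monomial v 1) u = (LM H e he (bdeg u))⁻¹ ⟨emb u, emb_mem_Sd u⟩ ⟨v, hv⟩) ∧
      (∀ (v : ι →₀ ℕ) (u : ι → Fin e), ¬ (v.degree ≡ bdeg u [MOD (e + 1)]) →
        D.rd (monomial v 1) u = 0)

/-- (RdU) uniqueness of the coordinates -/
def S_RdU : Prop :=
  ∀ (ι : Type) [Fintype ι] [DecidableEq ι] (L : Type) [CommRing L] (e : ℕ)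
    (H : MvPolynomial ι L) (D : RdS e H) (ℓ : MvPolynomial ι L →ₗ[L] L),
    (∀ i P, ℓ (yop H i P) = 0) → ∀ P, ℓ P = ∑ u, D.rd P u * ℓ (monomial (emb u) 1)

/-- (RdM) base change of the coordinates -/
def S_RdM : Prop :=
  ∀ (ι : Type) [Fintype ι] [DecidableEq ι] (L L' : Type) [CommRing L] [CommRing L'] (π : L →+* L')
    (hπ : Function.Surjective π) (e : ℕ) (H : MvPolynomial ι L) (D : RdS e H),
    ∃ D' : RdS e (map π H), ∀ P u, D'.rd (map π P) u = π (D.rd P u)

/-- (Kop) commutation of the operators with Dwork's operators -/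
def S_Kop : Prop :=
  ∀ (ι : Type) [Fintype ι] [DecidableEq ι] (L : Type) [CommRing L] (p d N : ℕ) (hp : 0 < p)
    (c c' : (ι →₀ ℕ) → L) (k : (ι →₀ ℕ) → (ι →₀ ℕ) → L), KCore p d N c c' k →
    ∀ (i : ι) (δ : ι →₀ ℕ), (∀ j, δ j ≤ 1) → δ i = 0 → ∀ P : MvPolynomial ι L,
      kop k N (δ + Finsupp.single i 1) (yop (form d c) i P) =
        (p : L) • yop (form d c') i (kop k N δ P)

/-- (R0) the explicit coordinates for `∑ a_i x_i ^ (e + 1)` -/
def S_R0 : Prop :=
  ∀ (ι : Type) [Fintype ι] [DecidableEq ι] (L : Type) [CommRing L] (e : ℕ) (dinv : L) (a b : ι → L)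
    (c : (ι →₀ ℕ) → L), 0 < e → dinv * ((e + 1 : ℕ) : L) = 1 → (∀ i, a i * b i = 1) →
    (∀ i P, rd0 e dinv b (yop (form (e + 1) (fam (e + 1) a c 0)) i P) = 0) ∧
    (∀ u : ι → Fin e, rd0 e dinv b (monomial (emb u) 1) = Pi.single u 1)

/-- (Eh) the truncated exponential intertwines the operators -/
def S_Eh : Prop :=
  ∀ (ι : Type) [Fintype ι] [DecidableEq ι] (L : Type) [CommRing L] (d M : ℕ) (τ : L) (a : ι → L)
    (c : (ι →₀ ℕ) → L), 0 < M → τ ^ M = 0 → ∀ (i : ι) (P : MvPolynomial ι L),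
    Eh M τ (form d (mix d c)) * yop (form d (fam d a c τ)) i P =
      yop (form d (fam d a c 0)) i (Eh M τ (form d (mix d c)) * P)

/-- (KID) the Frobenius matrix in terms of the fundamental matrix -/
def S_KID : Prop :=
  ∀ (ι : Type) [Fintype ι] [DecidableEq ι] (L : Type) [CommRing L] (p e N M : ℕ) (τ dinv : L)
    (a b : ι → L) (c : (ι →₀ ℕ) → L) (kT k0 : (ι →₀ ℕ) → (ι →₀ ℕ) → L),
    0 < p → 0 < e → 0 < M → τ ^ M = 0 → dinv * ((e + 1 : ℕ) : L) = 1 → (∀ i, a i * b i = 1) →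
    KCore p (e + 1) N (fam (e + 1) a c τ) (fam (e + 1) a c (τ ^ p)) kT →
    KCore p (e + 1) N (fam (e + 1) a c 0) (fam (e + 1) a c 0) k0 →
    (∀ V U, ∑ x ∈ Finset.HasAntidiagonal.antidiagonal V,
        coeff x.1 (Eh M (τ ^ p) (form (e + 1) (mix (e + 1) c))) * kT x.2 U =
      ∑ s ∈ (Eh M τ (form (e + 1) (mix (e + 1) c))).support,
        k0 V (U + s) * coeff s (Eh M τ (form (e + 1) (mix (e + 1) c)))) →
    (∀ V U, (∃ i, ¬ (V i ≡ U i [MOD (e + 1)])) → k0 V U = 0) →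
    (∃ D0 : RdS e (form (e + 1) (fam (e + 1) a c 0)), True) →
    ∀ D' : RdS e (form (e + 1) (fam (e + 1) a c (τ ^ p))),
    Yh e M dinv b (τ ^ p) (form (e + 1) (mix (e + 1) c)) * Bm D' kT N =
      Matrix.diagonal (fun u => rd0 e dinv b (kop k0 N one1 (monomial (emb u) 1)) u) *
        Yh e M dinv b τ (form (e + 1) (mix (e + 1) c))

/-- the setup over power series -/
noncomputable def Pre.ps {p d : ℕ} [Fact p.Prime] {K R : Type} [CommRing K] [CommRing R] [IsDomain R]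
    (S : Pre p d K R) : Pre p d (PowerSeries K) (PowerSeries R) where
  lam := PowerSeries.C S.lam
  res := PowerSeries.map S.res
  zp := (PowerSeries.C (R := R)).comp S.zp
  lam_pow := by
    rw [← map_pow, S.lam_pow, map_neg, map_natCast]
  lam_ne := by
    intro h
    exact S.lam_ne (PowerSeries.C_injective (h.trans (map_zero _).symm))
  dvd_of_res := by
    intro x hx
    have h1 : ∀ n, S.lam ∣ PowerSeries.coeff n x := by
      intro n
      apply S.dvd_of_res
      rw [← PowerSeries.coeff_map, hx, map_zero]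
    choose f hf using h1
    refine ⟨PowerSeries.mk f, ?_⟩
    ext n
    rw [PowerSeries.coeff_C_mul, PowerSeries.coeff_mk, hf n]
  res_lam := by
    rw [PowerSeries.map_C, S.res_lam, map_zero]

/-- (Core) the identities for the kernel modulo a power of `lam` -/
def S_Core : Prop :=
  ∀ (ι : Type) [Fintype ι] [DecidableEq ι] (p d : ℕ) [Fact p.Prime] (K R L : Type) [CommRing K]
    [CommRing R] [IsDomain R] [CommRing L] (S : Pre p d K R) (π : R →+* L) (N : ℕ)
    (c : (ι →₀ ℕ) → R), 4 ≤ p → 0 < d → π S.lam ^ N = 0 →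
    KCore p d N (fun s => π (c s)) (fun s => π (c s ^ p)) (fun V U => π (S.ker (Sd ι d) c V U))

/-- (KGr) gradings of the kernel -/
def S_KGr : Prop :=
  ∀ (ι : Type) [Fintype ι] [DecidableEq ι] (p d : ℕ) [Fact p.Prime] (K R : Type) [CommRing K]
    [CommRing R] [IsDomain R] (S : Pre p d K R), 4 ≤ p → 0 < d → p ≡ 1 [MOD d] →
    (∀ (c : (ι →₀ ℕ) → R) (V U : ι →₀ ℕ), ¬ (V.degree ≡ U.degree [MOD d]) →
      S.ker (Sd ι d) c V U = 0) ∧
    (∀ (a : ι → R) (c : (ι →₀ ℕ) → R) (V U : ι →₀ ℕ), (∃ i, ¬ (V i ≡ U i [MOD d])) →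
      S.ker (Sd ι d) (fam d a c 0) V U = 0)

/-- (KExp) the kernel and the truncated exponentials -/
def S_KExp : Prop :=
  ∀ (ι : Type) [Fintype ι] [DecidableEq ι] (p d : ℕ) [Fact p.Prime] (K R : Type) [CommRing K]
    [CommRing R] [IsDomain R] (S : Pre p d K R) (a : ι → R) (c : (ι →₀ ℕ) → R) (M : ℕ)
    (V U : ι →₀ ℕ), 4 ≤ p → 0 < d → 0 < M → (∀ i, a i ^ p = a i) → (∀ s, c s ^ p = c s) →
    ∃ z : PowerSeries R,
      ∑ x ∈ Finset.HasAntidiagonal.antidiagonal V,
        coeff x.1 (Eh M ((PowerSeries.X : PowerSeries R) ^ p)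
          (form d (mix d (fun s => PowerSeries.C (c s))))) *
          S.ps.ker (Sd ι d) (fam d (fun i => PowerSeries.C (a i)) (fun s => PowerSeries.C (c s))
            PowerSeries.X) x.2 U =
      ∑ s ∈ (Eh M (PowerSeries.X : PowerSeries R)
          (form d (mix d (fun s => PowerSeries.C (c s))))).support,
        S.ps.ker (Sd ι d) (fam d (fun i => PowerSeries.C (a i)) (fun s => PowerSeries.C (c s))
          0) V (U + s) *
          coeff s (Eh M (PowerSeries.X : PowerSeries R)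
            (form d (mix d (fun s => PowerSeries.C (c s))))) +
      PowerSeries.X ^ M * z

/-- (Res) exact divisibility of the kernel and its residue -/
def S_Res : Prop :=
  ∀ (ι : Type) [Fintype ι] [DecidableEq ι] (p d : ℕ) [Fact p.Prime] (K R : Type) [CommRing K]
    [CommRing R] [IsDomain R] (S : Pre p d K R) (c : (ι →₀ ℕ) → R) (V U : ι →₀ ℕ), 4 ≤ p → 0 < d →
    2 * V.degree < d * (p - 1) →
    ∃ x : R, S.ker (Sd ι d) c V U = S.lam ^ ((p - 1) * V.degree) * x ∧
      S.res x = kap p d (fun s => S.res (c s)) V U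

/-- (BDiv) divisibility and residues of the Frobenius matrix -/
def S_BDiv : Prop :=
  ∀ (ι : Type) [Fintype ι] [DecidableEq ι] (p e : ℕ) [Fact p.Prime] (K R L : Type) [CommRing K]
    [CommRing R] [IsDomain R] [CommRing L] (S : Pre p (e + 1) K R) (π : R →+* L) (ρ : L →+* K)
    (c : (ι →₀ ℕ) → R) (N : ℕ) (he : 0 < e)
    (D' : RdS e (form (e + 1) (fun s => π (c s ^ p)) : MvPolynomial ι L)),
    ρ.comp π = S.res → 2 * (Fintype.card ι * e) + 4 ≤ p → Fintype.card ι * e ≤ N →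
    (∀ j, IsUnit (LM (form (e + 1) (fun s => π (c s ^ p)) : MvPolynomial ι L) e he j).det) →
    ∃ b : Matrix (ι → Fin e) (ι → Fin e) L, ∀ u' u,
      Bm D' (fun V U => π (S.ker (Sd ι (e + 1)) c V U)) N u' u =
        π S.lam ^ ((p - 1) * wt u') * b u' u ∧
      Dl p e he (fun s => S.res (c s)) (bdeg u') * ρ (b u' u) =
        bnum p e he (fun s => S.res (c s)) u' u

/-- (Min) minors: integrality and congruence -/
def S_Min : Prop :=
  ∀ (m : Type) [Fintype m] [DecidableEq m] (w : m → ℕ) (j q p : ℕ) (R K F : Type) [CommRing R]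
    [IsDomain R] [CommRing K] [Field F] [Algebra R F] [IsFractionRing R F] [CharZero R] (lam : R)
    (res : R →+* K) (Y : Matrix m m (PowerSeries F)) (bb : Matrix m m (PowerSeries K)) (βb : m → K)
    (I : Type) [Fintype I] [DecidableEq I] (α : I → m),
    Function.Injective α → (∀ u, (∃ i, α i = u) ↔ w u ≤ j) → 0 < q → (hp : p ≠ 0) → 2 ≤ p →
    lam ≠ 0 → (∀ x, res x = 0 → lam ∣ x) → res lam = 0 →
    (∀ n : ℕ, 0 < n → ∃ k : ℕ, (n : R) ∣ lam ^ k) →
    (∀ (n : ℕ) (u v : m), ∃ (k : ℕ) (y : R),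
      algebraMap R F (lam ^ k) * PowerSeries.coeff n (Y u v) = algebraMap R F y) →
    IsUnit (((Fintype.card I).factorial : ℕ) : R) →
    (∀ u v, PowerSeries.constantCoeff (Y u v) = if u = v then 1 else 0) →
    (∀ M N : ℕ, ∃ (b Z : Matrix m m (PowerSeries R)) (Z' : Matrix m m (PowerSeries F)) (β : m → R),
      (∀ u v, PowerSeries.map res (b u v) = bb u v) ∧ (∀ u, IsUnit (β u)) ∧
      (∀ u, res (β u) = βb u) ∧
      ∀ u v, (M.factorial : PowerSeries F) *
        (∑ x, PowerSeries.expand p hp (Y u x) *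
          PowerSeries.map (algebraMap R F) (PowerSeries.C (lam ^ (q * w x)) * b x v) -
          PowerSeries.map (algebraMap R F) (PowerSeries.C (lam ^ (q * w u) * β u)) * Y u v) =
        PowerSeries.map (algebraMap R F) (PowerSeries.C (lam ^ N) * Z u v) +
          PowerSeries.X ^ M * Z' u v) →
    ∃ V : PowerSeries R,
      PowerSeries.map (algebraMap R F) V = (Y.submatrix α α).det ∧
      PowerSeries.C (∏ i, βb (α i)) * PowerSeries.map res V =
        PowerSeries.expand p hp (PowerSeries.map res V) * (bb.submatrix α α).det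

/-- (Ode) the determinants are solutions of differential equations -/
def S_Ode : Prop :=
  ∀ (ι : Type) [Fintype ι] [DecidableEq ι] (F : Type) [Field F] [Algebra ℚ F] (e j : ℕ)
    (b : ι → F) (c : (ι →₀ ℕ) → F), 0 < e → (∀ i, b i ≠ 0) →
    Pool.Agent.Q267.ST.HasODE (levdet (Ys e b c) j)

/-- the number of points of the affine cone over the field with `p ^ a` elements -/
noncomputable def Npts {ι : Type} (p : ℕ) {K : Type} [Field K] (f : MvPolynomial ι K) (a : ℕ) : ℕ :=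
  Nat.card {x : ι → K // (∀ i, x i ^ (p ^ a) = x i) ∧ eval x f = 0}

/-- (PT) the trace formula for the projective hypersurface -/
def S_PT : Prop :=
  ∀ (ι : Type) [Fintype ι] [DecidableEq ι] (p e : ℕ) [Fact p.Prime] (K R : Type) [Field K]
    [IsAlgClosed K] [CharP K p] [CommRing R] [IsDomain R] (S : Setup p (e + 1) K R) (N : ℕ)
    (c : (ι →₀ ℕ) → K), (∀ s, c s ^ p = c s) → p ≡ 1 [MOD (e + 1)] →
    ∀ (D : S.BD N (form (e + 1) c) e emb) (a : ℕ), 1 ≤ a →
    ((p ^ a * Npts p (form (e + 1) c) a : ℕ) : S.Q N) =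
      ((p ^ (a * Fintype.card ι) : ℕ) : S.Q N) + (-1) ^ Fintype.card ι *
        ((p ^ a : ℕ) - 1 : S.Q N) *
        ∑ u ∈ Finset.univ.filter (fun u : ι → Fin e => (e + 1) ∣ wt u), ((Setup.Bt D 0) ^ a) u u

/-- (Span) the spanning property in all degrees -/
def S_Span : Prop :=
  ∀ (ι : Type) [Fintype ι] [DecidableEq ι] (K : Type) [Field K] (e : ℕ) (he : 0 < e)
    (H : MvPolynomial ι K), H.IsHomogeneous (e + 1) →
    (∀ j ≤ Fintype.card ι * e + 1, (LM H e he j).det ≠ 0) →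
    (∀ j, (LM H e he j).det ≠ 0) ∧
    (∀ (j : ℕ) (P : MvPolynomial ι K), P.IsHomogeneous j →
      ∃ (a : ι → MvPolynomial ι K) (c : (ι → Fin e) → K),
        (∀ i, e ≤ j → (a i).IsHomogeneous (j - e)) ∧ (∀ i, j < e → a i = 0) ∧
        P = ∑ i, a i * pderiv i H + ∑ u with ∑ i, (u i : ℕ) = j, monomial (emb u) (c u)) ∧
    (∀ (K' : Type) [Field K'] (φ : K →+* K') (x : ι → K'),
      (∀ i, eval₂ φ x (pderiv i H) = 0) → x = 0)

/-- (New) the Newton polygon -/
def S_New : Prop :=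
  ∀ (p d : ℕ) [Fact p.Prime] (K R : Type) [Field K] [CharP K p] [CommRing R] [IsDomain R]
    (S : Pre p d K R) (m : Type) [Fintype m] [DecidableEq m] (h : m → ℕ) (St : ℕ → ℤ)
    (bb : Matrix m m K), 0 < d → Fintype.card m < p →
    (∀ N : ℕ, ∃ b : Matrix m m R, (∀ u v, S.res (b u v) = bb u v) ∧
      ∀ a : ℕ, 1 ≤ a → ∃ z : R, (St a : R) =
        ((p : R) ^ a - 1) * ((Matrix.of fun u v => (-(p : R)) ^ (h u + 1) * b u v) ^ a).trace +
          S.lam ^ N * z) →
    (∀ j : ℕ, (bb.submatrix (Subtype.val : {u : m // h u < j} → m)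
      (Subtype.val : {u : m // h u < j} → m)).det ≠ 0) →
    ∃ c : ℕ → ℚ, c 0 = 1 ∧
      (∀ k : ℕ, ((k : ℚ) + 1) * c (k + 1) = -∑ i ∈ Finset.range (k + 1),
        (St (i + 1) : ℚ) / (((p : ℚ) ^ (i + 1) - 1) * (p : ℚ) ^ (i + 1)) * c (k - i)) ∧
      (∀ k, Fintype.card m < k → c k = 0) ∧
      (∀ k j : ℕ, c k ≠ 0 →
        ((j * k : ℕ) : ℤ) - ((∑ u, (j - h u) : ℕ) : ℤ) ≤ padicValRat p (c k)) ∧
      (∀ j : ℕ, c (Finset.univ.filter (fun u => h u < j)).card ≠ 0 ∧
        padicValRat p (c (Finset.univ.filter (fun u => h u < j)).card) =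
          ((∑ u ∈ Finset.univ.filter (fun u => h u < j), h u : ℕ) : ℤ))

/-- (YsM) naturality of `Y` -/
def S_YsM : Prop :=
  ∀ (ι : Type) [Fintype ι] [DecidableEq ι] (L L' : Type) [CommRing L] [CommRing L'] [Algebra ℚ L]
    [Algebra ℚ L'] (φ : L →+* L') (e : ℕ) (b : ι → L) (c : (ι →₀ ℕ) → L) (r u : ι → Fin e),
    PowerSeries.map φ (Ys e b c r u) = Ys e (fun i => φ (b i)) (fun s => φ (c s)) r u

/-- (Yh) comparison of `Yh` and `Ys` -/
def S_Yh : Prop :=
  ∀ (ι : Type) [Fintype ι] [DecidableEq ι] (R F : Type) [CommRing R] [Field F] [Algebra ℚ F]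
    (φ : R →+* F) (e M p : ℕ) (hp : p ≠ 0) (dinv : R) (b : ι → R) (c : (ι →₀ ℕ) → R)
    (r u : ι → Fin e), 0 < M → dinv * ((e + 1 : ℕ) : R) = 1 →
    (∃ z : PowerSeries F, PowerSeries.map φ (Yh e M (PowerSeries.C dinv)
        (fun i => PowerSeries.C (b i)) PowerSeries.X
        (form (e + 1) (mix (e + 1) (fun s => PowerSeries.C (c s)))) r u) =
      (M.factorial : PowerSeries F) * Ys e (fun i => φ (b i)) (fun s => φ (c s)) r u +
        PowerSeries.X ^ M * z) ∧
    (∃ z : PowerSeries F, PowerSeries.map φ (Yh e M (PowerSeries.C dinv)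
        (fun i => PowerSeries.C (b i)) (PowerSeries.X ^ p)
        (form (e + 1) (mix (e + 1) (fun s => PowerSeries.C (c s)))) r u) =
      (M.factorial : PowerSeries F) *
        PowerSeries.expand p hp (Ys e (fun i => φ (b i)) (fun s => φ (c s)) r u) +
        PowerSeries.X ^ M * z)

/-- (Nat) naturality of the reduced matrices -/
def S_Nat : Prop :=
  ∀ (ι : Type) [Fintype ι] [DecidableEq ι] (L L' : Type) [CommRing L] [CommRing L'] (φ : L →+* L')
    (p e : ℕ) [Fact p.Prime] (he : 0 < e) (c : (ι →₀ ℕ) → L),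
    (∀ j, φ (LM (form (e + 1) c) e he j).det = (LM (form (e + 1) (fun s => φ (c s))) e he j).det) ∧
    (∀ j, φ (Dl p e he c j) = Dl p e he (fun s => φ (c s)) j) ∧
    (∀ u' u, φ (bnum p e he c u' u) = bnum p e he (fun s => φ (c s)) u' u) ∧
    (∀ j, φ (levdet (bnum p e he c) j) = levdet (bnum p e he (fun s => φ (c s))) j)

/-- (LM0) the leading matrices of the diagonal form -/
def S_LM0 : Prop :=
  ∀ (ι : Type) [Fintype ι] [DecidableEq ι] (L : Type) [CommRing L] (e : ℕ) (he : 0 < e) (a : ι → L)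
    (c : (ι →₀ ℕ) → L) (j : ℕ),
    LM (form (e + 1) (fam (e + 1) a c 0)) e he j =
      Matrix.diagonal (fun w => ∏ i, (((e + 1 : ℕ) : L) * a i) ^ qt e w.1 i)

/-- (T0) the reduced Frobenius matrix of the diagonal form -/
def S_T0 : Prop :=
  ∀ (ι : Type) [Fintype ι] [DecidableEq ι] (k : Type) [Field k] (p e : ℕ) [Fact p.Prime] [CharP k p]
    (he : 0 < e) (a : ι → k) (c : (ι →₀ ℕ) → k), p ≡ 1 [MOD (e + 1)] → (∀ i, a i ≠ 0) →
    ∀ u' u, (u' ≠ u → bnum p e he (fam (e + 1) a c 0) u' u = 0) ∧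
      (u' = u → bnum p e he (fam (e + 1) a c 0) u' u ≠ 0)

/-- (Deg) degrees in the parameter -/
def S_Deg : Prop :=
  ∀ (ι : Type) [Fintype ι] [DecidableEq ι] (e : ℕ) (he : 0 < e), ∃ C : ℕ,
    ∀ (p : ℕ) [Fact p.Prime] (k : Type) [Field k] (a : ι → k) (c : (ι →₀ ℕ) → k),
    (∀ j, (levdet (bnum p e he (fam (e + 1) (fun i => Polynomial.C (a i))
      (fun s => Polynomial.C (c s)) Polynomial.X)) j).natDegree ≤ C * p) ∧
    (∀ j ≤ Fintype.card ι * e + 1, ((LM (form (e + 1) (fam (e + 1) (fun i => Polynomial.C (a i))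
      (fun s => Polynomial.C (c s)) Polynomial.X)) e he j).det).natDegree ≤ C)

/-- (Unit) units of the ring -/
def S_Unit : Prop :=
  ∀ (p D : ℕ) [Fact p.Prime] (K : Type) [Field K] [CharP K p] [PerfectRing K p] (hD : 0 < D)
    (x : Constr.RR p D K), Constr.resMap p D K hD x ≠ 0 → IsUnit x

end Pool.Agent.H887.BK
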