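import Pool.Agent.H887.BK.PKer
import Pool.Agent.H425.YB
import Pool.Agent.H425.Psi
import Pool.Agent.H425.Cube

/-!
# Definitions

`d = e + 1`. All forms have degree `d` and are indexed by the exponents `Sd ι d`.
-/

set_option autoImplicit false
set_option linter.unusedSectionVars false
set_option linter.unusedVariables false

namespace Pool.Agent.H887.BK

open MvPolynomial Pool.Agent.H425

variable {ι : Type} [Fintype ι] [DecidableEq ι] {L : Type} [CommRing L]

/-- exponents of degree `d` -/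
noncomputable def Sd (ι : Type) [Fintype ι] [DecidableEq ι] (d : ℕ) : Finset (ι →₀ ℕ) :=
  (DD ι d).filter (fun s => s.degree = d)

theorem mem_Sd (d : ℕ) (s : ι →₀ ℕ) : s ∈ Sd ι d ↔ s.degree = d := by
  rw [Sd, Finset.mem_filter, mem_DD]
  constructor
  · exact fun h => h.2
  · exact fun h => ⟨h.le, h⟩

/-- the form with the given coefficients -/
noncomputable def form (d : ℕ) (c : (ι →₀ ℕ) → L) : MvPolynomial ι L :=
  ∑ s ∈ Sd ι d, monomial s (c s)

/-- the exponent `(1, …, 1)` -/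
noncomputable def one1 : ι →₀ ℕ := oneA Finset.univ

/-- the degree of an element of the box -/
def bdeg {e : ℕ} (u : ι → Fin e) : ℕ := ∑ i, (u i : ℕ)

theorem degree_emb {e : ℕ} (u : ι → Fin e) : (emb u).degree = bdeg u := by
  rw [Finsupp.degree_eq_sum]
  rfl

/-- the weight `|u + 1|` of an element of the box -/
def wt {e : ℕ} (u : ι → Fin e) : ℕ := bdeg u + Fintype.card ι

/-- `x ^ w ↦ (∂ H) ^ (w / e) x ^ (w % e)` -/
noncomputable def leadv (H : MvPolynomial ι L) (e : ℕ) (he : 0 < e) (w : ι →₀ ℕ) :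
    MvPolynomial ι L :=
  (∏ i, pderiv i H ^ qt e w i) * monomial (emb (rm e he w)) 1

/-- the matrix of `leadv` in degree `j` -/
noncomputable def LM (H : MvPolynomial ι L) (e : ℕ) (he : 0 < e) (j : ℕ) :
    Matrix (Sd ι j) (Sd ι j) L :=
  fun v w => coeff v.1 (leadv H e he w.1)

/-- coordinates modulo the images of the operators `∂_i + ∂_i H` -/
structure RdS (e : ℕ) (H : MvPolynomial ι L) where
  rd : MvPolynomial ι L →ₗ[L] ((ι → Fin e) → L)
  rd_yop : ∀ i P, rd (yop H i P) = 0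
  rd_mon : ∀ u, rd (monomial (emb u) 1) = Pi.single u 1
  rd_low : ∀ (w : ι →₀ ℕ) (u : ι → Fin e), w.degree < bdeg u → rd (monomial w 1) u = 0
  dec : ∀ P, ∃ Q : ι → MvPolynomial ι L,
    P = ∑ u, rd P u • monomial (emb u) 1 + ∑ i, yop H i (Q i)

/-- the operator with kernel `k`, truncated in degree `N` -/
noncomputable def kop (k : (ι →₀ ℕ) → (ι →₀ ℕ) → L) (N : ℕ) (δ : ι →₀ ℕ) :
    MvPolynomial ι L →ₗ[L] MvPolynomial ι L :=
  (basisMonomials ι L).constr L (fun u => ∑ v ∈ DD ι N, monomial v (k (v + δ) (u + δ)))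

/-- the identities satisfied by Dwork's kernel; `c'` are the coefficients of the twisted form -/
structure KCore (p d N : ℕ) (c c' : (ι →₀ ℕ) → L) (k : (ι →₀ ℕ) → (ι →₀ ℕ) → L) : Prop where
  van : ∀ V U, N ≤ V.degree → k V U = 0
  low : ∀ V U, ¬ U ≤ p • V → k V U = 0
  core : ∀ (i : ι) (V U : ι →₀ ℕ), (U i : L) * k V U +
      ∑ s ∈ Sd ι d, (s i : L) * c s * k V (U + s) =
    (p : L) * ((V i : L) * k V U) +
      (p : L) * ∑ s ∈ Sd ι d, (s i : L) * c' s * (if s ≤ V then k (V - s) U else 0)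

/-- the matrix of the operator with kernel `k` on the box -/
noncomputable def Bm {e : ℕ} {H' : MvPolynomial ι L} (D' : RdS e H')
    (k : (ι →₀ ℕ) → (ι →₀ ℕ) → L) (N : ℕ) : Matrix (ι → Fin e) (ι → Fin e) L :=
  fun u' u => D'.rd (kop k N one1 (monomial (emb u) 1)) u'

/-- the coefficients of `∑ a_i x_i ^ d + τ ∑ c_s x ^ s`, the second sum over the mixed monomials -/
noncomputable def fam (d : ℕ) (a : ι → L) (c : (ι →₀ ℕ) → L) (τ : L) (s : ι →₀ ℕ) : L :=
  open Classical in
  (∑ i, if s = Finsupp.single i d then a i else 0) +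
    (if ∃ i, s = Finsupp.single i d then 0 else τ * c s)

/-- the mixed part -/
noncomputable def mix (d : ℕ) (c : (ι →₀ ℕ) → L) (s : ι →₀ ℕ) : L :=
  open Classical in if ∃ i, s = Finsupp.single i d then 0 else c s

/-- the coefficient of the reduction of `x ^ w` for `∑ a_i x_i ^ d`, with `b_i = 1 / a_i` and
`dinv = 1 / d` -/
noncomputable def r0c (d : ℕ) (dinv : L) (b : ι → L) (w : ι →₀ ℕ) : L :=
  ∏ i, ∏ k ∈ Finset.range (w i / d), (-(b i * dinv * ((w i % d + 1 + d * k : ℕ) : L)))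

/-- the reduction modulo the operators `∂_i + d a_i x_i ^ e` -/
noncomputable def rd0 (e : ℕ) (dinv : L) (b : ι → L) :
    MvPolynomial ι L →ₗ[L] ((ι → Fin e) → L) :=
  (basisMonomials ι L).constr L (fun w u =>
    if ∀ i, w i % (e + 1) = (u i : ℕ) then r0c (e + 1) dinv b w else 0)

/-- `M! exp (τ g)` truncated after the terms of order less than `M` -/
noncomputable def Eh (M : ℕ) (τ : L) (g : MvPolynomial ι L) : MvPolynomial ι L :=
  ∑ m ∈ Finset.range M, C (((M.factorial / m.factorial : ℕ) : L) * τ ^ m) * g ^ m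

/-- `M! Y`, truncated -/
noncomputable def Yh (e M : ℕ) (dinv : L) (b : ι → L) (τ : L) (g : MvPolynomial ι L) :
    Matrix (ι → Fin e) (ι → Fin e) L :=
  fun r u => rd0 e dinv b (Eh M τ g * monomial (emb u) 1) r

/-- the matrix `Y` over a `ℚ`-algebra: the coefficient of `T ^ m` in `Y_{r,u}` is the coordinate of
`g ^ m x ^ u / m!` -/
noncomputable def Ys [Algebra ℚ L] (e : ℕ) (b : ι → L) (c : (ι →₀ ℕ) → L) :
    Matrix (ι → Fin e) (ι → Fin e) (PowerSeries L) :=
  fun r u => PowerSeries.mk fun m => algebraMap ℚ L (1 / (m.factorial : ℚ)) *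
    rd0 e (algebraMap ℚ L (1 / ((e + 1 : ℕ) : ℚ))) b
      (form (e + 1) (mix (e + 1) c) ^ m * monomial (emb u) 1) r

/-- the coefficients of `exp (z + z ^ p / p)` modulo `p`, as natural numbers -/
noncomputable def ebn (p : ℕ) [Fact p.Prime] (j : ℕ) : ℕ :=
  open Classical in
  if h : ‖PowerSeries.coeff j (AH.bb p)‖ ≤ 1 then
    (PadicInt.toZMod (⟨PowerSeries.coeff j (AH.bb p), h⟩ : ℤ_[p])).val else 0

/-- `∑_j ebn_j c ^ j x ^ (j s)` -/
noncomputable def EKs (p : ℕ) [Fact p.Prime] (s : ι →₀ ℕ) (c : L) : MvPowerSeries ι L :=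
  fun w => open Classical in
    ∑ j ∈ Finset.range (w.degree + 1), if j • s = w then (ebn p j : L) * c ^ j else 0

/-- the reduced kernel -/
noncomputable def kap (p d : ℕ) [Fact p.Prime] (c : (ι →₀ ℕ) → L) (V U : ι →₀ ℕ) : L :=
  open Classical in
  if U ≤ p • V then MvPowerSeries.coeff (p • V - U) (∏ s ∈ Sd ι d, EKs p s (c s)) else 0

theorem emb_mem_Sd {e : ℕ} (u : ι → Fin e) : emb u ∈ Sd ι (bdeg u) := by
  rw [mem_Sd, degree_emb]

/-- the discriminant in degree `j` of the twisted form -/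
noncomputable def Dl (p e : ℕ) (he : 0 < e) (c : (ι →₀ ℕ) → L) (j : ℕ) : L :=
  (LM (form (e + 1) (fun s => c s ^ p)) e he j).det

/-- the numerators of the entries of the reduced Frobenius matrix -/
noncomputable def bnum (p e : ℕ) [Fact p.Prime] (he : 0 < e) (c : (ι →₀ ℕ) → L) :
    Matrix (ι → Fin e) (ι → Fin e) L :=
  fun u' u => ∑ v : Sd ι (bdeg u'),
    (LM (form (e + 1) (fun s => c s ^ p)) e he (bdeg u')).adjugate ⟨emb u', emb_mem_Sd u'⟩ v *
      kap p (e + 1) c (v.1 + one1) (emb u + one1)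

/-- the elements of the box of weight at most `j` -/
def lev (ι : Type) [Fintype ι] (e j : ℕ) : Type := {u : ι → Fin e // wt u ≤ j}

noncomputable instance (e j : ℕ) : Fintype (lev ι e j) :=
  inferInstanceAs (Fintype {u : ι → Fin e // wt u ≤ j})

instance (e j : ℕ) : DecidableEq (lev ι e j) :=
  inferInstanceAs (DecidableEq {u : ι → Fin e // wt u ≤ j})

/-- the determinant of the block of weight at most `j` -/
def levdet {e : ℕ} {L : Type} [CommRing L] (B : Matrix (ι → Fin e) (ι → Fin e) L) (j : ℕ) : L :=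
  (B.submatrix (Subtype.val : lev ι e j → ι → Fin e) (Subtype.val : lev ι e j → ι → Fin e)).det

end Pool.Agent.H887.BK
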