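import Pool.Agent.H887.BK.D2

/-!
# Statements for the twisted counts
-/

set_option autoImplicit false
set_option linter.unusedSectionVars false
set_option linter.unusedVariables false

namespace Pool.Agent.H887.BK

open MvPolynomial Pool.Agent.H425

/-- the number of points of the affine cone twisted by `β` -/
noncomputable def Nptw {ι : Type} (p : ℕ) {K : Type} [Field K] (f : MvPolynomial ι K) (β : ι → K)
    (a : ℕ) : ℕ :=
  Nat.card {x : ι → K // (∀ i, x i ^ (p ^ a) = β i * x i) ∧ eval x f = 0}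

/-- (PTw) the twisted trace formula -/
def S_PTw : Prop :=
  ∀ (ι : Type) [Fintype ι] [DecidableEq ι] (p e : ℕ) [Fact p.Prime] (K R : Type) [Field K]
    [IsAlgClosed K] [CharP K p] [CommRing R] [IsDomain R] (S : Setup p (e + 1) K R) (N : ℕ)
    (c : (ι →₀ ℕ) → K) (β : ι → K), (∀ s, c s ^ p = c s) → p ≡ 1 [MOD (e + 1)] →
    (∀ i, β i ^ (e + 1) = 1) → (∀ s ∈ Sd ι (e + 1), c s ≠ 0 → ∏ i, β i ^ (s i) = 1) →
    ∀ (D : S.BD N (form (e + 1) c) e emb) (a : ℕ), 1 ≤ a →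
    ((p ^ a * Nptw p (form (e + 1) c) β a : ℕ) : S.Q N) =
      ((p ^ (a * Fintype.card ι) : ℕ) : S.Q N) + (-1) ^ Fintype.card ι *
        ((p ^ a : ℕ) - 1 : S.Q N) *
        ∑ u ∈ Finset.univ.filter (fun u : ι → Fin e => (e + 1) ∣ wt u),
          S.rd N (∏ i, S.tau (β i) ^ ((u i : ℕ) + 1)) * ((Setup.Bt D 0) ^ a) u u

/-- (NewP) the Newton polygon over the `p`-adic numbers -/
def S_NewP : Prop :=
  ∀ (p d : ℕ) [Fact p.Prime] (K R : Type) [Field K] [CharP K p] [CommRing R] [IsDomain R]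
    (S : Pre p d K R) (m : Type) [Fintype m] [DecidableEq m] (h : m → ℕ) (St : ℕ → ℤ_[p])
    (bb : Matrix m m K), 0 < d → Fintype.card m < p →
    (∀ N : ℕ, ∃ b : Matrix m m R, (∀ u v, S.res (b u v) = bb u v) ∧
      ∀ a : ℕ, 1 ≤ a → ∃ z : R, S.zp (St a) =
        ((p : R) ^ a - 1) * ((Matrix.of fun u v => (-(p : R)) ^ (h u + 1) * b u v) ^ a).trace +
          S.lam ^ N * z) →
    (∀ j : ℕ, (bb.submatrix (Subtype.val : {u : m // h u < j} → m)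
      (Subtype.val : {u : m // h u < j} → m)).det ≠ 0) →
    ∃ c : ℕ → ℚ_[p], c 0 = 1 ∧
      (∀ k : ℕ, ((k : ℚ_[p]) + 1) * c (k + 1) = -∑ i ∈ Finset.range (k + 1),
        (St (i + 1) : ℚ_[p]) / (((p : ℚ_[p]) ^ (i + 1) - 1) * (p : ℚ_[p]) ^ (i + 1)) *
          c (k - i)) ∧
      (∀ k, Fintype.card m < k → c k = 0) ∧
      (∀ k j : ℕ, c k ≠ 0 →
        ((j * k : ℕ) : ℤ) - ((∑ u, (j - h u) : ℕ) : ℤ) ≤ (c k).valuation) ∧
      (∀ j : ℕ, c (Finset.univ.filter (fun u => h u < j)).card ≠ 0 ∧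
        (c (Finset.univ.filter (fun u => h u < j)).card).valuation =
          ((∑ u ∈ Finset.univ.filter (fun u => h u < j), h u : ℕ) : ℤ))

/-- (BGr) the reduced matrix respects the symmetries -/
def S_BGr : Prop :=
  ∀ (ι : Type) [Fintype ι] [DecidableEq ι] (k : Type) [Field k] (p e : ℕ) [Fact p.Prime]
    [CharP k p] (he : 0 < e) (c : (ι →₀ ℕ) → k) (β : ι → k), p ≡ 1 [MOD (e + 1)] →
    (∀ i, β i ^ (e + 1) = 1) → (∀ s ∈ Sd ι (e + 1), c s ≠ 0 → ∏ i, β i ^ (s i) = 1) →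
    ∀ u' u : ι → Fin e, ∏ i, β i ^ (u' i : ℕ) ≠ ∏ i, β i ^ (u i : ℕ) →
      bnum p e he c u' u = 0

/-- (RdGr) the coordinates respect the symmetries -/
def S_RdGr : Prop :=
  ∀ (ι : Type) [Fintype ι] [DecidableEq ι] (L : Type) [CommRing L] (e : ℕ)
    (H : MvPolynomial ι L) (D : RdS e H) (β : ι → L), (∀ i, β i ^ (e + 1) = 1) →
    (∀ s ∈ H.support, ∏ i, β i ^ (s i) = 1) → ∀ (v : ι →₀ ℕ) (u : ι → Fin e),
    (∏ i, β i ^ (v i) - ∏ i, β i ^ (u i : ℕ)) * D.rd (monomial v 1) u = 0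

/-- (KGw) the kernel respects the symmetries -/
def S_KGw : Prop :=
  ∀ (ι : Type) [Fintype ι] [DecidableEq ι] (p d : ℕ) [Fact p.Prime] (K R : Type) [CommRing K]
    [CommRing R] [IsDomain R] (S : Pre p d K R) (c : (ι →₀ ℕ) → R) (A : Type) [CommRing A]
    [IsDomain A] (β : ι → A), 4 ≤ p → 0 < d → p ≡ 1 [MOD d] → (∀ i, β i ^ d = 1) →
    (∀ s ∈ Sd ι d, c s ≠ 0 → ∏ i, β i ^ (s i) = 1) → ∀ V U : ι →₀ ℕ,
    ∏ i, β i ^ (V i) ≠ ∏ i, β i ^ (U i) → S.ker (Sd ι d) c V U = 0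

/-- (WCnt) points of weighted hypersurfaces as twisted points -/
def S_WCnt : Prop :=
  ∀ (ι : Type) [Fintype ι] [DecidableEq ι] (K : Type) [Field K] [IsAlgClosed K] (p d : ℕ)
    [Fact p.Prime] [CharP K p] (w : ι → ℕ) (c : (ι →₀ ℕ) → K) (a : ℕ), 1 ≤ a → 0 < d →
    p ≡ 1 [MOD d] → (∀ s, c s ^ p = c s) → (∀ i, w i ∣ d) →
    (∀ s ∈ Sd ι d, c s ≠ 0 → ∀ i, w i ∣ s i) →
    ∑ β ∈ Fintype.piFinset (fun i => Polynomial.nthRootsFinset (w i) (1 : K)),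
        Nptw p (form d c) β a =
      (∏ i, w i) * Nat.card {x : ι → K // (∀ i, x i ^ (p ^ a) = x i) ∧
        ∑ s ∈ Sd ι d, c s * ∏ i, x i ^ (s i / w i) = 0}

end Pool.Agent.H887.BK
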