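import Pool.Agent.H887.BK.D3

/-!
# Statements for quotients by finite groups
-/

set_option autoImplicit false
set_option linter.unusedSectionVars false
set_option linter.unusedVariables false

namespace Pool.Agent.H887.BK

open MvPolynomial Pool.Agent.H425

/-- (WCntT) twisted points of weighted hypersurfaces -/
def S_WCntT : Prop :=
  ∀ (ι : Type) [Fintype ι] [DecidableEq ι] (K : Type) [Field K] [IsAlgClosed K] (p d : ℕ)
    [Fact p.Prime] [CharP K p] (w : ι → ℕ) (c : (ι →₀ ℕ) → K) (a : ℕ) (β : ι → K), 1 ≤ a → 0 < d →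
    p ≡ 1 [MOD d] → (∀ s, c s ^ p = c s) → (∀ i, w i ∣ d) → (∀ i, β i ≠ 0) →
    (∀ s ∈ Sd ι d, c s ≠ 0 → ∀ i, w i ∣ s i) →
    ∑ γ ∈ Fintype.piFinset (fun i => Polynomial.nthRootsFinset (w i) (β i)),
        Nptw p (form d c) γ a =
      (∏ i, w i) * Nat.card {x : ι → K // (∀ i, x i ^ (p ^ a) = β i * x i) ∧
        ∑ s ∈ Sd ι d, c s * ∏ i, x i ^ (s i / w i) = 0}

/-- (Orb) counting the orbits which are mapped to themselves -/
def S_Orb : Prop :=
  ∀ (G X : Type) [Group G] [Fintype G] [MulAction G X] (F : X → X),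
    (∀ (g : G) (x : X), F (g • x) = g • F x) → {x : X | F x ∈ MulAction.orbit G x}.Finite →
    ∑ g : G, Nat.card {x : X // F x = g • x} =
      Fintype.card G * Nat.card {o : Set X // ∃ x, o = MulAction.orbit G x ∧ F x ∈ o}

end Pool.Agent.H887.BK
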