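import Pool.Agent.H887.BK.D2

/-!
# Naturality
-/

set_option autoImplicit false
set_option linter.unusedSectionVars false
set_option linter.unusedVariables false

namespace Pool.Agent.H887.BK

open MvPolynomial Pool.Agent.H425

variable {ι : Type} [Fintype ι] [DecidableEq ι] {L L' : Type} [CommRing L] [CommRing L']

theorem fam_pure (d : ℕ) (hd : 0 < d) (a : ι → L) (c : (ι →₀ ℕ) → L) (τ : L) (i : ι) :
    fam d a c τ (Finsupp.single i d) = a i := by
  classical
  unfold fam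
  rw [Finset.sum_eq_single i]
  · rw [if_pos rfl, if_pos ⟨i, rfl⟩, add_zero]
  · intro j _ hj
    rw [if_neg]
    intro h
    exact hj ((Finsupp.single_left_injective hd.ne' h).symm)
  · intro h
    exact absurd (Finset.mem_univ i) h

theorem fam_mixed (d : ℕ) (a : ι → L) (c : (ι →₀ ℕ) → L) (τ : L) (s : ι →₀ ℕ)
    (h : ¬ ∃ i, s = Finsupp.single i d) : fam d a c τ s = τ * c s := by
  classical
  unfold fam
  rw [Finset.sum_eq_zero, if_neg h, zero_add]
  intro i _
  rw [if_neg]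
  intro h'
  exact h ⟨i, h'⟩

theorem fam_cases (d : ℕ) (hd : 0 < d) (s : ι →₀ ℕ) {P : Prop}
    (h1 : ∀ i, s = Finsupp.single i d → P) (h2 : (¬ ∃ i, s = Finsupp.single i d) → P) : P := by
  by_cases h : ∃ i, s = Finsupp.single i d
  · obtain ⟨i, hi⟩ := h
    exact h1 i hi
  · exact h2 h

theorem map_fam (φ : L →+* L') (d : ℕ) (hd : 0 < d) (a : ι → L) (c : (ι →₀ ℕ) → L) (τ : L)
    (s : ι →₀ ℕ) :
    φ (fam d a c τ s) = fam d (fun i => φ (a i)) (fun s => φ (c s)) (φ τ) s := by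
  refine fam_cases d hd s (fun i hi => ?_) (fun h => ?_)
  · rw [hi, fam_pure d hd, fam_pure d hd]
  · rw [fam_mixed _ _ _ _ _ h, fam_mixed _ _ _ _ _ h, map_mul]

theorem fam_pow (p d : ℕ) (hd : 0 < d) (a : ι → L) (c : (ι →₀ ℕ) → L) (τ : L)
    (ha : ∀ i, a i ^ p = a i) (hc : ∀ s, c s ^ p = c s) (s : ι →₀ ℕ) :
    fam d a c τ s ^ p = fam d a c (τ ^ p) s := by
  refine fam_cases d hd s (fun i hi => ?_) (fun h => ?_)
  · rw [hi, fam_pure d hd, fam_pure d hd, ha]
  · rw [fam_mixed _ _ _ _ _ h, fam_mixed _ _ _ _ _ h, mul_pow, hc]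

theorem map_form (φ : L →+* L') (d : ℕ) (c : (ι →₀ ℕ) → L) :
    map φ (form d c : MvPolynomial ι L) = form d (fun s => φ (c s)) := by
  unfold form
  rw [map_sum]
  refine Finset.sum_congr rfl fun s _ => ?_
  rw [map_monomial]

theorem map_mix (φ : L →+* L') (d : ℕ) (c : (ι →₀ ℕ) → L) (s : ι →₀ ℕ) :
    φ (mix d c s) = mix d (fun s => φ (c s)) s := by
  classical
  unfold mix
  split_ifs
  · exact map_zero φ
  · rfl

theorem map_Eh (φ : L →+* L') (M : ℕ) (τ : L) (g : MvPolynomial ι L) :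
    map φ (Eh M τ g) = Eh M (φ τ) (map φ g) := by
  unfold Eh
  rw [map_sum]
  refine Finset.sum_congr rfl fun m _ => ?_
  rw [map_mul, map_pow, map_C, map_mul, map_natCast, map_pow]

theorem rd0_monomial (e : ℕ) (dinv : L) (b : ι → L) (w : ι →₀ ℕ) (r : L) (u : ι → Fin e) :
    rd0 e dinv b (monomial w r) u =
      if ∀ i, w i % (e + 1) = (u i : ℕ) then r * r0c (e + 1) dinv b w else 0 := by
  have h1 : rd0 e dinv b (monomial w 1) = fun u =>
      if ∀ i, w i % (e + 1) = (u i : ℕ) then r0c (e + 1) dinv b w else 0 := by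
    have := (basisMonomials ι L).constr_basis L (fun w (u : ι → Fin e) =>
      if ∀ i, w i % (e + 1) = (u i : ℕ) then r0c (e + 1) dinv b w else 0) w
    rw [coe_basisMonomials] at this
    exact this
  have h2 : (monomial w r : MvPolynomial ι L) = r • monomial w (1 : L) := by
    rw [smul_monomial, smul_eq_mul, mul_one]
  rw [h2, map_smul, h1, Pi.smul_apply, smul_eq_mul, mul_ite, mul_zero]

theorem map_r0c (φ : L →+* L') (d : ℕ) (dinv : L) (b : ι → L) (w : ι →₀ ℕ) :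
    φ (r0c d dinv b w) = r0c d (φ dinv) (fun i => φ (b i)) w := by
  unfold r0c
  rw [map_prod]
  refine Finset.prod_congr rfl fun i _ => ?_
  rw [map_prod]
  refine Finset.prod_congr rfl fun k _ => ?_
  rw [map_neg, map_mul, map_mul, map_natCast]

theorem map_rd0 (φ : L →+* L') (e : ℕ) (dinv : L) (b : ι → L) (P : MvPolynomial ι L)
    (u : ι → Fin e) :
    φ (rd0 e dinv b P u) = rd0 e (φ dinv) (fun i => φ (b i)) (map φ P) u := by
  induction P using MvPolynomial.induction_on' with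
  | monomial w r =>
    rw [map_monomial, rd0_monomial, rd0_monomial]
    split_ifs
    · rw [map_mul, map_r0c]
    · exact map_zero φ
  | add p q hp hq =>
    rw [map_add, Pi.add_apply, map_add, hp, hq, map_add, map_add, Pi.add_apply]

theorem map_Yh (φ : L →+* L') (e M : ℕ) (dinv : L) (b : ι → L) (τ : L) (g : MvPolynomial ι L)
    (r u : ι → Fin e) :
    φ (Yh e M dinv b τ g r u) = Yh e M (φ dinv) (fun i => φ (b i)) (φ τ) (map φ g) r u := by
  unfold Yh
  rw [map_rd0, map_mul, map_Eh, map_monomial, map_one]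

theorem coeff_kop (k : (ι →₀ ℕ) → (ι →₀ ℕ) → L) (N : ℕ) (δ u v : ι →₀ ℕ) (r : L) :
    coeff v (kop k N δ (monomial u r)) = if v.degree ≤ N then r * k (v + δ) (u + δ) else 0 := by
  have h1 : kop k N δ (monomial u 1) = ∑ v ∈ DD ι N, monomial v (k (v + δ) (u + δ)) := by
    have := (basisMonomials ι L).constr_basis L
      (fun u => ∑ v ∈ DD ι N, monomial v (k (v + δ) (u + δ))) u
    rw [coe_basisMonomials] at this
    exact this
  have h2 : (monomial u r : MvPolynomial ι L) = r • monomial u (1 : L) := by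
    rw [smul_monomial, smul_eq_mul, mul_one]
  rw [h2, map_smul, coeff_smul, h1, coeff_sum, smul_eq_mul]
  simp only [coeff_monomial]
  rw [Finset.sum_ite_eq', mul_ite, mul_zero]
  simp only [mem_DD]

theorem kop_monomial (k : (ι →₀ ℕ) → (ι →₀ ℕ) → L) (N : ℕ) (δ u : ι →₀ ℕ) :
    kop k N δ (monomial u 1) = ∑ v ∈ DD ι N, monomial v (k (v + δ) (u + δ)) := by
  have := (basisMonomials ι L).constr_basis L
      (fun u => ∑ v ∈ DD ι N, monomial v (k (v + δ) (u + δ))) u
  rw [coe_basisMonomials] at this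
  exact this

theorem map_kop (φ : L →+* L') (k : (ι →₀ ℕ) → (ι →₀ ℕ) → L) (N : ℕ) (δ u : ι →₀ ℕ) :
    map φ (kop k N δ (monomial u 1)) = kop (fun V U => φ (k V U)) N δ (monomial u 1) := by
  rw [kop_monomial, kop_monomial, map_sum]
  refine Finset.sum_congr rfl fun v _ => ?_
  rw [map_monomial]

namespace Pre

variable {p d : ℕ} [hp : Fact p.Prime] {K R : Type} [CommRing K] [CommRing R] [IsDomain R]
  (S : Pre p d K R)

theorem ps_lam : S.ps.lam = PowerSeries.C S.lam := rfl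

theorem ps_pi : S.ps.pi = PowerSeries.C S.pi := by
  rw [Pre.pi, Pre.pi, ps_lam, map_pow]

theorem ps_zpq (x : ℚ_[p]) : S.ps.zpq x = PowerSeries.C (S.zpq x) := by
  unfold Pre.zpq
  split_ifs
  · rfl
  · exact (map_zero _).symm

theorem ps_th (j : ℕ) : S.ps.th j = PowerSeries.C (S.th j) := by
  rw [Pre.th, Pre.th, ps_pi, ps_zpq, map_mul, map_mul, map_pow, map_pow, map_neg, map_one]

theorem ps_Fs (s : ι →₀ ℕ) (hs : s ≠ 0) (c : R) :
    S.ps.Fs s (PowerSeries.C c) = MvPowerSeries.map (PowerSeries.C (R := R)) (S.Fs s c) := by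
  ext1 w
  rw [MvPowerSeries.coeff_map]
  by_cases hw : ∃ j : ℕ, j • s = w
  · obtain ⟨j, rfl⟩ := hw
    rw [S.ps.coeff_Fs s hs, S.coeff_Fs s hs, ps_th, map_mul, map_pow]
  · push Not at hw
    rw [S.ps.coeff_Fs_ne s _ w hw, S.coeff_Fs_ne s c w hw, map_zero]

theorem ps_FF (supp : Finset (ι →₀ ℕ)) (c : (ι →₀ ℕ) → R) (h0 : 0 ∉ supp) :
    S.ps.FF supp (fun s => PowerSeries.C (c s)) =
      MvPowerSeries.map (PowerSeries.C (R := R)) (S.FF supp c) := by
  rw [Pre.FF, Pre.FF, map_prod]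
  exact Finset.prod_congr rfl fun s hs => S.ps_Fs s (fun h => h0 (h ▸ hs)) (c s)

theorem ps_Gk (supp : Finset (ι →₀ ℕ)) (c : (ι →₀ ℕ) → R) (h0 : 0 ∉ supp) (V U : ι →₀ ℕ) :
    S.ps.Gk supp (fun s => PowerSeries.C (c s)) V U = PowerSeries.C (S.Gk supp c V U) := by
  unfold Pre.Gk
  split_ifs
  · rw [S.ps_FF _ _ h0, MvPowerSeries.coeff_map]
  · exact (map_zero _).symm

theorem ps_ker (hp3 : 3 ≤ p) (supp : Finset (ι →₀ ℕ)) (c : (ι →₀ ℕ) → R)
    (h0 : 0 ∉ supp) (hd : ∀ s ∈ supp, s.degree ≤ d) (V U : ι →₀ ℕ) :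
    S.ps.ker supp (fun s => PowerSeries.C (c s)) V U = PowerSeries.C (S.ker supp c V U) := by
  have h1 := (S.ps.ker_spec hp3 supp (fun s => PowerSeries.C (c s)) h0 hd V U).2
  have h2 := (S.ker_spec hp3 supp c h0 hd V U).2
  apply mul_left_cancel₀ (pow_ne_zero V.degree S.ps.lam_ne)
  rw [h1, S.ps_Gk _ _ h0, ps_lam, ← map_pow, ← map_pow, ← map_mul, ← map_mul, h2]

end Pre

theorem zero_notMem_Sd (d : ℕ) (hd : 0 < d) : (0 : ι →₀ ℕ) ∉ Sd ι d := by
  rw [mem_Sd, map_zero]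
  omega

theorem degree_le_Sd (d : ℕ) : ∀ s ∈ Sd ι d, s.degree ≤ d := fun s hs => ((mem_Sd d s).1 hs).le

end Pool.Agent.H887.BK
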