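import Pool.Agent.H887.CI.Sieve
import Pool.Graph.R_pool_sql_team_seeded_3997aac3.Q267.OD.NF

/-!
# The sieve for places which are congruent to one
-/

set_option autoImplicit false

open Finset

namespace Pool.Agent.H887.BK

open Pool.Agent.Q267.AP Pool.Agent.Q267.ST
open NumberField IsDedekindDomain Filter Topology
open Pool.Agent.W401.Cheb Pool.Agent.W528.Ord
open Pool.Agent.Q267.OD (charP_res finite_mem red allP dens_cyc)
open Pool.Agent.Q267.DC (hm abs_sup)

section

variable {K : Type} [Field K] [NumberField K]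

open Classical in
/-- **All scales.** -/
theorem allscalesP {σ : Type} [Fintype σ] [Nonempty σ] (d : ℕ) [NeZero d]
    (O : HeightOneSpectrum (𝓞 K) → (σ → ℕ) → Prop)
    (hper : ∀ v : HeightOneSpectrum (𝓞 K), (Ideal.absNorm v.asIdeal).Prime →
      ∀ t, O v t ↔ O v fun j => t j % Ideal.absNorm v.asIdeal)
    (hfew : ∀ ε : ℝ, 0 < ε → {v : HeightOneSpectrum (𝓞 K) | (Ideal.absNorm v.asIdeal).Prime ∧
      d ∣ Ideal.absNorm v.asIdeal - 1 ∧
      ¬ (((Fintype.piFinset fun _ : σ => range (Ideal.absNorm v.asIdeal)).filter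
        fun t => ¬ O v t).card : ℝ) ≤
          ε * (Ideal.absNorm v.asIdeal : ℝ) ^ Fintype.card σ}.Finite)
    (η : ℝ) (hη : 0 < η) (θ : ℝ) (hθ0 : 0 < θ) (hθ1 : θ < 1) :
    ∃ A : ℝ, ∀ X Q₀ Q₁ : ℕ, 1 ≤ Q₀ →
      ({t : σ → ℕ | (∀ j, 1 ≤ t j ∧ t j ≤ X) ∧ ∃ Q, Q₀ ≤ Q ∧ Q ≤ Q₁ ∧
        (Nat.card {v : HeightOneSpectrum (𝓞 K) // Ideal.absNorm v.asIdeal ≤ Q ∧
          O v t} : ℝ) < (1 / (Module.finrank K (CyclotomicField d K) : ℝ) - η) *
            allP K Q}.ncard : ℝ) ≤
        A * ((X : ℝ) ^ Fintype.card σ * (Q₀ : ℝ) ^ (θ - 1) +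
          (X : ℝ) ^ (Fintype.card σ - 1) * (Q₁ : ℝ) ^ (1 + θ)) := by
  obtain ⟨P, hP, hP1⟩ := dens_cyc K d
  have hd0 : ((d : ℕ) : 𝓞 K) ≠ 0 := by
    rw [Nat.cast_ne_zero]
    exact NeZero.ne d
  have hfr : 1 ≤ Module.finrank K (CyclotomicField d K) :=
    Module.finrank_pos
  have hfr' : (1 : ℝ) ≤ Module.finrank K (CyclotomicField d K) := by exact_mod_cast hfr
  set κ : ℝ := 1 / (Module.finrank K (CyclotomicField d K) : ℝ) with hκ
  have hκ0 : 0 < κ := by rw [hκ]; positivity
  have hκ1 : κ ≤ 1 := by rw [hκ, div_le_one (by linarith)]; exact hfr'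
  obtain ⟨A, hA⟩ := abs_sup K (J := σ) (Γ := Unit)
    (fun _ v t => O v t) P κ
    hκ0 hκ1 hP 1 zero_le_one le_rfl (by
      intro ε hε
      refine ⟨fun v => P v ∧ (Ideal.absNorm v.asIdeal).Prime ∧ v ∉ (hfew ε hε).toFinset ∧
        v ∉ (finite_mem (K := K) _ hd0).toFinset, ?_,
        fun v hv => ⟨hv.1, hv.2.1⟩, ?_⟩
      · have h1 : Tendsto (fun N => dens (fun v : HeightOneSpectrum (𝓞 K) =>
            ¬ (Ideal.absNorm v.asIdeal).Prime) N +
              (dens (fun v => v ∈ (hfew ε hε).toFinset) N +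
                dens (fun v => v ∈ (finite_mem (K := K) _ hd0).toFinset) N)) atTop
                (𝓝 (0 + (0 + 0))) :=
          (dens_not_prime (K := K)).add ((dens_finite _ (Finset.finite_toSet _)).add
            (dens_finite _ (Finset.finite_toSet _)))
        rw [add_zero, add_zero] at h1
        refine squeeze_zero (fun N => dens_nonneg _ _) (fun N => ?_) h1
        refine le_trans (dens_mono (Q := fun v => ¬ (Ideal.absNorm v.asIdeal).Prime ∨
          (v ∈ (hfew ε hε).toFinset ∨ v ∈ (finite_mem (K := K) _ hd0).toFinset)) ?_ N)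
          ((dens_or _ _ N).trans (add_le_add le_rfl (dens_or _ _ N)))
        rintro v ⟨h2, hv⟩
        by_cases h3 : (Ideal.absNorm v.asIdeal).Prime
        · right
          by_contra h4
          rw [not_or] at h4
          exact hv ⟨h2, h3, h4⟩
        · exact Or.inl h3
      · rintro _ v ⟨hPv, hv, hvF, hvd⟩
        refine ⟨fun t => hper v hv _, ?_⟩
        have hdv : d ∣ Ideal.absNorm v.asIdeal - 1 := by
          refine hP1 v hPv fun h => hvd ?_
          rw [Set.Finite.mem_toFinset]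
          exact h
        have hbad : (((Fintype.piFinset fun _ : σ => range (Ideal.absNorm v.asIdeal)).filter
            fun t => ¬ O v t).card : ℝ) ≤
              ε * (Ideal.absNorm v.asIdeal : ℝ) ^ Fintype.card σ := by
          by_contra hno
          exact hvF ((hfew ε hε).mem_toFinset.mpr ⟨hv, hdv, hno⟩)
        refine ⟨(Fintype.piFinset fun _ : σ => range (Ideal.absNorm v.asIdeal)).filter
            fun t => O v t, ?_, ?_⟩
        · intro a ha
          rw [mem_filter, Fintype.mem_piFinset] at ha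
          exact ⟨fun j => mem_range.mp (ha.1 j), ha.2⟩
        · have h2 := card_filter_add_card_filter_not
            (s := Fintype.piFinset fun _ : σ => range (Ideal.absNorm v.asIdeal))
            (fun t => O v t)
          rw [Fintype.card_piFinset, prod_const, card_range, card_univ] at h2
          have hp : (0 : ℝ) < (Ideal.absNorm v.asIdeal : ℝ) ^ Fintype.card σ := by
            have : (0 : ℝ) < Ideal.absNorm v.asIdeal := by exact_mod_cast hv.pos
            positivity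
          rw [le_div_iff₀ hp]
          have h3 : (((Fintype.piFinset fun _ : σ => range (Ideal.absNorm v.asIdeal)).filter
              fun t => O v t).card : ℝ) +
              (((Fintype.piFinset fun _ : σ => range (Ideal.absNorm v.asIdeal)).filter
              fun t => ¬ O v t).card : ℝ) =
                (Ideal.absNorm v.asIdeal : ℝ) ^ Fintype.card σ := by
            exact_mod_cast h2
          linarith) (η / 2) (by positivity) θ hθ0 hθ1
  refine ⟨A, fun X Q₀ Q₁ hQ₀ => ?_⟩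
  obtain ⟨δ, hδ, h⟩ := hA ()
  have h1 := h X Q₀ Q₁ hQ₀
  refine le_trans ?_ h1
  have hfin : {t : σ → ℕ | (∀ j, 1 ≤ t j ∧ t j ≤ X) ∧ ∃ Q, Q₀ ≤ Q ∧ Q ≤ Q₁ ∧
      η / 2 * allP K Q < |(Nat.card {v : HeightOneSpectrum (𝓞 K) // Ideal.absNorm v.asIdeal ≤ Q ∧
          P v ∧ O v t} : ℝ) - δ Q * allP K Q|}.Finite := by
    refine (Finset.finite_toSet (Fintype.piFinset fun _ : σ => Finset.Icc 1 X)).subset ?_
    intro t ht
    rw [Finset.mem_coe, Fintype.mem_piFinset]
    exact fun j => Finset.mem_Icc.mpr (ht.1 j)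
  refine Nat.cast_le.mpr ?_
  refine Set.ncard_le_ncard ?_ hfin
  rintro t ⟨ht, Q, hq1, hq2, hq3⟩
  refine ⟨ht, Q, hq1, hq2, ?_⟩
  have h2 := hδ Q
  have h3 : (0 : ℝ) ≤ allP K Q := Nat.cast_nonneg _
  have h4 : (κ * 1 - η / 2) * (allP K Q : ℝ) ≤ δ Q * allP K Q :=
    mul_le_mul_of_nonneg_right h2 h3
  have h5 : (Nat.card {v : HeightOneSpectrum (𝓞 K) // Ideal.absNorm v.asIdeal ≤ Q ∧
      P v ∧ O v t} : ℝ) ≤ Nat.card {v : HeightOneSpectrum (𝓞 K) //
        Ideal.absNorm v.asIdeal ≤ Q ∧ O v t} := by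
    have hfin2 : Finite {v : HeightOneSpectrum (𝓞 K) //
        Ideal.absNorm v.asIdeal ≤ Q ∧ O v t} := by
      have h6 : {v : HeightOneSpectrum (𝓞 K) | Ideal.absNorm v.asIdeal ≤ Q ∧ O v t}.Finite :=
        (Pool.Agent.W352.ChAbs.finite_le (K := K) Q).subset fun v hv => hv.1
      exact h6.to_subtype
    exact_mod_cast Nat.card_le_card_of_injective
      (fun v : {v : HeightOneSpectrum (𝓞 K) // Ideal.absNorm v.asIdeal ≤ Q ∧ P v ∧ O v t} =>
        (⟨v.1, v.2.1, v.2.2.2⟩ : {v : HeightOneSpectrum (𝓞 K) //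
          Ideal.absNorm v.asIdeal ≤ Q ∧ O v t}))
      (fun a b hab => Subtype.ext (Subtype.mk.inj hab))
  rw [abs_sub_comm]
  refine lt_of_lt_of_le ?_ (le_abs_self _)
  nlinarith

end

end Pool.Agent.H887.BK
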