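import Pool.Agent.H887.BK.Hyp
import Pool.Agent.H887.BK.Sieve

/-!
# Reduction modulo a place
-/

set_option autoImplicit false
set_option linter.unusedSectionVars false
set_option linter.unusedVariables false

namespace Pool.Agent.H887.BK

open MvPolynomial Pool.Agent.H425

variable {ι : Type} [Fintype ι] [DecidableEq ι]

theorem form_qx {L : Type} [CommRing L] {e : ℕ} {Z : Sup ι e} (c : Par Z → L) :
    form (e + 1) (qx c) = ∑ u : Par Z, monomial u.1 (c u) := by
  classical
  unfold form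
  have hsub : Z.S ⊆ Sd ι (e + 1) := fun s hs => (mem_Sd _ _).2 (Z.deg s hs)
  rw [← Finset.sum_subset hsub]
  · rw [← Finset.sum_coe_sort Z.S]
    refine Finset.sum_congr rfl fun u _ => ?_
    unfold qx
    rw [dif_pos u.2]
  · intro s _ hs
    unfold qx
    rw [dif_neg hs, monomial_zero]

theorem Nice_map {p e : ℕ} [Fact p.Prime] (he : 0 < e) {k k' : Type} [Field k] [Field k']
    (φ : k →+* k') {Z : Sup ι e} (c : Par Z → k) (h : Nice p e he c) :
    Nice p e he (fun u => φ (c u)) := by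
  obtain ⟨h1, h2, h3⟩ := h
  have hq : qx (fun u => φ (c u)) = fun s => φ (qx c s) := by
    funext s
    rw [map_qx]
  refine ⟨fun i h => h1 i (φ.injective (by rw [map_zero]; exact h)), fun j hj => ?_,
    fun j hj => ?_⟩
  · rw [hq, ← (hyp.nat ι k k' φ p e he (qx c)).1 j]
    exact fun h => h2 j hj (φ.injective (by rw [h, map_zero]))
  · rw [hq, ← (hyp.nat ι k k' φ p e he (qx c)).2.2.2 j]
    exact fun h => h3 j hj (φ.injective (by rw [h, map_zero]))

theorem qx_notMem {e : ℕ} {Z : Sup ι e} {L : Type} [CommRing L] (c : Par Z → L) (s : ι →₀ ℕ)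
    (hs : s ∉ Sd ι (e + 1)) : qx c s = 0 := by
  unfold qx
  rw [dif_neg]
  intro h
  exact hs ((mem_Sd _ _).2 (Z.deg s h))

/-- the number of elements of the box of given weight -/
def hdg (ι : Type) [Fintype ι] [DecidableEq ι] (e i : ℕ) : ℕ :=
  (Finset.univ.filter fun u : ι → Fin e => wt u = (i + 1) * (e + 1)).card

theorem card_fib [Nonempty ι] (e i : ℕ) :
    (Finset.univ.filter fun u : Mm ι e => hh u = i).card = hdg ι e i := by
  classical
  unfold hdg
  refine Finset.card_bij (fun u _ => u.1) ?_ ?_ ?_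
  · intro u hu
    rw [Finset.mem_filter] at hu ⊢
    refine ⟨Finset.mem_univ _, ?_⟩
    rw [wt_hh u, hu.2, mul_comm]
  · intro u _ v _ h
    exact Subtype.ext h
  · intro u hu
    rw [Finset.mem_filter] at hu
    have h1 : (e + 1) ∣ wt u := by rw [hu.2]; exact dvd_mul_left _ _
    have h2 := wt_hh (⟨u, h1⟩ : Mm ι e)
    refine ⟨⟨u, h1⟩, Finset.mem_filter.2 ⟨Finset.mem_univ _, ?_⟩, rfl⟩
    have h3 : (e + 1) * (hh (⟨u, h1⟩ : Mm ι e) + 1) = (e + 1) * (i + 1) := by
      rw [← h2, mul_comm]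
      exact hu.2
    have := Nat.eq_of_mul_eq_mul_left (Nat.succ_pos e) h3
    omega

theorem sum_low [Nonempty ι] (e j : ℕ) (F : ℕ → ℕ) :
    ∑ u ∈ Finset.univ.filter (fun u : Mm ι e => hh u < j), F (hh u) =
      ∑ i ∈ Finset.range j, hdg ι e i * F i := by
  classical
  rw [← Finset.sum_fiberwise_of_maps_to (s := Finset.univ.filter (fun u : Mm ι e => hh u < j))
    (t := Finset.range j) (g := hh) (fun u hu => Finset.mem_range.2 (Finset.mem_filter.1 hu).2)]
  refine Finset.sum_congr rfl fun i hi => ?_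
  rw [Finset.filter_filter]
  have h1 : (Finset.univ.filter fun u : Mm ι e => hh u < j ∧ hh u = i) =
      Finset.univ.filter fun u : Mm ι e => hh u = i := by
    refine Finset.filter_congr fun u _ => ?_
    have := Finset.mem_range.1 hi
    omega
  rw [h1, ← card_fib e i, ← smul_eq_mul, ← Finset.sum_const]
  refine Finset.sum_congr rfl fun u hu => ?_
  rw [(Finset.mem_filter.1 hu).2]

theorem sum_trunc [Nonempty ι] (e j : ℕ) :
    ∑ u : Mm ι e, (j - hh u) = ∑ i ∈ Finset.range j, hdg ι e i * (j - i) := by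
  rw [← sum_low e j (fun i => j - i)]
  symm
  refine Finset.sum_subset (Finset.subset_univ _) ?_
  intro u _ hu
  rw [Finset.mem_filter, not_and] at hu
  have := hu (Finset.mem_univ _)
  omega

theorem hh_lt [Nonempty ι] {e : ℕ} (he : 0 < e) (u : Mm ι e) : hh u < Fintype.card ι := by
  have h1 := wt_hh u
  have h2 := wt_le he u.1
  have h3 : 1 ≤ Fintype.card ι := Fintype.card_pos
  by_contra h
  push Not at h
  have h4 : (e + 1) * (Fintype.card ι + 1) ≤ (e + 1) * (hh u + 1) :=
    Nat.mul_le_mul_left _ (by omega)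
  nlinarith

theorem card_Mm [Nonempty ι] {e : ℕ} (he : 0 < e) :
    Fintype.card (Mm ι e) = ∑ i ∈ Finset.range (Fintype.card ι), hdg ι e i := by
  have h1 := sum_low (ι := ι) e (Fintype.card ι) (fun _ => 1)
  simp only [mul_one] at h1
  rw [← h1, Finset.sum_const, smul_eq_mul, mul_one, ← Finset.card_univ]
  congr 1
  symm
  rw [Finset.filter_true_of_mem]
  intro u _
  exact hh_lt he u

/-- **A member which satisfies the conditions is smooth and ordinary.** -/
theorem nice_good [Nonempty ι] {p e : ℕ} [hp : Fact p.Prime] (he : 0 < e)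
    (hp1 : p ≡ 1 [MOD (e + 1)]) (hge : P0 ι e ≤ p) {K : Type} [Field K] [IsAlgClosed K] [CharP K p]
    {Z : Sup ι e} (c : Par Z → K) (hc : ∀ u, c u ^ p = c u) (hN : Nice p e he c) :
    (∀ x : ι → K, (∀ i, eval x (pderiv i (∑ u : Par Z, monomial u.1 (c u))) = 0) → x = 0) ∧
    ∃ C : ℕ → ℚ, C 0 = 1 ∧
      (∀ k : ℕ, ((k : ℚ) + 1) * C (k + 1) = -∑ i ∈ Finset.range (k + 1),
        (Sta ι p (∑ u : Par Z, monomial u.1 (c u)) (i + 1) : ℚ) /
          (((p : ℚ) ^ (i + 1) - 1) * (p : ℚ) ^ (i + 1)) * C (k - i)) ∧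
      (∀ k, ∑ i ∈ Finset.range (Fintype.card ι), hdg ι e i < k → C k = 0) ∧
      (∀ k j : ℕ, C k ≠ 0 →
        ((j * k : ℕ) : ℤ) - ((∑ i ∈ Finset.range j, hdg ι e i * (j - i) : ℕ) : ℤ) ≤
          padicValRat p (C k)) ∧
      (∀ j : ℕ, C (∑ i ∈ Finset.range j, hdg ι e i) ≠ 0 ∧
        padicValRat p (C (∑ i ∈ Finset.range j, hdg ι e i)) =
          ((∑ i ∈ Finset.range j, hdg ι e i * i : ℕ) : ℤ)) := by
  classical
  have hpos : 0 < (e + 1) * (p - 1) :=
    Nat.mul_pos (Nat.succ_pos e) (Nat.sub_pos_of_lt hp.out.one_lt)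
  have hdom : IsDomain (Constr.RR p ((e + 1) * (p - 1)) K) := Constr.RR_domain p _ _ hpos
  let S := Constr.setup p K (e + 1) (Nat.succ_pos e) hdom
  obtain ⟨h1, h2, h3⟩ := hN
  have hcx : ∀ s, qx c s ^ p = qx c s := by
    intro s
    unfold qx
    split_ifs with h
    · exact hc _
    · exact zero_pow hp.out.ne_zero
  have hg := good S hyp Pool.Agent.H935.BK.h_PT Pool.Agent.H539.BK.h_Span
    Pool.Agent.H333.BK.h_New he hp1 hge (qx c) hcx (fun s hs => qx_notMem c s hs) h2 h3
  rw [form_qx] at hg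
  refine ⟨?_, ?_⟩
  · intro x hx
    have h4 := (Pool.Agent.H539.BK.h_Span ι K e he (form (e + 1) (qx c)) (form_homog _ _) h2).2.2 K
      (RingHom.id K) x
    rw [form_qx] at h4
    exact h4 hx
  · obtain ⟨C, hC0, hC1, hC2, hC3, hC4⟩ := hg
    refine ⟨C, hC0, hC1, ?_, ?_, ?_⟩
    · rw [← card_Mm he]
      exact hC2
    · intro k j hk
      have := hC3 k j hk
      rwa [sum_trunc] at this
    · intro j
      have h4 : (Finset.univ.filter (fun u : Mm ι e => hh u < j)).card =
          ∑ i ∈ Finset.range j, hdg ι e i := by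
        have h5 := sum_low (ι := ι) e j (fun _ => 1)
        simp only [mul_one] at h5
        rw [← h5, Finset.sum_const, smul_eq_mul, mul_one]
      have h6 := hC4 j
      rw [h4, sum_low e j (fun i => i)] at h6
      exact h6

end Pool.Agent.H887.BK
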