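import Pool.Agent.H887.BK.E1

/-!
# The Frobenius relation over power series
-/

set_option autoImplicit false
set_option linter.unusedSectionVars false
set_option linter.unusedVariables false

namespace Pool.Agent.H887.BK

open MvPolynomial Pool.Agent.H425

variable {ι : Type} [Fintype ι] [DecidableEq ι]

theorem RdM' (hRdM : S_RdM) {L L' : Type} [CommRing L] [CommRing L'] (π : L →+* L')
    (hπ : Function.Surjective π) (e : ℕ) (H : MvPolynomial ι L) (D : RdS e H)
    (H2 : MvPolynomial ι L') (h : H2 = map π H) :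
    ∃ D' : RdS e H2, ∀ P u, D'.rd (map π P) u = π (D.rd P u) := by
  subst h
  exact hRdM ι L L' π hπ e H D

theorem BDiv' (hBDiv : S_BDiv) (p e : ℕ) [Fact p.Prime] {K R L : Type} [CommRing K]
    [CommRing R] [IsDomain R] [CommRing L] (S : Pre p (e + 1) K R) (π : R →+* L) (ρ : L →+* K)
    (c : (ι →₀ ℕ) → R) (N : ℕ) (he : 0 < e) (c' : (ι →₀ ℕ) → L)
    (hc' : c' = fun s => π (c s ^ p)) (D' : RdS e (form (e + 1) c' : MvPolynomial ι L))
    (hρ : ρ.comp π = S.res) (hp : 2 * (Fintype.card ι * e) + 4 ≤ p) (hN : Fintype.card ι * e ≤ N)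
    (hu : ∀ j, IsUnit (LM (form (e + 1) c' : MvPolynomial ι L) e he j).det) :
    ∃ b : Matrix (ι → Fin e) (ι → Fin e) L, ∀ u' u,
      Bm D' (fun V U => π (S.ker (Sd ι (e + 1)) c V U)) N u' u =
        π S.lam ^ ((p - 1) * wt u') * b u' u ∧
      Dl p e he (fun s => S.res (c s)) (bdeg u') * ρ (b u' u) =
        bnum p e he (fun s => S.res (c s)) u' u := by
  subst hc'
  exact hBDiv ι p e K R L S π ρ c N he D' hρ hp hN hu

theorem isUnit_LM0 (hLM0 : S_LM0) {R : Type} [CommRing R] (e : ℕ) (he : 0 < e)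
    (hd : IsUnit ((e + 1 : ℕ) : R)) (a : ι → R) (ha : ∀ i, IsUnit (a i)) (c : (ι →₀ ℕ) → R) (j : ℕ) :
    IsUnit (LM (form (e + 1) (fam (e + 1) a c 0)) e he j).det := by
  rw [hLM0 ι R e he a c j, Matrix.det_diagonal]
  refine IsUnit.prod_univ_iff.2 fun w => ?_
  refine IsUnit.prod_univ_iff.2 fun i => ?_
  exact (hd.mul (ha i)).pow _

theorem isUnit_LM_ps (p : ℕ) [Fact p.Prime] (hNat : S_Nat) (hLM0 : S_LM0) {R : Type} [CommRing R]
    (e : ℕ) (he : 0 < e)
    (hd : IsUnit ((e + 1 : ℕ) : R)) (a : ι → R) (ha : ∀ i, IsUnit (a i)) (c : (ι →₀ ℕ) → R)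
    (τ : PowerSeries R) (hτ : PowerSeries.constantCoeff τ = 0) (j : ℕ) :
    IsUnit (LM (form (e + 1) (fam (e + 1) (fun i => PowerSeries.C (a i))
      (fun s => PowerSeries.C (c s)) τ)) e he j).det := by
  rw [PowerSeries.isUnit_iff_constantCoeff]
  have h1 := (hNat ι (PowerSeries R) R (PowerSeries.constantCoeff (R := R)) p e he
    (fam (e + 1) (fun i => PowerSeries.C (a i)) (fun s => PowerSeries.C (c s)) τ)).1 j
  rw [h1]
  have h2 : (fun s => PowerSeries.constantCoeff (fam (e + 1) (fun i => PowerSeries.C (a i))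
      (fun s => PowerSeries.C (c s)) τ s)) = fam (e + 1) a c 0 := by
    funext s
    rw [map_fam _ _ (Nat.succ_pos e), hτ]
    simp only [PowerSeries.constantCoeff_C]
  rw [h2]
  exact isUnit_LM0 hLM0 e he hd a ha c j

section

variable {p e : ℕ} [hp : Fact p.Prime] {K R : Type} [Field K] [CommRing R] [IsDomain R]
  (S : Pre p (e + 1) K R)

/-- the relation modulo `λ ^ N` and `X ^ M` -/
theorem fam_relation (hRdM : S_RdM) (hCore : S_Core) (hKGr : S_KGr) (hKExp : S_KExp) (hKID : S_KID)
    (hRd : S_Rd) (hLM0 : S_LM0)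
    (he : 0 < e) (hp1 : p ≡ 1 [MOD (e + 1)]) (hp4 : 4 ≤ p) (a b : ι → R) (c : (ι →₀ ℕ) → R)
    (dinv : R) (hdinv : dinv * ((e + 1 : ℕ) : R) = 1) (hab : ∀ i, a i * b i = 1)
    (ha : ∀ i, a i ^ p = a i) (hc : ∀ s, c s ^ p = c s)
    (D' : RdS e (form (e + 1) (fam (e + 1) (fun i => PowerSeries.C (a i))
      (fun s => PowerSeries.C (c s)) ((PowerSeries.X : PowerSeries R) ^ p))))
    (M N : ℕ) (hM : 0 < M) (r u : ι → Fin e) :
    ∃ Z Z' : PowerSeries R,
      ∑ x, Yh e M (PowerSeries.C dinv) (fun i => PowerSeries.C (b i))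
          ((PowerSeries.X : PowerSeries R) ^ p)
          (form (e + 1) (mix (e + 1) (fun s => PowerSeries.C (c s)))) r x *
        Bm D' (fun V U => S.ps.ker (Sd ι (e + 1)) (fam (e + 1) (fun i => PowerSeries.C (a i))
          (fun s => PowerSeries.C (c s)) PowerSeries.X) V U) N x u -
      PowerSeries.C (rd0 e dinv b (kop (fun V U => S.ker (Sd ι (e + 1)) (fam (e + 1) a c 0) V U) N
        one1 (monomial (emb r) 1)) r) *
        Yh e M (PowerSeries.C dinv) (fun i => PowerSeries.C (b i)) (PowerSeries.X : PowerSeries R)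
          (form (e + 1) (mix (e + 1) (fun s => PowerSeries.C (c s)))) r u =
      PowerSeries.C (S.lam ^ N) * Z + PowerSeries.X ^ M * Z' := by
  classical
  have hd0 : 0 < e + 1 := Nat.succ_pos e
  set Jd : Ideal (PowerSeries R) :=
    Ideal.span {PowerSeries.C (S.lam ^ N), (PowerSeries.X : PowerSeries R) ^ M} with hJ
  set π : PowerSeries R →+* (PowerSeries R ⧸ Jd) := Ideal.Quotient.mk Jd with hπ
  have hsurj : Function.Surjective π := Ideal.Quotient.mk_surjective
  set aL : ι → (PowerSeries R ⧸ Jd) := fun i => π (PowerSeries.C (a i)) with haL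
  set bL : ι → (PowerSeries R ⧸ Jd) := fun i => π (PowerSeries.C (b i)) with hbL
  set cL : (ι →₀ ℕ) → (PowerSeries R ⧸ Jd) := fun s => π (PowerSeries.C (c s)) with hcL
  set τ : PowerSeries R ⧸ Jd := π PowerSeries.X with hτ
  set dL : PowerSeries R ⧸ Jd := π (PowerSeries.C dinv) with hdL
  have hlam : π S.ps.lam ^ N = 0 := by
    rw [← map_pow, S.ps_lam, ← map_pow, hπ, Ideal.Quotient.eq_zero_iff_mem]
    exact Ideal.subset_span (by simp)
  have hτM : τ ^ M = 0 := by
    rw [hτ, ← map_pow, hπ, Ideal.Quotient.eq_zero_iff_mem]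
    exact Ideal.subset_span (by simp)
  -- the twisted form
  have hfam : ∀ t : PowerSeries R, (fun s => π (fam (e + 1) (fun i => PowerSeries.C (a i))
      (fun s => PowerSeries.C (c s)) t s)) = fam (e + 1) aL cL (π t) := by
    intro t
    funext s
    rw [map_fam _ _ hd0]
  have haC : ∀ i, (PowerSeries.C (a i)) ^ p = PowerSeries.C (a i) := fun i => by
    rw [← map_pow, ha]
  have hcC : ∀ s, (PowerSeries.C (c s)) ^ p = PowerSeries.C (c s) := fun s => by
    rw [← map_pow, hc]
  have hfamp : ∀ t : PowerSeries R, (fun s => π (fam (e + 1) (fun i => PowerSeries.C (a i))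
      (fun s => PowerSeries.C (c s)) t s ^ p)) = fam (e + 1) aL cL (π t ^ p) := by
    intro t
    funext s
    rw [fam_pow p _ hd0 _ _ _ haC hcC, map_fam _ _ hd0, map_pow]
  obtain ⟨DL, hDL⟩ := RdM' hRdM π hsurj e _ D' (form (e + 1) (fam (e + 1) aL cL (τ ^ p))) (by
    rw [map_form]
    congr 1
    rw [hfam, map_pow])
  have hk1 := hCore ι p (e + 1) (PowerSeries K) (PowerSeries R) _ S.ps π N
    (fam (e + 1) (fun i => PowerSeries.C (a i)) (fun s => PowerSeries.C (c s)) PowerSeries.X)
    hp4 hd0 hlam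
  rw [hfam, hfamp] at hk1
  have hfam0 : (fam (e + 1) (fun i => PowerSeries.C (a i)) (fun s => PowerSeries.C (c s)) 0) =
      fun s => PowerSeries.C (fam (e + 1) a c 0 s) := by
    funext s
    rw [map_fam _ _ hd0, map_zero]
  have hker0 : ∀ V U, S.ps.ker (Sd ι (e + 1)) (fam (e + 1) (fun i => PowerSeries.C (a i))
      (fun s => PowerSeries.C (c s)) 0) V U =
      PowerSeries.C (S.ker (Sd ι (e + 1)) (fam (e + 1) a c 0) V U) := by
    intro V U
    rw [hfam0]
    exact S.ps_ker (by omega) _ _ (zero_notMem_Sd _ hd0) (degree_le_Sd _) V U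
  have hk0 := hCore ι p (e + 1) (PowerSeries K) (PowerSeries R) _ S.ps π N
    (fam (e + 1) (fun i => PowerSeries.C (a i)) (fun s => PowerSeries.C (c s)) 0)
    hp4 hd0 hlam
  rw [hfam, hfamp, map_zero, zero_pow hp.out.ne_zero] at hk0
  simp only [hker0] at hk0
  -- the exponential identity
  have hmapE : ∀ t : PowerSeries R, map π (Eh M t (form (e + 1) (mix (e + 1)
      (fun s => PowerSeries.C (c s))))) = Eh M (π t) (form (e + 1) (mix (e + 1) cL)) := by
    intro t
    rw [map_Eh, map_form]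
    congr 2
    funext s
    rw [map_mix]
  have hexp : ∀ V U, ∑ x ∈ Finset.HasAntidiagonal.antidiagonal V,
        coeff x.1 (Eh M (τ ^ p) (form (e + 1) (mix (e + 1) cL))) *
          (fun V U => π (S.ps.ker (Sd ι (e + 1)) (fam (e + 1) (fun i => PowerSeries.C (a i))
            (fun s => PowerSeries.C (c s)) PowerSeries.X) V U)) x.2 U =
      ∑ s ∈ (Eh M τ (form (e + 1) (mix (e + 1) cL))).support,
        (fun V U => π (PowerSeries.C (S.ker (Sd ι (e + 1)) (fam (e + 1) a c 0) V U))) V (U + s) *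
          coeff s (Eh M τ (form (e + 1) (mix (e + 1) cL))) := by
    intro V U
    obtain ⟨z, hz⟩ := hKExp ι p (e + 1) K R S a c M V U hp4 hd0 hM ha hc
    have h1 := congrArg π hz
    rw [map_add, map_mul π (PowerSeries.X ^ M), map_pow, ← hτ, hτM, zero_mul, add_zero, map_sum,
      map_sum] at h1
    have hE1 : Eh M (τ ^ p) (form (e + 1) (mix (e + 1) cL)) = map π (Eh M (PowerSeries.X ^ p)
        (form (e + 1) (mix (e + 1) (fun s => PowerSeries.C (c s))))) := by
      rw [hmapE, map_pow]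
    have hE2 : Eh M τ (form (e + 1) (mix (e + 1) cL)) = map π (Eh M PowerSeries.X
        (form (e + 1) (mix (e + 1) (fun s => PowerSeries.C (c s))))) := by
      rw [hmapE]
    rw [hE1, hE2]
    simp only [coeff_map]
    refine (Finset.sum_congr rfl fun x _ => (map_mul π _ _).symm).trans (h1.trans ?_)
    symm
    refine (Finset.sum_subset (support_map_subset _ _) ?_).trans ?_
    · intro s _ hs
      rw [notMem_support_iff, coeff_map] at hs
      rw [hs, mul_zero]
    · refine Finset.sum_congr rfl fun s _ => ?_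
      rw [map_mul, hker0]
  -- the diagonal kernel
  have hdiag : ∀ V U : ι →₀ ℕ, (∃ i, ¬ (V i ≡ U i [MOD (e + 1)])) →
      (fun V U => π (PowerSeries.C (S.ker (Sd ι (e + 1)) (fam (e + 1) a c 0) V U))) V U = 0 := by
    intro V U h
    beta_reduce
    rw [(hKGr ι p (e + 1) K R S hp4 hd0 hp1).2 a c V U h, map_zero, map_zero]
  have hdL1 : dL * ((e + 1 : ℕ) : PowerSeries R ⧸ Jd) = 1 := by
    have := congrArg (fun x => π (PowerSeries.C x)) hdinv
    simpa only [map_mul, map_natCast, map_one] using this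
  have habL : ∀ i, aL i * bL i = 1 := by
    intro i
    rw [haL, hbL, ← map_mul, ← map_mul, hab, map_one, map_one]
  have hunit : ∀ j, IsUnit (LM (form (e + 1) (fam (e + 1) aL cL 0)) e he j).det := by
    intro j
    refine isUnit_LM0 hLM0 e he (IsUnit.of_mul_eq_one dL (by rw [mul_comm]; exact hdL1)) aL
      (fun i => IsUnit.of_mul_eq_one _ (habL i)) cL j
  obtain ⟨D0, -, -⟩ := hRd ι _ e he (form (e + 1) (fam (e + 1) aL cL 0)) (by
    unfold form
    refine IsHomogeneous.sum _ _ _ fun s hs => ?_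
    exact isHomogeneous_monomial _ ((mem_Sd _ _).1 hs)) hunit
  have hmain := hKID ι (PowerSeries R ⧸ Jd) p e N M τ dL aL bL cL _ _ hp.out.pos he hM hτM hdL1
    habL hk1 hk0 hexp hdiag ⟨D0, trivial⟩ DL
  have hentry := congrFun (congrFun hmain r) u
  rw [Matrix.mul_apply, Matrix.diagonal_mul] at hentry
  have hmem : π (∑ x, Yh e M (PowerSeries.C dinv) (fun i => PowerSeries.C (b i))
          ((PowerSeries.X : PowerSeries R) ^ p)
          (form (e + 1) (mix (e + 1) (fun s => PowerSeries.C (c s)))) r x *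
        Bm D' (fun V U => S.ps.ker (Sd ι (e + 1)) (fam (e + 1) (fun i => PowerSeries.C (a i))
          (fun s => PowerSeries.C (c s)) PowerSeries.X) V U) N x u -
      PowerSeries.C (rd0 e dinv b (kop (fun V U => S.ker (Sd ι (e + 1)) (fam (e + 1) a c 0) V U) N
        one1 (monomial (emb r) 1)) r) *
        Yh e M (PowerSeries.C dinv) (fun i => PowerSeries.C (b i)) (PowerSeries.X : PowerSeries R)
          (form (e + 1) (mix (e + 1) (fun s => PowerSeries.C (c s)))) r u) = 0 := by
    have hg : map π (form (e + 1) (mix (e + 1) (fun s => PowerSeries.C (c s)))) =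
        form (e + 1) (mix (e + 1) cL) := by
      rw [map_form]
      congr 1
      funext s
      rw [map_mix]
    have hY : ∀ (t : PowerSeries R) (r u : ι → Fin e), π (Yh e M (PowerSeries.C dinv)
        (fun i => PowerSeries.C (b i)) t
        (form (e + 1) (mix (e + 1) (fun s => PowerSeries.C (c s)))) r u) =
        Yh e M dL bL (π t) (form (e + 1) (mix (e + 1) cL)) r u := by
      intro t r u
      rw [map_Yh, hg]
    have hB : ∀ x, π (Bm D' (fun V U => S.ps.ker (Sd ι (e + 1)) (fam (e + 1)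
          (fun i => PowerSeries.C (a i)) (fun s => PowerSeries.C (c s)) PowerSeries.X) V U) N x u) =
        Bm DL (fun V U => π (S.ps.ker (Sd ι (e + 1)) (fam (e + 1)
          (fun i => PowerSeries.C (a i)) (fun s => PowerSeries.C (c s)) PowerSeries.X) V U)) N x u := by
      intro x
      rw [Bm, Bm, ← hDL, map_kop]
    have hβ : π (PowerSeries.C (rd0 e dinv b (kop (fun V U => S.ker (Sd ι (e + 1))
        (fam (e + 1) a c 0) V U) N one1 (monomial (emb r) 1)) r)) =
        rd0 e dL bL (kop (fun V U => π (PowerSeries.C (S.ker (Sd ι (e + 1))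
          (fam (e + 1) a c 0) V U))) N one1 (monomial (emb r) 1)) r := by
      have h1 := map_rd0 (π.comp (PowerSeries.C (R := R))) e dinv b (kop (fun V U => S.ker (Sd ι (e + 1))
        (fam (e + 1) a c 0) V U) N one1 (monomial (emb r) 1)) r
      rw [map_kop] at h1
      exact h1
    rw [map_sub, map_sum, map_mul, hβ, hY, sub_eq_zero, ← hentry]
    refine Finset.sum_congr rfl fun x _ => ?_
    rw [map_mul, hY, hB, map_pow]
  rw [hπ, Ideal.Quotient.eq_zero_iff_mem, hJ, Ideal.mem_span_pair] at hmem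
  obtain ⟨Z, Z', hZ⟩ := hmem
  exact ⟨Z, Z', by rw [← hZ]; ring⟩

end

end Pool.Agent.H887.BK
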