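import Pool.Agent.H887.BK.E2

/-!
# The reduced Frobenius determinant and the fundamental matrix
-/

set_option autoImplicit false
set_option linter.unusedSectionVars false
set_option linter.unusedVariables false

namespace Pool.Agent.H887.BK

open MvPolynomial Pool.Agent.H425

variable {ι : Type} [Fintype ι] [DecidableEq ι]

theorem derivative_expand {K : Type} [Field K] (p : ℕ) [CharP K p] (hp : p ≠ 0)
    (f : PowerSeries K) : PowerSeries.derivative K (PowerSeries.expand p hp f) = 0 := by
  ext n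
  rw [PowerSeries.coeff_derivative, map_zero, PowerSeries.coeff_expand]
  split_ifs with h
  · have : ((n : K) + 1) = 0 := by
      have := (CharP.cast_eq_zero_iff K p (n + 1)).2 h
      exact_mod_cast this
    rw [this, mul_zero]
  · rw [zero_mul]

theorem derivative_prod_zero {K T : Type} [Field K] [DecidableEq T] (s : Finset T)
    (f : T → PowerSeries K) (h : ∀ i ∈ s, PowerSeries.derivative K (f i) = 0) :
    PowerSeries.derivative K (∏ i ∈ s, f i) = 0 := by
  induction s using Finset.induction_on with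
  | empty => simp
  | insert i s hi ih =>
    rw [Finset.prod_insert hi, Derivation.leibniz, h i (by simp), ih (fun j hj => h j (by simp [hj]))]
    simp

theorem RdS_rd0 (hRdU : S_RdU) (hR0 : S_R0) {L : Type} [CommRing L] (e : ℕ) (he : 0 < e) (dinv : L)
    (a b : ι → L) (c : (ι →₀ ℕ) → L) (hd : dinv * ((e + 1 : ℕ) : L) = 1) (hab : ∀ i, a i * b i = 1)
    (D0 : RdS e (form (e + 1) (fam (e + 1) a c 0))) (P : MvPolynomial ι L) (u : ι → Fin e) :
    rd0 e dinv b P u = D0.rd P u := by
  obtain ⟨h1, h2⟩ := hR0 ι L e dinv a b c he hd hab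
  have h3 := hRdU ι L e _ D0 ((LinearMap.proj u).comp (rd0 e dinv b)) (by
    intro i P
    rw [LinearMap.comp_apply, h1]
    rfl) P
  rw [LinearMap.comp_apply, LinearMap.proj_apply] at h3
  rw [h3, Finset.sum_eq_single u]
  · rw [LinearMap.comp_apply, h2, LinearMap.proj_apply, Pi.single_eq_same, mul_one]
  · intro v _ hv
    rw [LinearMap.comp_apply, h2, LinearMap.proj_apply, Pi.single_eq_of_ne (Ne.symm hv), mul_zero]
  · intro h
    exact absurd (Finset.mem_univ _) h

theorem constantCoeff_Ys {F : Type} [Field F] [Algebra ℚ F] (e : ℕ) (b : ι → F)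
    (c : (ι →₀ ℕ) → F) (r u : ι → Fin e) :
    PowerSeries.constantCoeff (Ys e b c r u) = if r = u then 1 else 0 := by
  rw [← PowerSeries.coeff_zero_eq_constantCoeff_apply, Ys, PowerSeries.coeff_mk, pow_zero, one_mul,
    rd0_monomial]
  have h1 : (∀ i, (emb u) i % (e + 1) = (r i : ℕ)) ↔ r = u := by
    constructor
    · intro h
      funext i
      have := h i
      rw [emb_apply, Nat.mod_eq_of_lt (by omega)] at this
      exact Fin.ext this.symm
    · rintro rfl i
      rw [emb_apply, Nat.mod_eq_of_lt (by omega)]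
  simp only [h1]
  have h2 : r0c (e + 1) (algebraMap ℚ F (1 / ((e + 1 : ℕ) : ℚ))) b (emb u) = 1 := by
    unfold r0c
    refine Finset.prod_eq_one fun i _ => ?_
    have : (emb u) i / (e + 1) = 0 := by
      rw [emb_apply]
      exact Nat.div_eq_of_lt (by omega)
    rw [this, Finset.range_zero, Finset.prod_empty]
  rw [h2]
  simp

section

variable {p e : ℕ} [hp : Fact p.Prime] {K R : Type} [Field K] [CharP K p] [CommRing R] [IsDomain R]
  (S : Pre p (e + 1) K R)

include S in
theorem nat_dvd_lam (he : 0 < e) (n : ℕ) (hn : 0 < n) : ∃ k : ℕ, (n : R) ∣ S.lam ^ k := by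
  obtain ⟨m, q, hq, hq2⟩ := Nat.exists_eq_pow_mul_and_not_dvd hn.ne' p hp.out.ne_one
  have hu : IsUnit ((q : ℕ) : R) := S.isUnit_nat hq
  refine ⟨(e + 1) * (p - 1) * m, ?_⟩
  rw [hq2, pow_mul, S.lam_pow, Nat.cast_mul, Nat.cast_pow, neg_pow]
  obtain ⟨v, hv⟩ := hu
  refine ⟨(-1) ^ m * (↑v⁻¹ : R), ?_⟩
  rw [← hv]
  have : (v : R) * (↑v⁻¹ : R) = 1 := Units.mul_inv v
  linear_combination (-((p : R) ^ m * (-1) ^ m)) * this

end

end Pool.Agent.H887.BK
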