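import Pool.Agent.H887.BK.E3

/-!
# The family theorem
-/

set_option autoImplicit false
set_option linter.unusedSectionVars false
set_option linter.unusedVariables false

namespace Pool.Agent.H887.BK

open MvPolynomial Pool.Agent.H425

variable {ι : Type} [Fintype ι] [DecidableEq ι]

variable {p e : ℕ} [hp : Fact p.Prime] {K R F : Type} [Field K] [CharP K p] [CommRing R] [IsDomain R]
  [Field F] [Algebra R F] [IsFractionRing R F] [Algebra ℚ F]
  (S : Pre p (e + 1) K R)

theorem form_homog {L : Type} [CommRing L] (d : ℕ) (c : (ι →₀ ℕ) → L) :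
    (form d c : MvPolynomial ι L).IsHomogeneous d := by
  unfold form
  refine IsHomogeneous.sum _ _ _ fun s hs => ?_
  exact isHomogeneous_monomial _ ((mem_Sd _ _).1 hs)

theorem Ys_denominators [CharZero R] (e' : ℕ) (dinv : R) (hdinv : dinv * ((e' + 1 : ℕ) : R) = 1)
    (lam : R) (hlam : ∀ n : ℕ, 0 < n → ∃ k : ℕ, (n : R) ∣ lam ^ k)
    (b : ι → R) (c : (ι →₀ ℕ) → R) (n : ℕ) (r u : ι → Fin e') :
    ∃ (k : ℕ) (y : R), algebraMap R F (lam ^ k) * PowerSeries.coeff n
      (Ys e' (fun i => algebraMap R F (b i)) (fun s => algebraMap R F (c s)) r u) =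
      algebraMap R F y := by
  obtain ⟨k, y, hy⟩ := hlam n.factorial (Nat.factorial_pos n)
  have hd : algebraMap ℚ F (1 / ((e' + 1 : ℕ) : ℚ)) = algebraMap R F dinv := by
    have h1 := congrArg (algebraMap R F) hdinv
    rw [map_mul, map_natCast, map_one] at h1
    rw [map_div₀, map_one, map_natCast]
    exact (eq_one_div_of_mul_eq_one_left h1).symm
  have hmix : (fun s => algebraMap R F (mix (e' + 1) c s)) =
      mix (e' + 1) (fun s => algebraMap R F (c s)) := by
    funext s
    rw [map_mix]
  have e1 : algebraMap R F (rd0 e' dinv b (form (e' + 1) (mix (e' + 1) c) ^ n *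
      monomial (emb u) 1) r) = rd0 e' (algebraMap R F dinv) (fun i => algebraMap R F (b i))
      (form (e' + 1) (mix (e' + 1) (fun s => algebraMap R F (c s))) ^ n * monomial (emb u) 1) r := by
    rw [map_rd0, map_mul, map_pow, map_form, map_monomial, map_one, hmix]
  refine ⟨k, y * rd0 e' dinv b (form (e' + 1) (mix (e' + 1) c) ^ n * monomial (emb u) 1) r, ?_⟩
  rw [Ys, PowerSeries.coeff_mk, hy, map_mul (algebraMap R F) (n.factorial : R) y,
    map_mul (algebraMap R F) y, e1, hd, map_natCast]
  have hfac : algebraMap ℚ F (1 / (n.factorial : ℚ)) * (n.factorial : F) = 1 := by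
    rw [← map_natCast (algebraMap ℚ F), ← map_mul, one_div, inv_mul_cancel₀, map_one]
    exact Nat.cast_ne_zero.2 (Nat.factorial_ne_zero n)
  linear_combination (algebraMap R F y * rd0 e' (algebraMap R F dinv) (fun i => algebraMap R F (b i))
    (form (e' + 1) (mix (e' + 1) (fun s => algebraMap R F (c s))) ^ n * monomial (emb u) 1) r) * hfac

theorem fam_main (hRd : S_Rd) (hRdU : S_RdU) (hRdM : S_RdM) (hCore : S_Core) (hKGr : S_KGr)
    (hKExp : S_KExp) (hKID : S_KID) (hR0 : S_R0) (hBDiv : S_BDiv) (hMin : S_Min) (hYh : S_Yh)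
    (hNat : S_Nat) (hLM0 : S_LM0) (hT0 : S_T0)
    (hunit : ∀ x : R, S.res x ≠ 0 → IsUnit x)
    (he : 0 < e) (hp1 : p ≡ 1 [MOD (e + 1)]) (hp4 : 2 * (Fintype.card ι * e) + 4 ≤ p)
    (j : ℕ) (hsize : Fintype.card (lev ι e j) < p)
    (a b : ι → R) (c : (ι →₀ ℕ) → R)
    (dinv : R) (hdinv : dinv * ((e + 1 : ℕ) : R) = 1) (hab : ∀ i, a i * b i = 1)
    (ha : ∀ i, a i ^ p = a i) (hc : ∀ s, c s ^ p = c s) :
    ∃ V : PowerSeries R, PowerSeries.map (algebraMap R F) V =
        levdet (Ys e (fun i => algebraMap R F (b i)) (fun s => algebraMap R F (c s))) j ∧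
      ∃ G : PowerSeries K, PowerSeries.derivative K G = 0 ∧ PowerSeries.constantCoeff G ≠ 0 ∧
        ((levdet (bnum p e he (fam (e + 1) (fun i => Polynomial.C (S.res (a i)))
          (fun s => Polynomial.C (S.res (c s))) Polynomial.X)) j : Polynomial K) : PowerSeries K) =
          G * PowerSeries.map S.res V := by
  classical
  have hcz : CharZero R := S.charZero
  have hd0 : 0 < e + 1 := Nat.succ_pos e
  have hp0 : p ≠ 0 := hp.out.ne_zero
  have hpd : ¬ p ∣ (e + 1) := by
    intro h
    have h1 := Nat.le_of_dvd hd0 h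
    rcases Nat.lt_or_ge p (e + 1) with h2 | h2
    · have h3 : p % (e + 1) = 1 % (e + 1) := hp1
      rw [Nat.mod_eq_of_lt h2, Nat.mod_eq_of_lt (by omega)] at h3
      exact hp.out.one_lt.ne' h3
    · have h4 : p = e + 1 := le_antisymm h1 h2
      have h3 : p % (e + 1) = 1 % (e + 1) := hp1
      rw [← h4, Nat.mod_self, Nat.mod_eq_of_lt hp.out.one_lt] at h3
      exact absurd h3 (by norm_num)
  have hdu : IsUnit ((e + 1 : ℕ) : R) := S.isUnit_nat hpd
  have hduK : IsUnit ((e + 1 : ℕ) : K) := by
    rw [isUnit_iff_ne_zero]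
    intro h
    exact hpd ((CharP.cast_eq_zero_iff K p (e + 1)).1 h)
  have hau : ∀ i, IsUnit (a i) := fun i => IsUnit.of_mul_eq_one _ (hab i)
  have hauK : ∀ i, IsUnit (S.res (a i)) := fun i => (hau i).map S.res
  have haC : ∀ i, (PowerSeries.C (a i)) ^ p = PowerSeries.C (a i) := fun i => by
    rw [← map_pow, ha]
  have hcC : ∀ s, (PowerSeries.C (c s)) ^ p = PowerSeries.C (c s) := fun s => by
    rw [← map_pow, hc]
  have haK : ∀ i, (PowerSeries.C (S.res (a i))) ^ p = PowerSeries.C (S.res (a i)) := fun i => by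
    rw [← map_pow, ← map_pow, ha]
  have hcK : ∀ s, (PowerSeries.C (S.res (c s))) ^ p = PowerSeries.C (S.res (c s)) := fun s => by
    rw [← map_pow, ← map_pow, hc]
  have hXp : PowerSeries.constantCoeff ((PowerSeries.X : PowerSeries R) ^ p) = 0 := by
    rw [map_pow, PowerSeries.constantCoeff_X, zero_pow hp0]
  have hXpK : PowerSeries.constantCoeff ((PowerSeries.X : PowerSeries K) ^ p) = 0 := by
    rw [map_pow, PowerSeries.constantCoeff_X, zero_pow hp0]
  set cT : (ι →₀ ℕ) → PowerSeries R :=
    fam (e + 1) (fun i => PowerSeries.C (a i)) (fun s => PowerSeries.C (c s)) PowerSeries.X with hcT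
  set cT' : (ι →₀ ℕ) → PowerSeries R :=
    fam (e + 1) (fun i => PowerSeries.C (a i)) (fun s => PowerSeries.C (c s))
      (PowerSeries.X ^ p) with hcT'
  set cK : (ι →₀ ℕ) → PowerSeries K :=
    fam (e + 1) (fun i => PowerSeries.C (S.res (a i))) (fun s => PowerSeries.C (S.res (c s)))
      PowerSeries.X with hcKdef
  set cK' : (ι →₀ ℕ) → PowerSeries K :=
    fam (e + 1) (fun i => PowerSeries.C (S.res (a i))) (fun s => PowerSeries.C (S.res (c s)))
      (PowerSeries.X ^ p) with hcK'def
  have hpow : ∀ s, cT s ^ p = cT' s := fun s => fam_pow p _ hd0 _ _ _ haC hcC s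
  have hpowK : ∀ s, cK s ^ p = cK' s := fun s => fam_pow p _ hd0 _ _ _ haK hcK s
  have hresT : (fun s => S.ps.res (cT s)) = cK := by
    funext s
    rw [hcT, map_fam _ _ hd0]
    change fam (e + 1) (fun i => PowerSeries.map S.res (PowerSeries.C (a i)))
      (fun s => PowerSeries.map S.res (PowerSeries.C (c s))) (PowerSeries.map S.res PowerSeries.X) s = _
    simp only [PowerSeries.map_C, PowerSeries.map_X]
    rfl
  -- the coordinates for the twisted form
  have huT : ∀ j, IsUnit (LM (form (e + 1) cT') e he j).det :=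
    isUnit_LM_ps p hNat hLM0 e he hdu a hau c _ hXp
  obtain ⟨D', -, -⟩ := hRd ι (PowerSeries R) e he (form (e + 1) cT') (form_homog _ _) huT
  -- the discriminants
  have hDl : ∀ i, Dl p e he cK i = (LM (form (e + 1) cK') e he i).det := by
    intro i
    rw [Dl]
    congr 3
    funext s
    exact hpowK s
  have hDlu : ∀ i, IsUnit (Dl p e he cK i) := by
    intro i
    rw [hDl]
    exact isUnit_LM_ps p hNat hLM0 e he hduK (fun i => S.res (a i)) hauK (fun s => S.res (c s)) _
      hXpK i
  have hDl0 : ∀ i, PowerSeries.derivative K (Dl p e he cK i) = 0 := by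
    intro i
    rw [hDl]
    have h1 := (hNat ι (PowerSeries K) (PowerSeries K)
      ((PowerSeries.expand p hp0 : PowerSeries K →ₐ[K] PowerSeries K) : PowerSeries K →+* PowerSeries K)
      p e he cK).1 i
    have h2 : (fun s => ((PowerSeries.expand p hp0 : PowerSeries K →ₐ[K] PowerSeries K) :
        PowerSeries K →+* PowerSeries K) (cK s)) = cK' := by
      funext s
      rw [hcKdef, map_fam _ _ hd0]
      simp only [RingHom.coe_coe, PowerSeries.expand_C, PowerSeries.expand_X]
      rfl
    rw [h2] at h1
    rw [← h1]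
    exact derivative_expand p hp0 _
  set bb : Matrix (ι → Fin e) (ι → Fin e) (PowerSeries K) :=
    fun u' u => Ring.inverse (Dl p e he cK (bdeg u')) * bnum p e he cK u' u with hbb
  have hbbD : ∀ u' u, Dl p e he cK (bdeg u') * bb u' u = bnum p e he cK u' u := by
    intro u' u
    rw [hbb]
    change Dl p e he cK (bdeg u') * (Ring.inverse (Dl p e he cK (bdeg u')) * bnum p e he cK u' u) = _
    rw [← mul_assoc, Ring.mul_inverse_cancel _ (hDlu _), one_mul]
  -- the Frobenius matrix
  have hB : ∀ N, Fintype.card ι * e ≤ N → ∃ b' : Matrix (ι → Fin e) (ι → Fin e) (PowerSeries R),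
      ∀ u' u, Bm D' (fun V U => S.ps.ker (Sd ι (e + 1)) cT V U) N u' u =
        PowerSeries.C (S.lam ^ ((p - 1) * wt u')) * b' u' u ∧
        PowerSeries.map S.res (b' u' u) = bb u' u := by
    intro N hN
    obtain ⟨b', hb'⟩ := BDiv' hBDiv p e S.ps (RingHom.id _) S.ps.res cT N he cT'
      (funext fun s => (hpow s).symm) D' (RingHom.comp_id _) hp4 hN huT
    refine ⟨b', fun u' u => ⟨?_, ?_⟩⟩
    · have h1 := (hb' u' u).1
      simp only [RingHom.id_apply] at h1
      rw [h1, S.ps_lam, ← map_pow]
    · have h1 := (hb' u' u).2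
      rw [hresT, ← hbbD] at h1
      exact (hDlu _).mul_left_cancel h1
  -- the diagonal part
  have hu0 : ∀ j, IsUnit (LM (form (e + 1) (fam (e + 1) a c 0)) e he j).det :=
    isUnit_LM0 hLM0 e he hdu a hau c
  obtain ⟨D0, -, -⟩ := hRd ι R e he (form (e + 1) (fam (e + 1) a c 0)) (form_homog _ _) hu0
  have hres0 : (fun s => S.res (fam (e + 1) a c 0 s)) =
      fam (e + 1) (fun i => S.res (a i)) (fun s => S.res (c s)) 0 := by
    funext s
    rw [map_fam _ _ hd0, map_zero]
  have hfam0 : fam (e + 1) a c 0 = fun s => (RingHom.id R) (fam (e + 1) a c 0 s ^ p) := by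
    funext s
    rw [RingHom.id_apply, fam_pow p _ hd0 _ _ _ ha hc, zero_pow hp0]
  set cK0 : (ι →₀ ℕ) → K := fam (e + 1) (fun i => S.res (a i)) (fun s => S.res (c s)) 0 with hcK0
  have hDl00 : ∀ i, Dl p e he cK0 i ≠ 0 := by
    intro i
    rw [Dl]
    have h1 : (fun s => cK0 s ^ p) = cK0 := by
      funext s
      rw [hcK0, fam_pow p _ hd0 _ _ _ (fun i => by rw [← map_pow, ha])
        (fun s => by rw [← map_pow, hc]), zero_pow hp0]
    rw [h1]
    exact (isUnit_LM0 hLM0 e he hduK (fun i => S.res (a i)) hauK (fun s => S.res (c s)) i).ne_zero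
  set βb : (ι → Fin e) → K := fun u => (Dl p e he cK0 (bdeg u))⁻¹ * bnum p e he cK0 u u with hβb
  have hβb0 : ∀ u, βb u ≠ 0 := by
    intro u
    refine mul_ne_zero (inv_ne_zero (hDl00 _)) ?_
    exact (hT0 ι K p e he (fun i => S.res (a i)) (fun s => S.res (c s)) hp1
      (fun i => (hauK i).ne_zero) u u).2 rfl
  have hβ : ∀ N, Fintype.card ι * e ≤ N → ∃ β : (ι → Fin e) → R, (∀ u, S.res (β u) = βb u) ∧
      ∀ u, rd0 e dinv b (kop (fun V U => S.ker (Sd ι (e + 1)) (fam (e + 1) a c 0) V U) N one1
        (monomial (emb u) 1)) u = S.lam ^ ((p - 1) * wt u) * β u := by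
    intro N hN
    obtain ⟨b', hb'⟩ := BDiv' hBDiv p e S (RingHom.id _) S.res (fam (e + 1) a c 0) N he
      (fam (e + 1) a c 0) hfam0 D0 (RingHom.comp_id _) hp4 hN hu0
    refine ⟨fun u => b' u u, fun u => ?_, fun u => ?_⟩
    · have h1 := (hb' u u).2
      rw [hres0] at h1
      change S.res (b' u u) = (Dl p e he cK0 (bdeg u))⁻¹ * bnum p e he cK0 u u
      rw [← h1, inv_mul_cancel_left₀ (hDl00 _)]
    · have h1 := (hb' u u).1
      simp only [RingHom.id_apply] at h1
      rw [RdS_rd0 hRdU hR0 e he dinv a b c hdinv hab D0]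
      exact h1
  -- the minors
  have hcard : IsUnit (((Fintype.card (lev ι e j)).factorial : ℕ) : R) := by
    apply S.isUnit_nat
    rw [hp.out.dvd_factorial]
    omega
  obtain ⟨V, hV1, hV2⟩ := hMin (ι → Fin e) wt j (p - 1) p R K F S.lam S.res
    (Ys e (fun i => algebraMap R F (b i)) (fun s => algebraMap R F (c s))) bb βb (lev ι e j)
    Subtype.val Subtype.val_injective (by
      intro u
      constructor
      · rintro ⟨x, rfl⟩
        exact x.2
      · intro h
        exact ⟨⟨u, h⟩, rfl⟩) (by have := hp.out.one_lt; omega) hp0 hp.out.two_le S.lam_ne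
    S.dvd_of_res S.res_lam (nat_dvd_lam S he)
    (fun n u v => Ys_denominators e dinv hdinv S.lam (nat_dvd_lam S he) b c n u v) hcard
    (fun u v => constantCoeff_Ys e _ _ u v) (by
      intro M N
      set N' := max N (Fintype.card ι * e) with hN'
      obtain ⟨b', hb'⟩ := hB N' (le_max_right _ _)
      obtain ⟨β, hβ1, hβ2⟩ := hβ N' (le_max_right _ _)
      have hβu : ∀ u, IsUnit (β u) := fun u => hunit _ (by rw [hβ1]; exact hβb0 u)
      rcases Nat.eq_zero_or_pos M with hM | hM
      · refine ⟨b', 0, fun u v => (M.factorial : PowerSeries F) *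
          (∑ x, PowerSeries.expand p hp0 (Ys e (fun i => algebraMap R F (b i))
            (fun s => algebraMap R F (c s)) u x) *
          PowerSeries.map (algebraMap R F) (PowerSeries.C (S.lam ^ ((p - 1) * wt x)) * b' x v) -
          PowerSeries.map (algebraMap R F) (PowerSeries.C (S.lam ^ ((p - 1) * wt u) * β u)) *
            Ys e (fun i => algebraMap R F (b i)) (fun s => algebraMap R F (c s)) u v), β,
          fun u v => (hb' u v).2, hβu, hβ1, fun u v => ?_⟩
        rw [hM, pow_zero, one_mul, Matrix.zero_apply, mul_zero, map_zero, zero_add]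
      · have hrel := fun r u => fam_relation S hRdM hCore hKGr hKExp hKID hRd hLM0 he hp1 (by omega)
          a b c dinv hdinv hab ha hc D' M N' hM r u
        choose Z Z' hZ using hrel
        have hY := fun r u => hYh ι R F (algebraMap R F) e M p hp0 dinv b c r u hM hdinv
        choose z1 hz1 using fun r u => (hY r u).1
        choose z2 hz2 using fun r u => (hY r u).2
        refine ⟨b', fun u v => PowerSeries.C (S.lam ^ (N' - N)) * Z u v,
          fun u v => PowerSeries.map (algebraMap R F) (Z' u v) -
            ∑ x, z2 u x * PowerSeries.map (algebraMap R F)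
              (PowerSeries.C (S.lam ^ ((p - 1) * wt x)) * b' x v) +
            PowerSeries.map (algebraMap R F) (PowerSeries.C (S.lam ^ ((p - 1) * wt u) * β u)) *
              z1 u v, β,
          fun u v => (hb' u v).2, hβu, hβ1, fun u v => ?_⟩
        have h1 := congrArg (PowerSeries.map (algebraMap R F)) (hZ u v)
        rw [map_sub, map_sum, map_add, map_mul, hz1] at h1
        have h2 : ∀ x, PowerSeries.map (algebraMap R F)
            (Yh e M (PowerSeries.C dinv) (fun i => PowerSeries.C (b i))
              ((PowerSeries.X : PowerSeries R) ^ p)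
              (form (e + 1) (mix (e + 1) (fun s => PowerSeries.C (c s)))) u x *
            Bm D' (fun V U => S.ps.ker (Sd ι (e + 1)) cT V U) N' x v) =
            (M.factorial : PowerSeries F) *
              (PowerSeries.expand p hp0 (Ys e (fun i => algebraMap R F (b i))
                (fun s => algebraMap R F (c s)) u x) * PowerSeries.map (algebraMap R F)
              (PowerSeries.C (S.lam ^ ((p - 1) * wt x)) * b' x v)) +
            PowerSeries.X ^ M * (z2 u x * PowerSeries.map (algebraMap R F)
              (PowerSeries.C (S.lam ^ ((p - 1) * wt x)) * b' x v)) := by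
          intro x
          rw [map_mul, hz2, (hb' x v).1]
          ring
        rw [Finset.sum_congr rfl fun x _ => h2 x, Finset.sum_add_distrib, ← Finset.mul_sum,
          ← Finset.mul_sum, hβ2] at h1
        have h3 : PowerSeries.C (S.lam ^ N') * Z u v =
            PowerSeries.C (S.lam ^ N) * (PowerSeries.C (S.lam ^ (N' - N)) * Z u v) := by
          rw [← mul_assoc, ← map_mul, ← pow_add, Nat.add_sub_cancel' (le_max_left _ _)]
        rw [h3, map_mul (PowerSeries.map (algebraMap R F)) (PowerSeries.X ^ M),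
          map_pow (PowerSeries.map (algebraMap R F)) PowerSeries.X, PowerSeries.map_X] at h1
        linear_combination h1)
  refine ⟨V, hV1, ?_⟩
  -- the constant term
  have hV0 : PowerSeries.constantCoeff (PowerSeries.map S.res V) = 1 := by
    have h1 : PowerSeries.constantCoeff V = 1 := by
      apply IsFractionRing.injective R F
      rw [map_one]
      have h2 : algebraMap R F (PowerSeries.constantCoeff V) =
          PowerSeries.constantCoeff (PowerSeries.map (algebraMap R F) V) := by
        rw [← PowerSeries.coeff_zero_eq_constantCoeff_apply,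
          ← PowerSeries.coeff_zero_eq_constantCoeff_apply, PowerSeries.coeff_map]
      rw [h2, hV1, RingHom.map_det]
      have h3 : (PowerSeries.constantCoeff (R := F)).mapMatrix
          ((Ys e (fun i => algebraMap R F (b i)) (fun s => algebraMap R F (c s))).submatrix
            (Subtype.val : lev ι e j → ι → Fin e) (Subtype.val : lev ι e j → ι → Fin e)) = 1 := by
        ext u v
        rw [RingHom.mapMatrix_apply, Matrix.map_apply, Matrix.submatrix_apply, constantCoeff_Ys,
          Matrix.one_apply]
        by_cases h : u = v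
        · rw [if_pos (by rw [h]), if_pos h]
        · rw [if_neg (fun h' => h (Subtype.ext h')), if_neg h]
      exact (congrArg Matrix.det h3).trans Matrix.det_one
    rw [← PowerSeries.coeff_zero_eq_constantCoeff_apply, PowerSeries.coeff_map,
      PowerSeries.coeff_zero_eq_constantCoeff_apply, h1, map_one]
  set W := PowerSeries.expand p hp0 (PowerSeries.map S.res V) with hW
  have hW0 : PowerSeries.constantCoeff W = 1 := by
    rw [hW, ← PowerSeries.coeff_zero_eq_constantCoeff_apply, PowerSeries.coeff_expand,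
      if_pos (dvd_zero _), Nat.zero_div, PowerSeries.coeff_zero_eq_constantCoeff_apply, hV0]
  have hWd : PowerSeries.derivative K W = 0 := derivative_expand p hp0 _
  have hWW : W * W⁻¹ = 1 := PowerSeries.mul_inv_cancel _ (by rw [hW0]; exact one_ne_zero)
  refine ⟨(∏ x : lev ι e j, Dl p e he cK (bdeg x.1)) * PowerSeries.C (∏ i : lev ι e j, βb i.1) * W⁻¹,
    ?_, ?_, ?_⟩
  · have h1 : PowerSeries.derivative K (∏ x : lev ι e j, Dl p e he cK (bdeg x.1)) = 0 :=
      derivative_prod_zero _ _ fun x _ => hDl0 _
    have h2 : PowerSeries.derivative K (W⁻¹) = 0 := by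
      have h3 := congrArg (PowerSeries.derivative K) hWW
      rw [Derivation.leibniz, hWd, smul_zero, add_zero, Derivation.map_one_eq_zero, smul_eq_mul] at h3
      have h4 := congrArg (fun t => W⁻¹ * t) h3
      beta_reduce at h4
      rw [mul_zero, ← mul_assoc, mul_comm W⁻¹ W, hWW, one_mul] at h4
      exact h4
    rw [Derivation.leibniz, Derivation.leibniz, h1, h2, PowerSeries.derivative_C]
    simp
  · rw [map_mul, map_mul, PowerSeries.constantCoeff_C, map_prod]
    refine mul_ne_zero (mul_ne_zero ?_ ?_) ?_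
    · rw [Finset.prod_ne_zero_iff]
      intro x _
      exact ((PowerSeries.isUnit_iff_constantCoeff).1 (hDlu _)).ne_zero
    · rw [Finset.prod_ne_zero_iff]
      intro x _
      exact hβb0 _
    · have h5 := congrArg (PowerSeries.constantCoeff (R := K)) hWW
      rw [map_mul, hW0, one_mul, map_one] at h5
      rw [h5]
      exact one_ne_zero
  · -- the determinant of the numerators
    have h1 : ((levdet (bnum p e he (fam (e + 1) (fun i => Polynomial.C (S.res (a i)))
          (fun s => Polynomial.C (S.res (c s))) Polynomial.X)) j : Polynomial K) : PowerSeries K) =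
        levdet (bnum p e he cK) j := by
      have h2 := (hNat ι (Polynomial K) (PowerSeries K)
        (Polynomial.coeToPowerSeries.ringHom (R := K)) p e he
        (fam (e + 1) (fun i => Polynomial.C (S.res (a i)))
          (fun s => Polynomial.C (S.res (c s))) Polynomial.X)).2.2.2 j
      rw [Polynomial.coeToPowerSeries.ringHom_apply] at h2
      rw [h2]
      congr 2
      funext s
      rw [map_fam _ _ hd0]
      simp only [Polynomial.coeToPowerSeries.ringHom_apply, Polynomial.coe_C, Polynomial.coe_X]
      rfl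
    have h2 : levdet (bnum p e he cK) j = (∏ x : lev ι e j, Dl p e he cK (bdeg x.1)) *
        (bb.submatrix (Subtype.val : lev ι e j → ι → Fin e) Subtype.val).det := by
      refine Eq.trans ?_ (Matrix.det_mul_column (fun x : lev ι e j => Dl p e he cK (bdeg x.1))
        (bb.submatrix (Subtype.val : lev ι e j → ι → Fin e) Subtype.val))
      unfold levdet
      congr 1
      ext1 u v
      exact (hbbD u.1 v.1).symm
    rw [h1, h2]
    have h3 : (∏ x : lev ι e j, Dl p e he cK (bdeg x.1)) * PowerSeries.C (∏ i : lev ι e j, βb i.1) *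
        W⁻¹ * PowerSeries.map S.res V = (∏ x : lev ι e j, Dl p e he cK (bdeg x.1)) * W⁻¹ *
          (PowerSeries.C (∏ i : lev ι e j, βb i.1) * PowerSeries.map S.res V) := by ring
    rw [h3, hV2]
    have h4 : (∏ x : lev ι e j, Dl p e he cK (bdeg x.1)) * W⁻¹ *
        (W * (bb.submatrix (Subtype.val : lev ι e j → ι → Fin e) Subtype.val).det) =
        (∏ x : lev ι e j, Dl p e he cK (bdeg x.1)) *
          (bb.submatrix (Subtype.val : lev ι e j → ι → Fin e) Subtype.val).det * (W * W⁻¹) := by ring
    exact (h4.trans (by rw [hWW, mul_one])).symm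

end Pool.Agent.H887.BK
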