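import Pool.Agent.H887.BK.E4
import Pool.Graph.R_pool_sql_team_seeded_3997aac3.Q267.ST.Stm

/-!
# The ring of integral elements and its specialisations
-/

set_option autoImplicit false
set_option linter.unusedSectionVars false
set_option linter.unusedVariables false

namespace Pool.Agent.H887.BK

open MvPolynomial Pool.Agent.H425

/-- a set of monomials of degree `e + 1` which contains the pure powers -/
structure Sup (ι : Type) [Fintype ι] [DecidableEq ι] (e : ℕ) where
  S : Finset (ι →₀ ℕ)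
  pure : ∀ i, Finsupp.single i (e + 1) ∈ S
  deg : ∀ s ∈ S, s.degree = e + 1

variable {ι : Type} [Fintype ι] [DecidableEq ι]

/-- the parameters: one for each monomial of the set -/
abbrev Par {e : ℕ} (Z : Sup ι e) : Type := ↥Z.S

/-- extension by zero -/
noncomputable def qx {e : ℕ} {Z : Sup ι e} {L : Type} [CommRing L] (q : Par Z → L)
    (s : ι →₀ ℕ) : L :=
  open Classical in if h : s ∈ Z.S then q ⟨s, h⟩ else 0

/-- the pure exponents -/
noncomputable def pure' {e : ℕ} (Z : Sup ι e) (i : ι) : Par Z :=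
  ⟨Finsupp.single i (e + 1), Z.pure i⟩

theorem qx_pure {e : ℕ} {Z : Sup ι e} {L : Type} [CommRing L] (q : Par Z → L) (i : ι) :
    qx q (Finsupp.single i (e + 1)) = q (pure' Z i) := by
  unfold qx
  rw [dif_pos]
  rfl

theorem map_qx {e : ℕ} {Z : Sup ι e} {L L' : Type} [CommRing L] [CommRing L'] (φ : L →+* L')
    (q : Par Z → L) (s : ι →₀ ℕ) : φ (qx q s) = qx (fun s => φ (q s)) s := by
  unfold qx
  split_ifs
  · rfl
  · exact map_zero φ

/-- the data at a prime -/
structure BR (p e : ℕ) [Fact p.Prime] : Type 1 where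
  R : Type
  cr : CommRing R
  dom : IsDomain R
  cz : CharZero R
  S : Setup p (e + 1) (ZMod p) R
  hunit : ∀ x : R, S.res x ≠ 0 → IsUnit x

attribute [instance] BR.cr BR.dom BR.cz

theorem exists_BR (hUnit : S_Unit) (p e : ℕ) [hp : Fact p.Prime] : Nonempty (BR p e) := by
  have hpos : 0 < (e + 1) * (p - 1) :=
    Nat.mul_pos (Nat.succ_pos e) (Nat.sub_pos_of_lt hp.out.one_lt)
  have hdom : IsDomain (Constr.RR p ((e + 1) * (p - 1)) (ZMod p)) := Constr.RR_domain p _ _ hpos
  exact ⟨{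
    R := Constr.RR p ((e + 1) * (p - 1)) (ZMod p)
    cr := inferInstance
    dom := hdom
    cz := (Constr.setup p (ZMod p) (e + 1) (Nat.succ_pos e) hdom).charZero
    S := Constr.setup p (ZMod p) (e + 1) (Nat.succ_pos e) hdom
    hunit := fun x hx => hUnit p ((e + 1) * (p - 1)) (ZMod p) hpos x hx }⟩

section ring

variable {p e : ℕ} [hp : Fact p.Prime] {R : Type} [CommRing R] [IsDomain R] [CharZero R]
  (S : Setup p (e + 1) (ZMod p) R) {Z : Sup ι e}

theorem tau_pow (x : ZMod p) : (S.tau x) ^ p = S.tau x := by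
  rw [← map_pow, ZMod.pow_card]

/-- the evaluation at the Teichmüller lifts -/
noncomputable def evQ (q : Par Z → ZMod p) : MvPolynomial (Par Z) ℚ →+* FractionRing R :=
  MvPolynomial.eval₂Hom (algebraMap ℚ (FractionRing R))
    (fun s => algebraMap R (FractionRing R) (S.tau (q s)))

theorem evQ_X (q : Par Z → ZMod p) (s : Par Z) :
    evQ S q (X s) = algebraMap R (FractionRing R) (S.tau (q s)) := by
  rw [evQ, eval₂Hom_X']

theorem evQ_C (q : Par Z → ZMod p) (a : ℚ) :
    evQ S q (C a) = algebraMap ℚ (FractionRing R) a := by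
  rw [evQ, eval₂Hom_C]

theorem evQ_int (q : Par Z → ZMod p) (Q : MvPolynomial (Par Z) ℤ) :
    evQ S q (map (Int.castRingHom ℚ) Q) = algebraMap R (FractionRing R)
      (eval₂ (Int.castRingHom R) (fun s => S.tau (q s)) Q) := by
  rw [evQ, coe_eval₂Hom, eval₂_map, hom_eval₂]
  congr 1
  exact RingHom.ext_int _ _

theorem res_eval (q : Par Z → ZMod p) (Q : MvPolynomial (Par Z) ℤ) :
    S.res (eval₂ (Int.castRingHom R) (fun s => S.tau (q s)) Q) =
      eval₂ (Int.castRingHom (ZMod p)) q Q := by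
  rw [hom_eval₂]
  congr 1
  · exact RingHom.ext_int _ _
  · funext s
    exact S.res_tau (q s)

end ring

/-- an index: a large prime, and a point modulo it -/
structure Ix {e : ℕ} (Z : Sup ι e) (P0 : ℕ) : Type 1 where
  p : ℕ
  hp : Fact p.Prime
  B : BR p e
  hge : P0 ≤ p
  h1 : p ≡ 1 [MOD (e + 1)]
  q : Par Z → ZMod p
  hq : ∀ i, q (pure' Z i) ≠ 0

attribute [instance] Ix.hp

/-- the polynomials with integral specialisations -/
noncomputable def AA {e : ℕ} (Z : Sup ι e) (P0 : ℕ) :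
    Subring (MvPolynomial (Par Z) ℚ) where
  carrier := {a | ∀ x : Ix Z P0, ∃ y : x.B.R,
    algebraMap x.B.R (FractionRing x.B.R) y = evQ x.B.S x.q a}
  mul_mem' := by
    intro a b ha hb x
    obtain ⟨y, hy⟩ := ha x
    obtain ⟨z, hz⟩ := hb x
    exact ⟨y * z, by rw [map_mul, map_mul, hy, hz]⟩
  one_mem' := fun x => ⟨1, by rw [map_one, map_one]⟩
  add_mem' := by
    intro a b ha hb x
    obtain ⟨y, hy⟩ := ha x
    obtain ⟨z, hz⟩ := hb x
    exact ⟨y + z, by rw [map_add, map_add, hy, hz]⟩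
  zero_mem' := fun x => ⟨0, by rw [map_zero, map_zero]⟩
  neg_mem' := by
    intro a ha x
    obtain ⟨y, hy⟩ := ha x
    exact ⟨-y, by rw [map_neg, map_neg, hy]⟩

section spec

variable {e P0 : ℕ} {Z : Sup ι e} (x : Ix Z P0)

/-- the integral value -/
noncomputable def vl (a : AA Z P0) : x.B.R := (a.2 x).choose

theorem vl_spec (a : AA Z P0) :
    algebraMap x.B.R (FractionRing x.B.R) (vl x a) = evQ x.B.S x.q a.1 :=
  (a.2 x).choose_spec

theorem vl_unique (a : AA Z P0) (y : x.B.R)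
    (hy : algebraMap x.B.R (FractionRing x.B.R) y = evQ x.B.S x.q a.1) : vl x a = y := by
  apply IsFractionRing.injective x.B.R (FractionRing x.B.R)
  rw [vl_spec, hy]

/-- the specialisation -/
noncomputable def phi : AA Z P0 →+* ZMod x.p where
  toFun a := x.B.S.res (vl x a)
  map_one' := by
    rw [vl_unique x 1 1 (by rw [map_one]; exact (map_one _).symm), map_one]
  map_mul' a b := by
    rw [vl_unique x (a * b) (vl x a * vl x b) (by
      rw [map_mul, vl_spec, vl_spec]; exact (map_mul _ _ _).symm), map_mul]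
  map_zero' := by
    rw [vl_unique x 0 0 (by rw [map_zero]; exact (map_zero _).symm), map_zero]
  map_add' a b := by
    rw [vl_unique x (a + b) (vl x a + vl x b) (by
      rw [map_add, vl_spec, vl_spec]; exact (map_add _ _ _).symm), map_add]

theorem phi_apply (a : AA Z P0) : phi x a = x.B.S.res (vl x a) := rfl

end spec

theorem int_mem {e P0 : ℕ} {Z : Sup ι e} (Q : MvPolynomial (Par Z) ℤ) :
    map (Int.castRingHom ℚ) Q ∈ AA Z P0 := by
  intro x
  exact ⟨_, (evQ_int x.B.S x.q Q).symm⟩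

theorem phi_int {e P0 : ℕ} {Z : Sup ι e} (x : Ix Z P0) (Q : MvPolynomial (Par Z) ℤ) :
    phi x ⟨_, int_mem Q⟩ = eval₂ (Int.castRingHom (ZMod x.p)) x.q Q := by
  have h1 : vl x (⟨map (Int.castRingHom ℚ) Q, int_mem Q⟩ : AA Z P0) =
      eval₂ (Int.castRingHom x.B.R) (fun s => x.B.S.tau (x.q s)) Q :=
    vl_unique x ⟨map (Int.castRingHom ℚ) Q, int_mem Q⟩ _ (evQ_int x.B.S x.q Q).symm
  exact (congrArg x.B.S.res h1).trans (res_eval x.B.S x.q Q)

theorem exists_int {σ : Type} (P : MvPolynomial σ ℚ) :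
    ∃ (N : ℕ) (Q : MvPolynomial σ ℤ), N ≠ 0 ∧ (N : MvPolynomial σ ℚ) * P = map (Int.castRingHom ℚ) Q := by
  induction P using MvPolynomial.induction_on with
  | C a =>
    refine ⟨a.den, C a.num, a.den_nz, ?_⟩
    rw [map_C, ← map_natCast (C : ℚ →+* MvPolynomial σ ℚ), ← map_mul]
    congr 1
    simp
  | add P Q hP hQ =>
    obtain ⟨N, P', hN, h1⟩ := hP
    obtain ⟨M, Q', hM, h2⟩ := hQ
    refine ⟨N * M, (M : MvPolynomial σ ℤ) * P' + (N : MvPolynomial σ ℤ) * Q', Nat.mul_ne_zero hN hM, ?_⟩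
    rw [map_add, map_mul, map_mul, map_natCast, map_natCast, ← h1, ← h2]
    push_cast
    ring
  | mul_X P s hP =>
    obtain ⟨N, P', hN, h1⟩ := hP
    exact ⟨N, P' * X s, hN, by rw [map_mul, map_X, ← h1, mul_assoc]⟩

/-- the generic point -/
noncomputable def gen {e : ℕ} (Z : Sup ι e) :
    (ι →₀ ℕ) → MvPolynomial (Par Z) ℚ := qx (fun s => X s)

theorem levdet_map {e : ℕ} {L L' : Type} [CommRing L] [CommRing L'] (φ : L →+* L')
    (B : Matrix (ι → Fin e) (ι → Fin e) L) (j : ℕ) :
    φ (levdet B j) = levdet (fun u' u => φ (B u' u)) j := by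
  unfold levdet
  rw [RingHom.map_det]
  rfl

end Pool.Agent.H887.BK
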