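import Pool.Agent.H887.BK.E5

/-!
# Few zeros on a line
-/

set_option autoImplicit false
set_option linter.unusedSectionVars false
set_option linter.unusedVariables false

namespace Pool.Agent.H887.BK

open MvPolynomial Pool.Agent.H425

/-- the parts -/
structure Hyp : Prop where
  rd : S_Rd
  rdU : S_RdU
  rdM : S_RdM
  core : S_Core
  kgr : S_KGr
  kexp : S_KExp
  kid : S_KID
  r0 : S_R0
  bdiv : S_BDiv
  min : S_Min
  yh : S_Yh
  ysM : S_YsM
  nat : S_Nat
  lm0 : S_LM0
  t0 : S_T0
  ode : S_Ode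
  deg : S_Deg
  unit : S_Unit

variable {ι : Type} [Fintype ι] [DecidableEq ι]

/-- the bound for the primes -/
def P0 (ι : Type) [Fintype ι] (e : ℕ) : ℕ :=
  max (2 * (Fintype.card ι * e) + 4) (e ^ Fintype.card ι + 1)

/-- the generic determinant -/
noncomputable def Dgen {e : ℕ} (Z : Sup ι e) (j : ℕ) :
    PowerSeries (MvPolynomial (Par Z) ℚ) :=
  levdet (Ys e (fun i => gen Z (Finsupp.single i (e + 1))) (gen Z)) j

/-- the polynomial whose zeros are to be counted -/
noncomputable def PL {k : Type} [Field k] (p e : ℕ) [Fact p.Prime] (he : 0 < e) {Z : Sup ι e}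
    (q : Par Z → k) (j : ℕ) : Polynomial k :=
  levdet (bnum p e he (fam (e + 1) (fun i => Polynomial.C ((q (pure' Z i))⁻¹))
    (fun s => Polynomial.C (qx q s)) Polynomial.X)) j

theorem card_lev_lt (e j p : ℕ) (h : e ^ Fintype.card ι + 1 ≤ p) :
    Fintype.card (lev ι e j) < p := by
  have h1 : Fintype.card (lev ι e j) ≤ Fintype.card (ι → Fin e) :=
    Fintype.card_le_of_injective (Subtype.val : lev ι e j → ι → Fin e) Subtype.val_injective
  rw [Fintype.card_fun, Fintype.card_fin] at h1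
  omega

theorem map_Dgen (H : Hyp) {L : Type} [CommRing L] [Algebra ℚ L] {e : ℕ} {Z : Sup ι e} (j : ℕ)
    (φ : MvPolynomial (Par Z) ℚ →+* L) : PowerSeries.map φ (Dgen Z j) =
      levdet (Ys e (fun i => φ (gen Z (Finsupp.single i (e + 1)))) (fun s => φ (gen Z s))) j := by
  rw [Dgen, levdet_map]
  congr 1
  funext r u
  exact H.ysM ι _ L φ e _ _ r u

theorem spec_eq (H : Hyp) {e : ℕ} (he : 0 < e) {Z : Sup ι e} (x : Ix Z (P0 ι e)) (j : ℕ) :
    ∃ V : PowerSeries x.B.R, PowerSeries.map (algebraMap x.B.R (FractionRing x.B.R)) V =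
        PowerSeries.map (evQ x.B.S x.q) (Dgen Z j) ∧
      ∃ G : PowerSeries (ZMod x.p), PowerSeries.derivative (ZMod x.p) G = 0 ∧
        PowerSeries.constantCoeff G ≠ 0 ∧
        ((PL x.p e he x.q j : Polynomial (ZMod x.p)) : PowerSeries (ZMod x.p)) =
          G * PowerSeries.map x.B.S.res V := by
  classical
  have hge := x.hge
  have hge1 : 2 * (Fintype.card ι * e) + 4 ≤ x.p := (le_max_left _ _).trans hge
  have hge2 : e ^ Fintype.card ι + 1 ≤ x.p := (le_max_right _ _).trans hge
  have hd0 : 0 < e + 1 := Nat.succ_pos e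
  have hpd : ¬ x.p ∣ (e + 1) := by
    intro h
    have h1 := Nat.le_of_dvd hd0 h
    have h3 : x.p % (e + 1) = 1 % (e + 1) := x.h1
    rcases Nat.lt_or_ge x.p (e + 1) with h2 | h2
    · rw [Nat.mod_eq_of_lt h2, Nat.mod_eq_of_lt (by omega)] at h3
      exact x.hp.out.one_lt.ne' h3
    · have h4 : x.p = e + 1 := le_antisymm h1 h2
      rw [← h4, Nat.mod_self, Nat.mod_eq_of_lt x.hp.out.one_lt] at h3
      exact absurd h3 (by norm_num)
  obtain ⟨dinv, hdinv⟩ := (x.B.S.isUnit_nat hpd).exists_left_inv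
  have hab : ∀ i, x.B.S.tau ((x.q (pure' Z i))⁻¹) * x.B.S.tau (x.q (pure' Z i)) = 1 := by
    intro i
    rw [← map_mul, inv_mul_cancel₀ (x.hq i), map_one]
  obtain ⟨V, hV1, G, hG1, hG2, hG3⟩ := fam_main (F := FractionRing x.B.R) (toPre x.B.S) H.rd H.rdU
    H.rdM H.core H.kgr H.kexp H.kid H.r0 H.bdiv H.min H.yh H.nat H.lm0 H.t0 x.B.hunit he x.h1 hge1 j
    (card_lev_lt e j x.p hge2) (fun i => x.B.S.tau ((x.q (pure' Z i))⁻¹))
    (fun i => x.B.S.tau (x.q (pure' Z i))) (fun s => x.B.S.tau (qx x.q s)) dinv hdinv hab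
    (fun i => tau_pow x.B.S _) (fun s => tau_pow x.B.S _)
  refine ⟨V, ?_, G, hG1, hG2, ?_⟩
  · rw [hV1, map_Dgen H]
    congr 2
    · funext i
      rw [gen, qx_pure, evQ_X]
    · funext s
      unfold gen qx
      split_ifs with h
      · rw [evQ_X]
      · rw [x.B.S.tau_zero, map_zero, map_zero]
  · rw [← show PowerSeries.map (toPre x.B.S).res V = PowerSeries.map x.B.S.res V from rfl, ← hG3, PL]
    congr 4
    · funext i
      change Polynomial.C _ = Polynomial.C (x.B.S.res _)
      rw [x.B.S.res_tau]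
    · funext s
      change Polynomial.C _ = Polynomial.C (x.B.S.res _)
      rw [x.B.S.res_tau]

theorem gen_mem (H : Hyp) {e : ℕ} (he : 0 < e) {Z : Sup ι e} (j m : ℕ) :
    PowerSeries.coeff m (Dgen Z j) ∈ AA Z (P0 ι e) := by
  intro x
  obtain ⟨V, hV, -⟩ := spec_eq H he x j
  refine ⟨PowerSeries.coeff m V, ?_⟩
  have := congrArg (PowerSeries.coeff m) hV
  rwa [PowerSeries.coeff_map, PowerSeries.coeff_map] at this

/-- the generic determinant over the ring of integral elements -/
noncomputable def DA (H : Hyp) {e : ℕ} (he : 0 < e) (Z : Sup ι e) (j : ℕ) : PowerSeries (AA Z (P0 ι e)) :=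
  PowerSeries.mk fun m => ⟨PowerSeries.coeff m (Dgen Z j), gen_mem H he j m⟩

theorem map_phi_DA (H : Hyp) {e : ℕ} (he : 0 < e) {Z : Sup ι e} (j : ℕ) (x : Ix Z (P0 ι e))
    (V : PowerSeries x.B.R) (hV : PowerSeries.map (algebraMap x.B.R (FractionRing x.B.R)) V =
        PowerSeries.map (evQ x.B.S x.q) (Dgen Z j)) :
    PowerSeries.map (phi x) (DA H he Z j) = PowerSeries.map x.B.S.res V := by
  ext1 m
  rw [PowerSeries.coeff_map, PowerSeries.coeff_map, DA, PowerSeries.coeff_mk, phi_apply]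
  congr 1
  apply vl_unique
  have := congrArg (PowerSeries.coeff m) hV
  rwa [PowerSeries.coeff_map, PowerSeries.coeff_map] at this

/-- clearing denominators of a polynomial -/
theorem clear_poly {A F : Type} [CommRing A] [Field F] (i : A →+* F) (hi : Function.Injective i)
    (hden : ∀ z : F, ∃ y : A, y ≠ 0 ∧ ∃ x : A, i x = z * i y) (P : Polynomial F) :
    ∃ y : A, y ≠ 0 ∧ ∃ P' : Polynomial A, P'.map i = P * Polynomial.C (i y) := by
  have hne : ∀ y : A, y ≠ 0 → i y ≠ 0 := fun y hy h => hy (hi (by rw [h, map_zero]))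
  induction P using Polynomial.induction_on' with
  | add P Q hP hQ =>
    obtain ⟨y, hy, P', hP'⟩ := hP
    obtain ⟨z, hz, Q', hQ'⟩ := hQ
    refine ⟨y * z, fun h => ?_, P' * Polynomial.C z + Q' * Polynomial.C y, ?_⟩
    · have := congrArg i h
      rw [map_mul, map_zero] at this
      exact mul_ne_zero (hne y hy) (hne z hz) this
    · rw [Polynomial.map_add, Polynomial.map_mul, Polynomial.map_mul, hP', hQ', Polynomial.map_C,
        Polynomial.map_C, map_mul, map_mul]
      ring
  | monomial n a =>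
    obtain ⟨y, hy, x, hx⟩ := hden a
    refine ⟨y, hy, Polynomial.monomial n x, ?_⟩
    rw [Polynomial.map_monomial, hx, Polynomial.monomial_mul_C]

theorem hasODE_descend {A F : Type} [CommRing A] [Field F] (i : A →+* F)
    (hi : Function.Injective i)
    (hden : ∀ z : F, ∃ y : A, y ≠ 0 ∧ ∃ x : A, i x = z * i y) (f : PowerSeries A)
    (h : Pool.Agent.Q267.ST.HasODE (PowerSeries.map i f)) : Pool.Agent.Q267.ST.HasODE f := by
  obtain ⟨r, c, hc, hsum⟩ := h
  have hne : ∀ y : A, y ≠ 0 → i y ≠ 0 := fun y hy h => hy (hi (by rw [h, map_zero]))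
  have hcl : ∀ n : ℕ, ∃ y : A, y ≠ 0 ∧ ∀ l < n, ∃ P' : Polynomial A,
      P'.map i = c l * Polynomial.C (i y) := by
    intro n
    induction n with
    | zero => exact ⟨1, fun h => one_ne_zero (α := F) (by rw [← map_one i, h, map_zero]),
        fun l hl => absurd hl (Nat.not_lt_zero l)⟩
    | succ n ih =>
      obtain ⟨y, hy, h1⟩ := ih
      obtain ⟨z, hz, Q, hQ⟩ := clear_poly i hi hden (c n)
      refine ⟨y * z, fun h => ?_, fun l hl => ?_⟩
      · have := congrArg i h
        rw [map_mul, map_zero] at this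
        exact mul_ne_zero (hne y hy) (hne z hz) this
      · rcases Nat.lt_succ_iff_lt_or_eq.1 hl with h2 | h2
        · obtain ⟨P', hP'⟩ := h1 l h2
          exact ⟨P' * Polynomial.C z, by
            rw [Polynomial.map_mul, hP', Polynomial.map_C, map_mul, map_mul]; ring⟩
        · subst h2
          exact ⟨Q * Polynomial.C y, by
            rw [Polynomial.map_mul, hQ, Polynomial.map_C, map_mul, map_mul]; ring⟩
  obtain ⟨y, hy, h1⟩ := hcl (r + 1)
  choose! P hP using h1
  refine ⟨r, P, fun h => ?_, ?_⟩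
  · have h2 := hP r (Nat.lt_succ_self r)
    rw [h, Polynomial.map_zero] at h2
    exact mul_ne_zero hc (Polynomial.C_ne_zero.2 (hne y hy)) h2.symm
  · have hinj : Function.Injective (PowerSeries.map i) := by
      intro a b hab
      ext n
      have := congrArg (PowerSeries.coeff n) hab
      rw [PowerSeries.coeff_map, PowerSeries.coeff_map] at this
      exact hi this
    have hder : ∀ (l : ℕ), PowerSeries.map i ((PowerSeries.derivative A)^[l] f) =
        (PowerSeries.derivative F)^[l] (PowerSeries.map i f) := by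
      intro l
      induction l with
      | zero => rfl
      | succ l ih =>
        rw [Function.iterate_succ_apply', Function.iterate_succ_apply', ← ih]
        ext n
        rw [PowerSeries.coeff_map, PowerSeries.coeff_derivative, PowerSeries.coeff_derivative,
          PowerSeries.coeff_map, map_mul, map_add, map_natCast, map_one]
    apply hinj
    rw [map_sum, map_zero]
    have h3 : ∀ l ∈ Finset.range (r + 1), PowerSeries.map i
        ((P l : PowerSeries A) * (PowerSeries.derivative A)^[l] f) =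
        PowerSeries.C (i y) * ((c l : PowerSeries F) *
          (PowerSeries.derivative F)^[l] (PowerSeries.map i f)) := by
      intro l hl
      rw [map_mul, hder]
      have h4 : PowerSeries.map i (P l : PowerSeries A) = ((P l).map i : Polynomial F) := by
        ext n
        rw [PowerSeries.coeff_map, Polynomial.coeff_coe, Polynomial.coeff_coe, Polynomial.coeff_map]
      rw [h4, hP l (Finset.mem_range.1 hl), Polynomial.coe_mul, Polynomial.coe_C]
      ring
    rw [Finset.sum_congr rfl h3, ← Finset.mul_sum, hsum, mul_zero]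

theorem hasODE_DA (H : Hyp) {e : ℕ} (he : 0 < e) (Z : Sup ι e) (j : ℕ) :
    Pool.Agent.Q267.ST.HasODE (DA H he Z j) := by
  classical
  set F0 := FractionRing (MvPolynomial (Par Z) ℚ) with hF0
  set i : AA Z (P0 ι e) →+* F0 := (algebraMap (MvPolynomial (Par Z) ℚ) F0).comp
    (AA Z (P0 ι e)).subtype with hi
  have hinj : Function.Injective i := by
    intro a b hab
    exact Subtype.ext (IsFractionRing.injective (MvPolynomial (Par Z) ℚ) F0 hab)
  refine hasODE_descend i hinj ?_ _ ?_
  · intro z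
    obtain ⟨P, Q, hQ, hz⟩ := IsFractionRing.div_surjective (A := MvPolynomial (Par Z) ℚ) z
    obtain ⟨N, P', hN, hP'⟩ := exists_int P
    obtain ⟨M, Q', hM, hQ'⟩ := exists_int Q
    have hQ0 : Q ≠ 0 := nonZeroDivisors.ne_zero hQ
    have hQF : algebraMap (MvPolynomial (Par Z) ℚ) F0 Q ≠ 0 := by
      intro h
      exact hQ0 (IsFractionRing.injective (MvPolynomial (Par Z) ℚ) F0 (by rw [h, map_zero]))
    refine ⟨(N : AA Z (P0 ι e)) * ⟨_, int_mem Q'⟩, ?_, (M : AA Z (P0 ι e)) * ⟨_, int_mem P'⟩, ?_⟩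
    · intro h
      have h1 := congrArg Subtype.val h
      change (N : MvPolynomial (Par Z) ℚ) * map (Int.castRingHom ℚ) Q' = 0 at h1
      rw [← hQ'] at h1
      have h2 : (N : MvPolynomial (Par Z) ℚ) ≠ 0 := Nat.cast_ne_zero.2 hN
      have h3 : (M : MvPolynomial (Par Z) ℚ) ≠ 0 := Nat.cast_ne_zero.2 hM
      exact mul_ne_zero h2 (mul_ne_zero h3 hQ0) h1
    · change algebraMap (MvPolynomial (Par Z) ℚ) F0 ((M : MvPolynomial (Par Z) ℚ) *
        map (Int.castRingHom ℚ) P') = z * algebraMap (MvPolynomial (Par Z) ℚ) F0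
          ((N : MvPolynomial (Par Z) ℚ) * map (Int.castRingHom ℚ) Q')
      rw [← hP', ← hQ', ← hz, map_mul, map_mul, map_mul, map_mul]
      have e1 := div_mul_cancel₀ (algebraMap (MvPolynomial (Par Z) ℚ) F0 P) hQF
      linear_combination (-(algebraMap (MvPolynomial (Par Z) ℚ) F0
        (M : MvPolynomial (Par Z) ℚ)) * algebraMap (MvPolynomial (Par Z) ℚ) F0
        (N : MvPolynomial (Par Z) ℚ)) * e1
  · have h1 : PowerSeries.map i (DA H he Z j) =
        PowerSeries.map (algebraMap (MvPolynomial (Par Z) ℚ) F0) (Dgen Z j) := by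
      ext1 m
      rw [PowerSeries.coeff_map, PowerSeries.coeff_map, DA, PowerSeries.coeff_mk]
      rfl
    rw [h1, map_Dgen H]
    refine H.ode ι F0 e j _ _ he ?_
    intro t
    rw [gen, qx_pure]
    intro h
    have h2 : (X (pure' Z t) : MvPolynomial (Par Z) ℚ) = 0 :=
      IsFractionRing.injective (MvPolynomial (Par Z) ℚ) F0 (by rw [h, map_zero])
    exact X_ne_zero _ h2

/-- few zeros on a line -/
theorem line (H : Hyp) (hst : Pool.Agent.Q267.ST.S_Soft) {e : ℕ} (he : 0 < e) (Z : Sup ι e)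
    (j : ℕ) (ε : ℝ)
    (hε : 0 < ε) :
    ∃ (p₀ : ℕ) (Q : MvPolynomial (Par Z) ℤ), Q ≠ 0 ∧ ∀ (p : ℕ) [Fact p.Prime], p₀ ≤ p →
      p ≡ 1 [MOD (e + 1)] → ∀ q : Par Z → ZMod p, (∀ i, q (pure' Z i) ≠ 0) →
      eval₂ (Int.castRingHom (ZMod p)) q Q ≠ 0 → ∀ T : Finset (ZMod p),
      (∀ t ∈ T, (PL p e he q j).eval t = 0) → (T.card : ℝ) ≤ ε * p := by
  classical
  obtain ⟨Cd, hCd⟩ := H.deg ι e he
  have hD0 : DA H he Z j ≠ 0 := by
    intro h
    have h1 := congrArg (fun f => (PowerSeries.coeff 0 f : AA Z (P0 ι e)).1) h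
    have h2 : PowerSeries.coeff 0 (Dgen Z j) = 0 := by
      have h3 : (PowerSeries.coeff 0 (DA H he Z j)).1 = PowerSeries.coeff 0 (Dgen Z j) := by
        rw [DA, PowerSeries.coeff_mk]
      rw [← h3]
      beta_reduce at h1
      rw [h1]
      rfl
    -- compare in the fraction field
    set F0 := FractionRing (MvPolynomial (Par Z) ℚ) with hF0
    have h4 : PowerSeries.constantCoeff (PowerSeries.map
        (algebraMap (MvPolynomial (Par Z) ℚ) F0) (Dgen Z j)) = 0 := by
      rw [← PowerSeries.coeff_zero_eq_constantCoeff_apply, PowerSeries.coeff_map, h2, map_zero]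
    rw [map_Dgen H, levdet, RingHom.map_det] at h4
    have h5 : (PowerSeries.constantCoeff (R := F0)).mapMatrix
          ((Ys e (fun i => algebraMap (MvPolynomial (Par Z) ℚ) F0
            (gen Z (Finsupp.single i (e + 1))))
            (fun s => algebraMap (MvPolynomial (Par Z) ℚ) F0 (gen Z s))).submatrix
            (Subtype.val : lev ι e j → ι → Fin e) (Subtype.val : lev ι e j → ι → Fin e)) = 1 := by
      ext u v
      rw [RingHom.mapMatrix_apply, Matrix.map_apply, Matrix.submatrix_apply, constantCoeff_Ys,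
        Matrix.one_apply]
      by_cases h : u = v
      · rw [if_pos (by rw [h]), if_pos h]
      · rw [if_neg (fun h' => h (Subtype.ext h')), if_neg h]
    exact one_ne_zero (((congrArg Matrix.det h5).trans Matrix.det_one).symm.trans h4)
  obtain ⟨p₁, a, ha, hmain⟩ := hst (AA Z (P0 ι e)) (DA H he Z j) hD0 (hasODE_DA H he Z j) ε hε
    Cd
  obtain ⟨N, Q, hN, hNQ⟩ := exists_int a.1
  refine ⟨max (P0 ι e) (max p₁ (N + 1)), Q, ?_, ?_⟩
  · rintro rfl
    rw [map_zero] at hNQ
    have h1 : (N : MvPolynomial (Par Z) ℚ) ≠ 0 := Nat.cast_ne_zero.2 hN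
    rcases mul_eq_zero.1 hNQ with h2 | h2
    · exact h1 h2
    · exact ha (Subtype.ext h2)
  · intro p hp hge h1 q hq hQ T hT
    obtain ⟨B⟩ := exists_BR H.unit p e
    let x : Ix Z (P0 ι e) := ⟨p, hp, B, (le_max_left _ _).trans hge, h1, q, hq⟩
    obtain ⟨V, hV, G, hG1, hG2, hG3⟩ := spec_eq H he x j
    have hφ : phi x a ≠ 0 := by
      intro h
      have h2 : (N : AA Z (P0 ι e)) * a = ⟨_, int_mem Q⟩ := Subtype.ext hNQ
      have h3 := congrArg (phi x) h2
      rw [phi_int, map_mul, h, mul_zero] at h3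
      exact hQ h3.symm
    refine hmain p (ZMod p) (phi x) hp.out ((le_max_left _ _).trans ((le_max_right _ _).trans hge))
      hφ (PL p e he q j) G hG1 hG2 ?_ ((hCd p (ZMod p) _ _).1 j) T ?_
    · rw [map_phi_DA H he j x V hV]
      exact hG3
    · intro t ht
      exact ⟨ZMod.pow_card t, hT t ht⟩

end Pool.Agent.H887.BK
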