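import Pool.Agent.H887.BK.E6

/-!
# A single hypersurface modulo `p`
-/

set_option autoImplicit false
set_option linter.unusedSectionVars false
set_option linter.unusedVariables false

namespace Pool.Agent.H887.BK

open MvPolynomial Pool.Agent.H425

variable {ι : Type} [Fintype ι] [DecidableEq ι]

theorem coeff_form {L : Type} [CommRing L] (d : ℕ) (c : (ι →₀ ℕ) → L) (s : ι →₀ ℕ) :
    coeff s (form d c) = if s ∈ Sd ι d then c s else 0 := by
  unfold form
  rw [coeff_sum]
  simp only [coeff_monomial]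
  rw [Finset.sum_ite_eq']

section

variable {p e : ℕ} [hp : Fact p.Prime] {K R : Type} [Field K] [CommRing R] [IsDomain R]
  (S : Setup p (e + 1) K R)

theorem toPre_ker (supp : Finset (ι →₀ ℕ)) (c : (ι →₀ ℕ) → R) (V U : ι →₀ ℕ) :
    (toPre S).ker supp c V U = S.ker supp c V U := rfl

theorem Fs_zero (s : ι →₀ ℕ) (hs : s ≠ 0) : S.Fs s 0 = 1 := by
  classical
  ext w
  rw [MvPowerSeries.coeff_one]
  by_cases hw : ∃ j : ℕ, j • s = w
  · obtain ⟨j, rfl⟩ := hw
    rw [S.coeff_Fs s hs]
    rcases Nat.eq_zero_or_pos j with rfl | hj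
    · rw [pow_zero, mul_one, zero_smul, if_pos rfl, S.th_zero]
    · rw [zero_pow hj.ne', mul_zero, if_neg]
      intro h
      have := smul_inj hs (h.trans (zero_smul ℕ s).symm)
      omega
  · push Not at hw
    rw [S.coeff_Fs_ne s 0 w hw, if_neg]
    rintro rfl
    exact hw 0 (zero_smul ℕ s)

theorem ker_supp (supp supp' : Finset (ι →₀ ℕ)) (c : (ι →₀ ℕ) → R) (h : S.FF supp c = S.FF supp' c)
    (V U : ι →₀ ℕ) : S.ker supp c V U = S.ker supp' c V U := by
  unfold Setup.ker Setup.Gk
  rw [h]

variable (c : (ι →₀ ℕ) → K) (hc : ∀ s, c s ^ p = c s)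

/-- the lifted coefficients -/
noncomputable def cR (s : ι →₀ ℕ) : R := S.tc (form (e + 1) c) 0 s

theorem cR_eq (s : ι →₀ ℕ) (hs : s ∈ Sd ι (e + 1)) : cR S c s = S.tau (c s) := by
  rw [cR, Setup.tc, pow_zero, pow_one, coeff_form, if_pos hs]

include hc in
theorem tc_eq (t : ℕ) : S.tc (form (e + 1) c) t = cR S c := by
  funext s
  have h : ∀ t, coeff s (form (e + 1) c) ^ (p ^ t) = coeff s (form (e + 1) c) := by
    intro t
    induction t with
    | zero => rw [pow_zero, pow_one]
    | succ t ih =>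
      rw [pow_succ, pow_mul, ih, coeff_form]
      split_ifs
      · exact hc s
      · exact zero_pow hp.out.ne_zero
  rw [Setup.tc, cR, Setup.tc, ← map_pow, h, pow_zero, pow_one]

include hc in
theorem cR_pow (s : ι →₀ ℕ) : cR S c s ^ p = cR S c s := by
  have h1 := congrFun (tc_eq S c hc 1) s
  rw [Setup.tc, pow_one] at h1
  rw [← h1]
  rw [cR, Setup.tc, pow_zero, pow_one] at h1
  rw [← pow_mul, ← map_pow]
  rw [← map_pow] at h1
  have h2 : coeff s (form (e + 1) c) ^ p = coeff s (form (e + 1) c) := by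
    rw [coeff_form]
    split_ifs
    · exact hc s
    · exact zero_pow hp.out.ne_zero
  rw [pow_mul, h2, h2, ← map_pow, h2]

theorem su_sub : Setup.su (form (e + 1) c) ⊆ Sd ι (e + 1) := by
  intro s hs
  rw [Setup.su, Finset.mem_erase, mem_support_iff, coeff_form] at hs
  by_contra h
  exact hs.2 (if_neg h)

theorem cR_zero (s : ι →₀ ℕ) (hs : s ∈ Sd ι (e + 1)) (h : s ∉ Setup.su (form (e + 1) c)) :
    cR S c s = 0 := by
  have h0 : s ≠ 0 := by
    rintro rfl
    exact zero_notMem_Sd (e + 1) (Nat.succ_pos e) hs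
  have h1 : coeff s (form (e + 1) c) = 0 := by
    by_contra h2
    exact h (by rw [Setup.su, Finset.mem_erase, mem_support_iff]; exact ⟨h0, h2⟩)
  rw [cR, Setup.tc, h1, S.tau_zero, pow_zero, pow_one]

include hc in
theorem Hh_eq (N t : ℕ) : S.Hh N (Setup.su (form (e + 1) c)) (S.tc (form (e + 1) c) t) =
    form (e + 1) (fun s => S.rd N (cR S c s)) := by
  rw [tc_eq S c hc t, Setup.Hh]
  have hR : form (e + 1) (fun s => S.rd N (cR S c s)) =
      ∑ s ∈ Sd ι (e + 1), monomial s (S.rd N (cR S c s)) := rfl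
  rw [hR, ← Finset.sum_subset (su_sub c)]
  · refine Finset.sum_congr rfl fun s hs => ?_
    rw [(mem_Sd _ _).1 (su_sub c hs), Nat.sub_self, pow_zero, mul_one]
  · intro s hs h
    rw [cR_zero S c s hs h, map_zero, monomial_zero]

theorem FF_eq : S.FF (Setup.su (form (e + 1) c)) (cR S c) = S.FF (Sd ι (e + 1)) (cR S c) := by
  unfold Setup.FF
  refine Finset.prod_subset (su_sub c) ?_
  intro s hs h
  rw [cR_zero S c s hs h]
  refine Fs_zero S s ?_
  rintro rfl
  exact zero_notMem_Sd (e + 1) (Nat.succ_pos e) hs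

theorem totalDegree_form : (form (e + 1) c : MvPolynomial ι K).totalDegree ≤ e + 1 := by
  rw [totalDegree]
  refine Finset.sup_le fun s hs => ?_
  rw [mem_support_iff, coeff_form] at hs
  have h1 : s ∈ Sd ι (e + 1) := by
    by_contra h
    exact hs (if_neg h)
  have h2 := (mem_Sd _ _).1 h1
  rw [Finsupp.degree_apply] at h2
  exact le_of_eq h2

theorem kap_one (hp3 : 3 ≤ p) (N t : ℕ) : S.kap N (form (e + 1) c) t = 1 := by
  have h0 : coeff 0 (form (e + 1) c) = 0 := by
    rw [coeff_form, if_neg (zero_notMem_Sd (e + 1) (Nat.succ_pos e))]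
  rw [Setup.kap, Setup.tc, h0, S.tau_zero, zero_pow (pow_ne_zero _ hp.out.ne_zero), map_zero]
  rw [← Polynomial.coeff_zero_eq_eval_zero, S.coeff_thp hp3 (Nat.succ_pos e), S.th_zero, map_one]

include hc in
/-- the matrix of Frobenius in the present notation -/
theorem Bt_eq (hRdU : S_RdU) (N : ℕ) (D : S.BD N (form (e + 1) c) e emb)
    (D' : RdS e (form (e + 1) (fun s => S.rd N (cR S c s)) : MvPolynomial ι (S.Q N)))
    (u' u : ι → Fin e) :
    Setup.Bt D 0 u' u =
      Bm D' (fun V U => S.rd N ((toPre S).ker (Sd ι (e + 1)) (cR S c) V U)) N u' u := by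
  classical
  have hp5 := D.hp5
  have hf := totalDegree_form (e := e) c
  have hE : ∀ (t : ℕ) (v : ι → Fin e), (Setup.EE D t) (monomial (emb v) 1) = monomial (emb v) 1 := by
    intro t v
    rw [Setup.EE_apply]
    exact Phi_small _ e D.he emb v 1
  set ℓ : MvPolynomial ι (S.Q N) →ₗ[S.Q N] S.Q N :=
    (lcoeff (S.Q N) (emb u')) ∘ₗ (Setup.EE D 1).symm.toLinearMap with hℓ
  have hℓy : ∀ i P, ℓ (yop (form (e + 1) (fun s => S.rd N (cR S c s))) i P) = 0 := by
    intro i P
    have h1 := Setup.EE_symm_yop D 1 i P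
    rw [Hh_eq S c hc N 1] at h1
    rw [hℓ, LinearMap.comp_apply]
    change coeff (emb u') ((Setup.EE D 1).symm _) = 0
    rw [h1, X_pow_eq_monomial, coeff_monomial_mul', if_neg]
    intro h
    have h3 := h i
    rw [Finsupp.single_eq_same, emb_apply] at h3
    have := (u' i).2
    omega
  have hℓP : ∀ P, ℓ P = D'.rd P u' := by
    intro P
    rw [hRdU ι (S.Q N) e _ D' ℓ hℓy P, Finset.sum_eq_single u']
    · have h1 : ℓ (monomial (emb u') 1) = 1 := by
        change coeff (emb u') ((Setup.EE D 1).symm (monomial (emb u') 1)) = 1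
        have h2 : (Setup.EE D 1).symm (monomial (emb u') 1) = monomial (emb u') 1 := by
          rw [LinearEquiv.symm_apply_eq, hE]
        rw [h2, coeff_monomial, if_pos rfl]
      rw [h1, mul_one]
    · intro v _ hv
      have h1 : ℓ (monomial (emb v) 1) = 0 := by
        change coeff (emb u') ((Setup.EE D 1).symm (monomial (emb v) 1)) = 0
        have h2 : (Setup.EE D 1).symm (monomial (emb v) 1) = monomial (emb v) 1 := by
          rw [LinearEquiv.symm_apply_eq, hE]
        rw [h2, coeff_monomial, if_neg]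
        intro h
        exact hv (emb_injective h)
      rw [h1, mul_zero]
    · intro h
      exact absurd (Finset.mem_univ _) h
  have hB : Setup.Bt D 0 u' u = ℓ (S.alt N (form (e + 1) c) Finset.univ 0 (monomial (emb u) 1)) := by
    rw [Setup.Bt, Setup.gop_apply, hE]
    rfl
  have halt : S.alt N (form (e + 1) c) Finset.univ 0 (monomial (emb u) 1) =
      kop (fun V U => S.rd N ((toPre S).ker (Sd ι (e + 1)) (cR S c) V U)) N one1
        (monomial (emb u) 1) := by
    ext v
    rw [S.coeff_alt (by omega) N _ hf, kap_one S c (by omega), one_mul, mul_one, coeff_kop, one_mul]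
    have h1 : S.kb N (Setup.su (form (e + 1) c)) (S.tc (form (e + 1) c) 0) (v + oneA Finset.univ)
        (emb u + oneA Finset.univ) = S.rd N ((toPre S).ker (Sd ι (e + 1)) (cR S c) (v + one1)
          (emb u + one1)) := by
      rw [Setup.kb, toPre_ker, tc_eq S c hc 0, ker_supp S _ _ _ (FF_eq S c)]
      rfl
    split_ifs with h
    · exact h1
    · rw [S.kb_vanish (by omega) N _ hf]
      rw [map_add]
      omega
  rw [hB, hℓP, Bm, halt]

end

theorem pow_sub {m A : Type} [Fintype m] [DecidableEq m] [CommRing A] (M : Matrix m m A)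
    (P : m → Prop) [DecidablePred P] (h : ∀ i j, P i → ¬ P j → M i j = 0) (a : ℕ) :
    (M ^ a).submatrix (Subtype.val : {i // P i} → m) (Subtype.val : {i // P i} → m) =
      (M.submatrix (Subtype.val : {i // P i} → m) (Subtype.val : {i // P i} → m)) ^ a := by
  induction a with
  | zero =>
    ext i j
    rw [pow_zero, pow_zero, Matrix.submatrix_apply, Matrix.one_apply, Matrix.one_apply]
    by_cases h1 : i = j
    · rw [if_pos (by rw [h1]), if_pos h1]
    · rw [if_neg (fun h' => h1 (Subtype.ext h')), if_neg h1]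
  | succ a ih =>
    rw [pow_succ', pow_succ', ← ih]
    ext i j
    rw [Matrix.submatrix_apply, Matrix.mul_apply, Matrix.mul_apply,
      ← Finset.sum_filter_add_sum_filter_not Finset.univ P]
    have h2 : ∑ x ∈ Finset.univ.filter (fun x => ¬ P x), M i.1 x * (M ^ a) x j.1 = 0 := by
      refine Finset.sum_eq_zero fun x hx => ?_
      rw [Finset.mem_filter] at hx
      rw [h _ _ i.2 hx.2, zero_mul]
    rw [h2, add_zero, Finset.sum_subtype (p := P) _ (by intro x; simp)]
    rfl

end Pool.Agent.H887.BK
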