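import Pool.Agent.H887.BK.E7

/-!
# The Newton polygon of a single hypersurface
-/

set_option autoImplicit false
set_option linter.unusedSectionVars false
set_option linter.unusedVariables false

namespace Pool.Agent.H887.BK

open MvPolynomial Pool.Agent.H425

/-- the monomials which span the primitive cohomology -/
def Mm (ι : Type) [Fintype ι] (e : ℕ) : Type := {u : ι → Fin e // (e + 1) ∣ wt u}

instance (ι : Type) [Fintype ι] [DecidableEq ι] (e : ℕ) : Fintype (Mm ι e) :=
  inferInstanceAs (Fintype {u : ι → Fin e // (e + 1) ∣ wt u})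

instance (ι : Type) [Fintype ι] (e : ℕ) : DecidableEq (Mm ι e) :=
  inferInstanceAs (DecidableEq {u : ι → Fin e // (e + 1) ∣ wt u})

/-- the Hodge level -/
def hh {ι : Type} [Fintype ι] {e : ℕ} (u : Mm ι e) : ℕ := wt u.1 / (e + 1) - 1

/-- `(-1) ^ n (q N - q ^ n)` -/
noncomputable def Sta (ι : Type) [Fintype ι] {K : Type} [Field K] (p : ℕ) (f : MvPolynomial ι K)
    (a : ℕ) : ℤ :=
  (-1) ^ Fintype.card ι * ((p ^ a * Npts p f a : ℕ) - (p ^ (a * Fintype.card ι) : ℕ))

variable {ι : Type} [Fintype ι] [DecidableEq ι]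

theorem wt_pos [Nonempty ι] {e : ℕ} (u : ι → Fin e) : 0 < wt u := by
  have := Fintype.card_pos (α := ι)
  unfold wt
  omega

theorem wt_hh [Nonempty ι] {e : ℕ} (u : Mm ι e) : wt u.1 = (e + 1) * (hh u + 1) := by
  obtain ⟨k, hk⟩ := u.2
  have h1 := wt_pos u.1
  have h2 : k ≠ 0 := by
    rintro rfl
    omega
  rw [hh, hk, Nat.mul_div_cancel_left _ (Nat.succ_pos e)]
  congr 1
  omega

theorem wt_le {e : ℕ} (he : 0 < e) (u : ι → Fin e) : wt u ≤ Fintype.card ι * e := by
  have h1 : bdeg u ≤ Fintype.card ι * (e - 1) := by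
    unfold bdeg
    refine (Finset.sum_le_card_nsmul Finset.univ _ (e - 1) fun i _ => ?_).trans ?_
    · have := (u i).2
      omega
    · rw [smul_eq_mul, Finset.card_univ]
  unfold wt
  calc bdeg u + Fintype.card ι ≤ Fintype.card ι * (e - 1) + Fintype.card ι := by omega
    _ = Fintype.card ι * (e - 1 + 1) := by ring
    _ = _ := by rw [Nat.sub_add_cancel he]

theorem bdeg_le {e : ℕ} (he : 0 < e) (u : ι → Fin e) : bdeg u ≤ Fintype.card ι * e :=
  (Nat.le_add_right _ _).trans (wt_le he u)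

section

variable {p e : ℕ} [hp : Fact p.Prime] {K R : Type} [Field K] [CommRing R] [IsDomain R]
  (S : Setup p (e + 1) K R)

theorem res_cR (c : (ι →₀ ℕ) → K) (hcs : ∀ s, s ∉ Sd ι (e + 1) → c s = 0) (s : ι →₀ ℕ) :
    S.res (cR S c s) = c s := by
  rw [cR, Setup.tc, pow_zero, pow_one, S.res_tau, coeff_form]
  split_ifs with h
  · rfl
  · exact (hcs s h).symm

theorem isUnit_Q (N : ℕ) (hN : 1 ≤ N) (x : S.Q N) (hx : S.rho N hN x ≠ 0) : IsUnit x := by
  obtain ⟨y, rfl⟩ := Ideal.Quotient.mk_surjective x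
  exact S.isUnit_rd N y hx

/-- divisibility in the quotient -/
theorem Q_zero {N k : ℕ} (hN : 1 ≤ N) (hk : k < N) (x : S.Q N) (h : (S.rd N S.lam) ^ k * x = 0) :
    S.rho N hN x = 0 := by
  obtain ⟨y, rfl⟩ := Ideal.Quotient.mk_surjective x
  have h1 : S.rd N (S.lam ^ k * y) = 0 := by rw [map_mul, map_pow]; exact h
  rw [S.rd_eq_zero] at h1
  obtain ⟨z, hz⟩ := h1
  have h2 : S.lam ^ N = S.lam ^ k * S.lam ^ (N - k) := by rw [← pow_add]; congr 1; omega
  rw [h2, mul_assoc] at hz
  have h3 := mul_left_cancel₀ (pow_ne_zero k S.lam_ne) hz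
  have h4 : S.rho N hN (S.rd N y) = 0 := by
    rw [S.rho_rd, h3, map_mul, map_pow, S.res_lam, zero_pow (by omega), zero_mul]
  exact h4

theorem exists_BD (hSpan : S_Span) (he : 0 < e) (hp5 : 5 ≤ p) (c : (ι →₀ ℕ) → K)
    (hc : ∀ s, c s ^ p = c s) (hcs : ∀ s, s ∉ Sd ι (e + 1) → c s = 0)
    (hdisc : ∀ j ≤ Fintype.card ι * e + 1, (LM (form (e + 1) c) e he j).det ≠ 0) (N : ℕ)
    (hN : 1 ≤ N) : S.BD N (form (e + 1) c) e emb := by
  refine ⟨hN, hp5, he, rfl, totalDegree_form c, fun t => ?_⟩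
  rw [Hh_eq S c hc N t]
  have hmap : map (S.rho N hN) (form (e + 1) (fun s => S.rd N (cR S c s))) = form (e + 1) c := by
    rw [map_form]
    congr 1
    funext s
    rw [S.rho_rd, res_cR S c hcs]
  have hpd : ∀ i, map (S.rho N hN) (pderiv i (form (e + 1) (fun s => S.rd N (cR S c s)))) =
      pderiv i (form (e + 1) c) := by
    intro i
    rw [← hmap, pderiv_map]
  refine ⟨?_, fun u => degree_emb u, ?_, ?_⟩
  · intro w hw
    rw [coeff_form, if_neg]
    rw [mem_Sd]
    omega
  · intro i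
    rw [hpd]
    have := (form_homog (e + 1) c : (form (e + 1) c : MvPolynomial ι K).IsHomogeneous (e + 1)).pderiv (i := i)
    rwa [Nat.add_sub_cancel] at this
  · simp only [hpd]
    exact (hSpan ι K e he (form (e + 1) c) (form_homog _ _) hdisc).2.1

variable (H : Hyp) (hPT : S_PT) (hSpan : S_Span) (hNew : S_New)

include H in
/-- the matrix of Frobenius: divisibility, grading, residues -/
theorem Bt_facts (hSpan : S_Span) (he : 0 < e) (hp1 : p ≡ 1 [MOD (e + 1)]) (hge : P0 ι e ≤ p)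
    (c : (ι →₀ ℕ) → K) (hc : ∀ s, c s ^ p = c s) (hcs : ∀ s, s ∉ Sd ι (e + 1) → c s = 0)
    (hdisc : ∀ j ≤ Fintype.card ι * e + 1, (LM (form (e + 1) c) e he j).det ≠ 0) (N : ℕ)
    (hN1 : 1 ≤ N) (hN : Fintype.card ι * e ≤ N) (D : S.BD N (form (e + 1) c) e emb) :
    (∀ j, Dl p e he c j ≠ 0) ∧
    (∀ u' u : ι → Fin e, ¬ (wt u' ≡ wt u [MOD (e + 1)]) → Setup.Bt D 0 u' u = 0) ∧
    ∃ b : Matrix (ι → Fin e) (ι → Fin e) (S.Q N), ∀ u' u,
      Setup.Bt D 0 u' u = S.rd N S.lam ^ ((p - 1) * wt u') * b u' u ∧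
      Dl p e he c (bdeg u') * S.rho N hN1 (b u' u) = bnum p e he c u' u := by
  classical
  have hd0 : 0 < e + 1 := Nat.succ_pos e
  have hge1 : 2 * (Fintype.card ι * e) + 4 ≤ p := (le_max_left _ _).trans hge
  have hp4 : 4 ≤ p := by omega
  have hall := (hSpan ι K e he (form (e + 1) c) (form_homog _ _) hdisc).1
  have hcp : (fun s => c s ^ p) = c := funext hc
  have hDl : ∀ j, Dl p e he c j ≠ 0 := by
    intro j
    rw [Dl, hcp]
    exact hall j
  have hres : ∀ s, S.res (cR S c s) = c s := res_cR S c hcs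
  have hunit : ∀ j, IsUnit (LM (form (e + 1) (fun s => S.rd N (cR S c s)) :
      MvPolynomial ι (S.Q N)) e he j).det := by
    intro j
    apply isUnit_Q S N hN1
    rw [(H.nat ι (S.Q N) K (S.rho N hN1) p e he (fun s => S.rd N (cR S c s))).1 j]
    have h1 : (fun s => S.rho N hN1 (S.rd N (cR S c s))) = c := by
      funext s
      rw [S.rho_rd, hres]
    rw [h1]
    exact hall j
  obtain ⟨D', -, hD'⟩ := H.rd ι (S.Q N) e he (form (e + 1) (fun s => S.rd N (cR S c s)))
    (form_homog _ _) hunit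
  have hBt := Bt_eq S c hc H.rdU N D D'
  refine ⟨hDl, ?_, ?_⟩
  · intro u' u hne
    rw [hBt, Bm, kop_monomial, map_sum, Finset.sum_apply]
    refine Finset.sum_eq_zero fun v _ => ?_
    have h2 : (monomial v (S.rd N ((toPre S).ker (Sd ι (e + 1)) (cR S c) (v + one1)
        (emb u + one1))) : MvPolynomial ι (S.Q N)) =
        S.rd N ((toPre S).ker (Sd ι (e + 1)) (cR S c) (v + one1) (emb u + one1)) •
          monomial v 1 := by
      rw [smul_monomial, smul_eq_mul, mul_one]
    rw [h2, map_smul, Pi.smul_apply, smul_eq_mul]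
    by_cases h3 : v.degree ≡ bdeg u' [MOD (e + 1)]
    · rw [(H.kgr ι p (e + 1) K R (toPre S) hp4 hd0 hp1).1, map_zero, zero_mul]
      intro h4
      apply hne
      have h5 : (one1 : ι →₀ ℕ).degree = Fintype.card ι := by
        rw [one1, degree_oneA, Finset.card_univ]
      rw [map_add, map_add, degree_emb, h5] at h4
      exact (h3.symm.add_right _).trans h4
    · rw [hD' v u' h3, mul_zero]
  · obtain ⟨b, hb⟩ := BDiv' H.bdiv p e (toPre S) (S.rd N) (S.rho N hN1) (cR S c) N he
      (fun s => S.rd N (cR S c s)) (by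
        funext s
        rw [cR_pow S c hc]) D' (by
        refine RingHom.ext fun x => ?_
        exact S.rho_rd N hN1 x) hge1 hN hunit
    refine ⟨b, fun u' u => ?_⟩
    have h1 := hb u' u
    have h2 : (fun s => (toPre S).res (cR S c s)) = c := funext hres
    rw [h2] at h1
    refine ⟨?_, h1.2⟩
    rw [hBt]
    exact h1.1

include S H in
/-- the reduced matrix respects the grading -/
theorem bnum_grade (hSpan : S_Span) (he : 0 < e) (hp1 : p ≡ 1 [MOD (e + 1)]) (hge : P0 ι e ≤ p)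
    (c : (ι →₀ ℕ) → K) (hc : ∀ s, c s ^ p = c s) (hcs : ∀ s, s ∉ Sd ι (e + 1) → c s = 0)
    (hdisc : ∀ j ≤ Fintype.card ι * e + 1, (LM (form (e + 1) c) e he j).det ≠ 0)
    (u' u : ι → Fin e) (h : ¬ (wt u' ≡ wt u [MOD (e + 1)])) : bnum p e he c u' u = 0 := by
  have hge1 : 2 * (Fintype.card ι * e) + 4 ≤ p := (le_max_left _ _).trans hge
  set N := (p - 1) * wt u' + 1 + Fintype.card ι * e with hNdef
  have hN1 : 1 ≤ N := by omega
  have hp5 : 5 ≤ p := by
    have h4 : p ≠ 4 := by
      rintro rfl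
      exact absurd hp.out (by decide)
    omega
  obtain ⟨-, h1, b, h2⟩ := Bt_facts S H hSpan he hp1 hge c hc hcs hdisc N hN1 (by omega)
    (exists_BD S hSpan he hp5 c hc hcs hdisc N hN1)
  have h3 := (h2 u' u).1
  rw [h1 u' u h] at h3
  have h4 := Q_zero S hN1 (show (p - 1) * wt u' < N by omega) _ h3.symm
  rw [← (h2 u' u).2, h4, mul_zero]

include S H in
/-- the determinants of the parts of low Hodge level -/
theorem det_low (hSpan : S_Span) [Nonempty ι] (he : 0 < e) (hp1 : p ≡ 1 [MOD (e + 1)])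
    (hge : P0 ι e ≤ p)
    (c : (ι →₀ ℕ) → K) (hc : ∀ s, c s ^ p = c s) (hcs : ∀ s, s ∉ Sd ι (e + 1) → c s = 0)
    (hdisc : ∀ j ≤ Fintype.card ι * e + 1, (LM (form (e + 1) c) e he j).det ≠ 0)
    (hDl : ∀ j, Dl p e he c j ≠ 0)
    (j : ℕ) (hlev : levdet (bnum p e he c) ((e + 1) * j) ≠ 0) :
    ((Matrix.of fun u' u : Mm ι e => (Dl p e he c (bdeg u'.1))⁻¹ * bnum p e he c u'.1 u.1).submatrix
      (Subtype.val : {u : Mm ι e // hh u < j} → Mm ι e)
      (Subtype.val : {u : Mm ι e // hh u < j} → Mm ι e)).det ≠ 0 := by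
  classical
  have hgr := bnum_grade S H hSpan he hp1 hge c hc hcs hdisc
  set B : Matrix (lev ι e ((e + 1) * j)) (lev ι e ((e + 1) * j)) K :=
    (bnum p e he c).submatrix Subtype.val Subtype.val with hB
  have h1 : B.det ≠ 0 := hlev
  have h2 := Matrix.twoBlockTriangular_det B (fun u => (e + 1) ∣ wt u.1) (by
    intro u hu v hv
    change bnum p e he c u.1 v.1 = 0
    apply hgr
    intro h
    exact hu ((Nat.modEq_zero_iff_dvd.1 (h.trans (Nat.modEq_zero_iff_dvd.2 hv)))))
  rw [h2] at h1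
  have h3 := left_ne_zero_of_mul h1
  -- compare the two index types
  let eqv : {u : Mm ι e // hh u < j} ≃
      {u : lev ι e ((e + 1) * j) // (e + 1) ∣ wt u.1} :=
    { toFun := fun u => ⟨⟨u.1.1, by
        rw [wt_hh u.1]
        exact Nat.mul_le_mul_left _ u.2⟩, u.1.2⟩
      invFun := fun u => ⟨⟨u.1.1, u.2⟩, by
        have h4 := wt_hh (⟨u.1.1, u.2⟩ : Mm ι e)
        have h5 : wt u.1.1 ≤ (e + 1) * j := u.1.2
        have h6 : (e + 1) * (hh (⟨u.1.1, u.2⟩ : Mm ι e) + 1) ≤ (e + 1) * j := by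
          rw [← h4]
          exact h5
        exact Nat.le_of_mul_le_mul_left h6 (Nat.succ_pos e)⟩
      left_inv := fun u => rfl
      right_inv := fun u => rfl }
  have h4 : (Matrix.of fun u' u : Mm ι e => (Dl p e he c (bdeg u'.1))⁻¹ *
      bnum p e he c u'.1 u.1).submatrix
      (Subtype.val : {u : Mm ι e // hh u < j} → Mm ι e)
      (Subtype.val : {u : Mm ι e // hh u < j} → Mm ι e) =
      Matrix.diagonal (fun u : {u : Mm ι e // hh u < j} => (Dl p e he c (bdeg u.1.1))⁻¹) *
        (B.toSquareBlockProp (fun u => (e + 1) ∣ wt u.1)).submatrix eqv eqv := by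
    ext u v
    rw [Matrix.diagonal_mul]
    rfl
  rw [h4, Matrix.det_mul, Matrix.det_diagonal, Matrix.det_submatrix_equiv_self]
  exact mul_ne_zero (Finset.prod_ne_zero_iff.2 fun u _ => inv_ne_zero (hDl _)) h3

end

theorem card_Mm_lt {e p : ℕ} (hge : P0 ι e ≤ p) : Fintype.card (Mm ι e) < p := by
  have h1 : Fintype.card (Mm ι e) ≤ Fintype.card (ι → Fin e) :=
    Fintype.card_le_of_injective (Subtype.val : Mm ι e → ι → Fin e) Subtype.val_injective
  rw [Fintype.card_fun, Fintype.card_fin] at h1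
  have : e ^ Fintype.card ι + 1 ≤ p := (le_max_right _ _).trans hge
  omega

section

variable {p e : ℕ} [hp : Fact p.Prime] {K R : Type} [Field K] [IsAlgClosed K] [CharP K p]
  [CommRing R] [IsDomain R] (S : Setup p (e + 1) K R)

include S in
/-- a hypersurface outside the exceptional set is ordinary in all slopes -/
theorem good (H : Hyp) (hPT : S_PT) (hSpan : S_Span) (hNew : S_New) [Nonempty ι] (he : 0 < e)
    (hp1 : p ≡ 1 [MOD (e + 1)])
    (hge : P0 ι e ≤ p) (c : (ι →₀ ℕ) → K) (hc : ∀ s, c s ^ p = c s)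
    (hcs : ∀ s, s ∉ Sd ι (e + 1) → c s = 0)
    (hdisc : ∀ j ≤ Fintype.card ι * e + 1, (LM (form (e + 1) c) e he j).det ≠ 0)
    (hlev : ∀ j ≤ Fintype.card ι * e, levdet (bnum p e he c) j ≠ 0) :
    ∃ C : ℕ → ℚ, C 0 = 1 ∧
      (∀ k : ℕ, ((k : ℚ) + 1) * C (k + 1) = -∑ i ∈ Finset.range (k + 1),
        (Sta ι p (form (e + 1) c) (i + 1) : ℚ) /
          (((p : ℚ) ^ (i + 1) - 1) * (p : ℚ) ^ (i + 1)) * C (k - i)) ∧
      (∀ k, Fintype.card (Mm ι e) < k → C k = 0) ∧
      (∀ k j : ℕ, C k ≠ 0 →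
        ((j * k : ℕ) : ℤ) - ((∑ u : Mm ι e, (j - hh u) : ℕ) : ℤ) ≤ padicValRat p (C k)) ∧
      (∀ j : ℕ, C (Finset.univ.filter (fun u : Mm ι e => hh u < j)).card ≠ 0 ∧
        padicValRat p (C (Finset.univ.filter (fun u : Mm ι e => hh u < j)).card) =
          ((∑ u ∈ Finset.univ.filter (fun u : Mm ι e => hh u < j), hh u : ℕ) : ℤ)) := by
  classical
  have hge1 : 2 * (Fintype.card ι * e) + 4 ≤ p := (le_max_left _ _).trans hge
  have hn : 1 ≤ Fintype.card ι := Fintype.card_pos
  have hn1 : 1 ≤ Fintype.card ι * e := Nat.mul_pos hn he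
  have hp5 : 5 ≤ p := by omega
  have hDl : ∀ j, Dl p e he c j ≠ 0 :=
    (Bt_facts S H hSpan he hp1 hge c hc hcs hdisc (Fintype.card ι * e) hn1 le_rfl
      (exists_BD S hSpan he hp5 c hc hcs hdisc _ hn1)).1
  refine hNew p (e + 1) K R (toPre S) (Mm ι e) hh (Sta ι p (form (e + 1) c))
    (Matrix.of fun u' u : Mm ι e => (Dl p e he c (bdeg u'.1))⁻¹ * bnum p e he c u'.1 u.1)
    (Nat.succ_pos e) (card_Mm_lt hge) ?_ ?_
  · intro N
    set M := N + Fintype.card ι * e with hM
    have hM1 : 1 ≤ M := by omega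
    have hBD := exists_BD S hSpan he hp5 c hc hcs hdisc M hM1
    obtain ⟨-, hgr, b, hb⟩ := Bt_facts S H hSpan he hp1 hge c hc hcs hdisc M hM1 (by omega) hBD
    have hlift : ∀ u' u : Mm ι e, ∃ y : R, S.rd M y = b u'.1 u.1 := fun u' u =>
      Ideal.Quotient.mk_surjective (b u'.1 u.1)
    choose bR hbR using hlift
    refine ⟨bR, ?_, ?_⟩
    · intro u v
      have h1 := (hb u.1 v.1).2
      rw [← hbR, S.rho_rd] at h1
      rw [Matrix.of_apply, ← h1, ← mul_assoc, inv_mul_cancel₀ (hDl _), one_mul]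
      rfl
    · intro a ha
      have hPT' := hPT ι p e K R S M c hc hp1 hBD a ha
      set W : Matrix (Mm ι e) (Mm ι e) R :=
        Matrix.of fun u v => (-(p : R)) ^ (hh u + 1) * bR u v with hW
      have hent : ∀ u v : Mm ι e, Setup.Bt hBD 0 u.1 v.1 = S.rd M (W u v) := by
        intro u v
        have h0 : W u v = (-(p : R)) ^ (hh u + 1) * bR u v := rfl
        have h1 : (p - 1) * ((e + 1) * (hh u + 1)) = ((e + 1) * (p - 1)) * (hh u + 1) := by ring
        rw [(hb u.1 v.1).1, h0, map_mul, hbR, wt_hh u, h1, pow_mul (S.rd M S.lam), ← map_pow,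
          S.lam_pow, ← map_pow]
      have hsub : (Setup.Bt hBD 0).submatrix (Subtype.val : Mm ι e → ι → Fin e)
          (Subtype.val : Mm ι e → ι → Fin e) = (S.rd M).mapMatrix W :=
        funext fun u => funext fun v => hent u v
      have htr : ∑ u ∈ Finset.univ.filter (fun u : ι → Fin e => (e + 1) ∣ wt u),
          ((Setup.Bt hBD 0) ^ a) u u = S.rd M ((W ^ a).trace) := by
        have h1 : ((Setup.Bt hBD 0) ^ a).submatrix
            (Subtype.val : Mm ι e → ι → Fin e) (Subtype.val : Mm ι e → ι → Fin e) =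
            ((Setup.Bt hBD 0).submatrix (Subtype.val : Mm ι e → ι → Fin e)
            (Subtype.val : Mm ι e → ι → Fin e)) ^ a :=
          pow_sub (Setup.Bt hBD 0) (fun u : ι → Fin e => (e + 1) ∣ wt u) (by
            intro u v hu hv
            apply hgr
            intro h
            exact hv ((Nat.modEq_zero_iff_dvd.1 (h.symm.trans (Nat.modEq_zero_iff_dvd.2 hu))))) a
        have h5 : ((Setup.Bt hBD 0).submatrix (Subtype.val : Mm ι e → ι → Fin e)
            (Subtype.val : Mm ι e → ι → Fin e)) ^ a = (S.rd M).mapMatrix (W ^ a) := by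
          rw [hsub, map_pow]
          rfl
        have h2 : ∀ u : Mm ι e, ((Setup.Bt hBD 0) ^ a) u.1 u.1 = S.rd M ((W ^ a) u u) :=
          fun u => congrFun (congrFun (h1.trans h5) u) u
        have h4 : (W ^ a).trace = ∑ u : Mm ι e, (W ^ a) u u := rfl
        rw [h4, map_sum, Finset.sum_subtype (p := fun u : ι → Fin e => (e + 1) ∣ wt u) _
          (by intro x; simp)]
        exact Finset.sum_congr rfl fun u _ => h2 u
      rw [htr] at hPT'
      have hsign : ((-1 : S.Q M)) ^ Fintype.card ι * (-1) ^ Fintype.card ι = 1 := by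
        rw [← mul_pow, neg_one_mul, neg_neg, one_pow]
      have hkey : S.rd M (((Sta ι p (form (e + 1) c) a : ℤ) : R)) =
          S.rd M (((p : R) ^ a - 1) * (W ^ a).trace) := by
        have h1 : ((Sta ι p (form (e + 1) c) a : ℤ) : R) = (-1) ^ Fintype.card ι *
            (((p ^ a * Npts p (form (e + 1) c) a : ℕ) : R) -
              ((p ^ (a * Fintype.card ι) : ℕ) : R)) := by
          rw [Sta]
          push_cast
          ring
        rw [h1, map_mul, map_sub, map_natCast, map_natCast, hPT', map_mul, map_sub, map_pow,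
          map_pow, map_neg, map_one, map_natCast]
        push_cast
        linear_combination ((p : S.Q M) ^ a - 1) * S.rd M ((W ^ a).trace) * hsign
      rw [S.rd_eq] at hkey
      obtain ⟨z, hz⟩ := hkey
      refine ⟨S.lam ^ (Fintype.card ι * e) * z, ?_⟩
      rw [hM, pow_add] at hz
      change ((Sta ι p (form (e + 1) c) a : ℤ) : R) = ((p : R) ^ a - 1) * (W ^ a).trace +
        S.lam ^ N * (S.lam ^ (Fintype.card ι * e) * z)
      linear_combination hz
  · intro j
    rcases Nat.lt_or_ge (Fintype.card ι * e) ((e + 1) * j) with h | h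
    · -- all levels
      have hj : (e + 1) * ((Fintype.card ι * e) / (e + 1)) ≤ Fintype.card ι * e := Nat.mul_div_le _ _
      have h1 := det_low S H hSpan he hp1 hge c hc hcs hdisc hDl ((Fintype.card ι * e) / (e + 1))
        (hlev _ hj)
      let eqv : {u : Mm ι e // hh u < j} ≃ {u : Mm ι e // hh u < (Fintype.card ι * e) / (e + 1)} :=
        Equiv.subtypeEquivRight (fun u => by
          have h2 := wt_hh u
          have h3 := wt_le he u.1
          have h5 : hh u + 1 ≤ (Fintype.card ι * e) / (e + 1) := by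
            rw [Nat.le_div_iff_mul_le (Nat.succ_pos e), mul_comm, ← h2]
            exact h3
          have h6 : hh u + 1 ≤ j := by
            by_contra h7
            have h8 : (e + 1) * j ≤ (e + 1) * (hh u + 1) := Nat.mul_le_mul_left _ (by omega)
            omega
          omega)
      have h2 := Matrix.det_submatrix_equiv_self eqv
        ((Matrix.of fun u' u : Mm ι e => (Dl p e he c (bdeg u'.1))⁻¹ *
          bnum p e he c u'.1 u.1).submatrix
          (Subtype.val : {u : Mm ι e // hh u < (Fintype.card ι * e) / (e + 1)} → Mm ι e)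
          (Subtype.val : {u : Mm ι e // hh u < (Fintype.card ι * e) / (e + 1)} → Mm ι e))
      rw [← h2] at h1
      exact h1
    · exact det_low S H hSpan he hp1 hge c hc hcs hdisc hDl j (hlev _ h)

end

end Pool.Agent.H887.BK
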