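import Pool.Agent.H887.BK.E8
import Pool.Graph.R_pool_sql_team_seeded_3997aac3.Q267.ST.Zip

/-!
# Few members modulo `p` are not ordinary
-/

set_option autoImplicit false
set_option linter.unusedSectionVars false
set_option linter.unusedVariables false

namespace Pool.Agent.H887.BK

open MvPolynomial Pool.Agent.H425

/-- Counting along the orbits of a family of bijections. -/
theorem count_orb {κ : Type} [Field κ] [Fintype κ] [DecidableEq κ] {σ : Type} [Fintype σ]
    [DecidableEq σ] (g : κ → (σ → κ) → (σ → κ)) (hg : ∀ s, s ≠ 0 → Function.Bijective (g s))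
    (B E : Finset (σ → κ)) (x : ℝ) (hx : 0 ≤ x)
    (H : ∀ T : σ → κ, T ∉ E →
      (((Finset.univ : Finset κ).filter fun s => g s T ∈ B).card : ℝ) ≤ x) :
    ((Fintype.card κ : ℝ) - 1) * B.card ≤
      x * (Fintype.card κ : ℝ) ^ Fintype.card σ + Fintype.card κ * E.card := by
  classical
  have h1 : ∀ s ∈ (Finset.univ : Finset κ).erase 0,
      ((Finset.univ : Finset (σ → κ)).filter fun T => g s T ∈ B).card = B.card := by
    intro s hs
    have hs0 : s ≠ 0 := (Finset.mem_erase.mp hs).1
    refine Finset.card_bij (fun T _ => g s T) (fun T hT => (Finset.mem_filter.mp hT).2) ?_ ?_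
    · intro T _ T' _ h
      exact (hg s hs0).1 h
    · intro t ht
      obtain ⟨T, hT⟩ := (hg s hs0).2 t
      refine ⟨T, ?_, hT⟩
      rw [Finset.mem_filter]
      refine ⟨Finset.mem_univ _, ?_⟩
      rw [hT]
      exact ht
  have h2 : (((Finset.univ : Finset κ).erase 0).card : ℝ) = (Fintype.card κ : ℝ) - 1 := by
    rw [Finset.card_erase_of_mem (Finset.mem_univ _), Finset.card_univ,
      Nat.cast_sub (Fintype.card_pos), Nat.cast_one]
  calc ((Fintype.card κ : ℝ) - 1) * B.card
      = ∑ s ∈ (Finset.univ : Finset κ).erase 0,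
        (((Finset.univ : Finset (σ → κ)).filter fun T => g s T ∈ B).card : ℝ) := by
        rw [Finset.sum_congr rfl fun s hs => by rw [h1 s hs], Finset.sum_const, nsmul_eq_mul, h2]
    _ = ∑ T : σ → κ,
        ((((Finset.univ : Finset κ).erase 0).filter fun s => g s T ∈ B).card : ℝ) := by
        have := Finset.sum_card_bipartiteAbove_eq_sum_card_bipartiteBelow
          (s := (Finset.univ : Finset κ).erase 0) (t := (Finset.univ : Finset (σ → κ)))
          (fun s T => g s T ∈ B)
        unfold Finset.bipartiteAbove Finset.bipartiteBelow at this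
        exact_mod_cast this
    _ ≤ ∑ T : σ → κ, (x + if T ∈ E then (Fintype.card κ : ℝ) else 0) := by
        refine Finset.sum_le_sum fun T _ => ?_
        by_cases hT : T ∈ E
        · rw [if_pos hT]
          have h3 : (((Finset.univ : Finset κ).erase 0).filter
              fun s => g s T ∈ B).card ≤ Fintype.card κ := Finset.card_le_univ _
          have h4 : ((((Finset.univ : Finset κ).erase 0).filter
              fun s => g s T ∈ B).card : ℝ) ≤ Fintype.card κ := by
            exact_mod_cast h3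
          linarith
        · rw [if_neg hT, add_zero]
          refine le_trans ?_ (H T hT)
          exact_mod_cast Finset.card_le_card (Finset.filter_subset_filter _ (Finset.erase_subset _ _))
    _ = _ := by
        rw [Finset.sum_add_distrib, Finset.sum_const, nsmul_eq_mul, ← Finset.sum_filter,
          Finset.sum_const, nsmul_eq_mul, Finset.card_univ, Fintype.card_fun]
        have h3 : ((Finset.univ : Finset (σ → κ)).filter fun T => T ∈ E) = E := by
          ext T
          simp
        rw [h3]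
        push_cast
        ring

variable {ι : Type} [Fintype ι] [DecidableEq ι]

/-- the conditions which imply that the hypersurface is ordinary -/
def Nice (p e : ℕ) [Fact p.Prime] (he : 0 < e) {k : Type} [Field k] {Z : Sup ι e}
    (c : Par Z → k) : Prop :=
  (∀ i, c (pure' Z i) ≠ 0) ∧
  (∀ j ≤ Fintype.card ι * e + 1, (LM (form (e + 1) (qx c)) e he j).det ≠ 0) ∧
  ∀ j ≤ Fintype.card ι * e, levdet (bnum p e he (qx c)) j ≠ 0

open Classical in
/-- the substitution -/
noncomputable def act {k : Type} [Field k] {e : ℕ} {Z : Sup ι e} (t : k) (q : Par Z → k)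
    (s : Par Z) : k :=
  if ∃ i, s = pure' Z i then (q s)⁻¹ else t * q s

theorem act_bij {k : Type} [Field k] {e : ℕ} {Z : Sup ι e} (t : k) (ht : t ≠ 0) :
    Function.Bijective (act t : (Par Z → k) → (Par Z → k)) := by
  have h : ∀ (t : k), t ≠ 0 → ∀ q : Par Z → k, act t⁻¹ (act t q) = q := by
    intro t ht q
    funext s
    unfold act
    by_cases hs : ∃ i, s = pure' Z i
    · rw [if_pos hs, if_pos hs, inv_inv]
    · rw [if_neg hs, if_neg hs, ← mul_assoc, inv_mul_cancel₀ ht, one_mul]
  refine ⟨?_, ?_⟩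
  · intro q q' hqq
    rw [← h t ht q, ← h t ht q', hqq]
  · intro q
    refine ⟨act t⁻¹ q, ?_⟩
    have := h t⁻¹ (inv_ne_zero ht) q
    rwa [inv_inv] at this

theorem fam_act {k : Type} [Field k] {e : ℕ} {Z : Sup ι e} (t : k) (q : Par Z → k) :
    fam (e + 1) (fun i => (q (pure' Z i))⁻¹) (qx q) t = qx (act t q) := by
  funext s
  refine fam_cases (e + 1) (Nat.succ_pos e) s (fun i hi => ?_) (fun h => ?_)
  · rw [hi, fam_pure _ (Nat.succ_pos e), qx_pure, act, if_pos ⟨i, rfl⟩]
  · rw [fam_mixed _ _ _ _ _ h]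
    unfold qx
    by_cases hs : s ∈ Z.S
    · rw [dif_pos hs, dif_pos hs, act, if_neg]
      rintro ⟨i, hi⟩
      exact h ⟨i, congrArg Subtype.val hi⟩
    · rw [dif_neg hs, dif_neg hs, mul_zero]

theorem eval_fam {k : Type} [Field k] {e : ℕ} {Z : Sup ι e} (t : k) (q : Par Z → k) :
    (fun s => Polynomial.evalRingHom t (fam (e + 1) (fun i => Polynomial.C ((q (pure' Z i))⁻¹))
      (fun s => Polynomial.C (qx q s)) Polynomial.X s)) = qx (act t q) := by
  rw [← fam_act]
  funext s
  rw [map_fam _ _ (Nat.succ_pos e)]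
  congr 1
  · funext i
    exact Polynomial.eval_C
  · funext s
    exact Polynomial.eval_C
  · exact Polynomial.eval_X

theorem PL_eval (hNat : S_Nat) {k : Type} [Field k] (p e : ℕ) [Fact p.Prime] (he : 0 < e)
    {Z : Sup ι e} (q : Par Z → k) (j : ℕ) (t : k) :
    (PL p e he q j).eval t = levdet (bnum p e he (qx (act t q))) j := by
  have h := (hNat ι (Polynomial k) k (Polynomial.evalRingHom t) p e he
    (fam (e + 1) (fun i => Polynomial.C ((q (pure' Z i))⁻¹)) (fun s => Polynomial.C (qx q s))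
      Polynomial.X)).2.2.2 j
  rw [eval_fam] at h
  exact h

theorem DP_eval (p : ℕ) [Fact p.Prime] (hNat : S_Nat) {k : Type} [Field k] (e : ℕ) (he : 0 < e)
    {Z : Sup ι e} (q : Par Z → k) (j : ℕ) (t : k) :
    ((LM (form (e + 1) (fam (e + 1) (fun i => Polynomial.C ((q (pure' Z i))⁻¹))
      (fun s => Polynomial.C (qx q s)) Polynomial.X)) e he j).det).eval t =
      (LM (form (e + 1) (qx (act t q))) e he j).det := by
  have h := (hNat ι (Polynomial k) k (Polynomial.evalRingHom t) p e he
    (fam (e + 1) (fun i => Polynomial.C ((q (pure' Z i))⁻¹)) (fun s => Polynomial.C (qx q s))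
      Polynomial.X)).1 j
  rw [eval_fam] at h
  exact h

open Classical in
theorem disc_count (hNat : S_Nat) (hLM0 : S_LM0) (p e : ℕ) [Fact p.Prime] (he : 0 < e)
    (hpe : ¬ p ∣ e + 1) {Z : Sup ι e} (q : Par Z → ZMod p) (hq : ∀ i, q (pure' Z i) ≠ 0) (j C : ℕ)
    (hC : ((LM (form (e + 1) (fam (e + 1) (fun i => Polynomial.C ((q (pure' Z i))⁻¹))
      (fun s => Polynomial.C (qx q s)) Polynomial.X)) e he j).det).natDegree ≤ C) :
    ((Finset.univ : Finset (ZMod p)).filter fun t =>
      (LM (form (e + 1) (qx (act t q))) e he j).det = 0).card ≤ C := by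
  set P := (LM (form (e + 1) (fam (e + 1) (fun i => Polynomial.C ((q (pure' Z i))⁻¹))
      (fun s => Polynomial.C (qx q s)) Polynomial.X)) e he j).det with hP
  have h0 : P ≠ 0 := by
    intro h
    have h1 := DP_eval p hNat e he q j 0
    rw [← hP, h, Polynomial.eval_zero, ← fam_act, hLM0, Matrix.det_diagonal] at h1
    refine (Finset.prod_ne_zero_iff.2 fun w _ => Finset.prod_ne_zero_iff.2 fun i _ => ?_) h1.symm
    refine pow_ne_zero _ (mul_ne_zero ?_ (inv_ne_zero (hq i)))
    intro h2
    exact hpe ((ZMod.natCast_eq_zero_iff _ _).1 h2)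
  refine le_trans ?_ hC
  refine le_trans ?_ (Polynomial.card_roots' P)
  refine le_trans ?_ (Multiset.toFinset_card_le _)
  refine Finset.card_le_card fun t ht => ?_
  rw [Multiset.mem_toFinset, Polynomial.mem_roots h0, Polynomial.IsRoot.def,
    DP_eval p hNat e he q j t]
  exact (Finset.mem_filter.1 ht).2

theorem pow_dvd_of_modEq {p e : ℕ} (hp : p.Prime) (he : 0 < e) (h1 : p ≡ 1 [MOD (e + 1)]) :
    ¬ p ∣ (e + 1) := by
  intro h
  have hd0 : 0 < e + 1 := Nat.succ_pos e
  have h2 := Nat.le_of_dvd hd0 h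
  have h3 : p % (e + 1) = 1 % (e + 1) := h1
  rcases Nat.lt_or_ge p (e + 1) with h4 | h4
  · rw [Nat.mod_eq_of_lt h4, Nat.mod_eq_of_lt (by omega)] at h3
    exact hp.one_lt.ne' h3
  · have h5 : p = e + 1 := le_antisymm h2 h4
    rw [← h5, Nat.mod_self, Nat.mod_eq_of_lt hp.one_lt] at h3
    exact absurd h3 (by norm_num)

/-- a nonzero integral polynomial is nonzero modulo large primes -/
theorem map_ne_zero_large {σ : Type} (Q : MvPolynomial σ ℤ) (hQ : Q ≠ 0) :
    ∃ p₁ : ℕ, ∀ p : ℕ, p₁ ≤ p → map (Int.castRingHom (ZMod p)) Q ≠ 0 := by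
  obtain ⟨s, hs⟩ := MvPolynomial.ne_zero_iff.1 hQ
  refine ⟨(coeff s Q).natAbs + 1, fun p hp h => ?_⟩
  have h1 := congrArg (coeff s) h
  rw [coeff_map, coeff_zero] at h1
  have h2 : ((coeff s Q : ℤ) : ZMod p) = 0 := h1
  rw [ZMod.intCast_zmod_eq_zero_iff_dvd] at h2
  have h3 := Int.natAbs_dvd_natAbs.2 h2
  rw [Int.natAbs_natCast] at h3
  have h4 := Nat.le_of_dvd (Int.natAbs_pos.2 hs) h3
  omega

open Classical in
/-- **Few members are bad modulo `p`.** -/
theorem few (H : Hyp) (hst : Pool.Agent.Q267.ST.S_Soft) {e : ℕ} (he : 0 < e) (Z : Sup ι e)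
    (ε : ℝ) (hε : 0 < ε) :
    ∃ p₀ : ℕ, ∀ (p : ℕ) [Fact p.Prime], p₀ ≤ p → p ≡ 1 [MOD (e + 1)] →
      ∀ B : Finset (Par Z → ZMod p), (∀ c ∈ B, ¬ Nice p e he c) →
        (B.card : ℝ) ≤ ε * (p : ℝ) ^ Fintype.card (Par Z) := by
  set n := Fintype.card ι * e with hn
  obtain ⟨Cd, hCd⟩ := H.deg ι e he
  set ε' : ℝ := ε / (4 * (n + 1)) with hε'
  have hn1 : (0 : ℝ) < 4 * ((n : ℝ) + 1) := by positivity
  have hε'0 : 0 < ε' := div_pos hε hn1
  choose P1 Q1 hQ1 hline using fun j : ℕ => line H hst he Z j ε' hε'0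
  set Qt : MvPolynomial (Par Z) ℤ := (∏ j ∈ Finset.range (n + 1), Q1 j) *
    ∏ i, X (pure' Z i) with hQt
  have hQt0 : Qt ≠ 0 := by
    refine mul_ne_zero (Finset.prod_ne_zero_iff.2 fun j _ => hQ1 j)
      (Finset.prod_ne_zero_iff.2 fun i _ => X_ne_zero _)
  obtain ⟨p₁, hp₁⟩ := map_ne_zero_large Qt hQt0
  set D := Qt.totalDegree with hD
  obtain ⟨p₂, hp₂⟩ := exists_nat_ge ((4 * ((n + 2) * Cd + D)) / ε : ℝ)
  refine ⟨max (max 2 p₂) (max p₁ ((Finset.range (n + 1)).sup P1)), ?_⟩
  intro p hp hge h1 B hB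
  have hge2 : 2 ≤ p := (le_max_left _ _).trans ((le_max_left _ _).trans hge)
  have hgep₂ : p₂ ≤ p := (le_max_right _ _).trans ((le_max_left _ _).trans hge)
  have hgep₁ : p₁ ≤ p := (le_max_left _ _).trans ((le_max_right _ _).trans hge)
  have hgeP : ∀ j ≤ n, P1 j ≤ p := fun j hj =>
    (Finset.le_sup (f := P1) (Finset.mem_range.2 (Nat.lt_succ_of_le hj))).trans
      ((le_max_right _ _).trans ((le_max_right _ _).trans hge))
  have hpe := pow_dvd_of_modEq hp.out he h1
  have hcp : Fintype.card (ZMod p) = p := ZMod.card p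
  set E : Finset (Par Z → ZMod p) := Finset.univ.filter fun q =>
    eval q (map (Int.castRingHom (ZMod p)) Qt) = 0 with hE
  set x : ℝ := (n + 2) * Cd + (n + 1) * (ε' * p) with hx
  have hp0 : (0 : ℝ) < p := by exact_mod_cast hp.out.pos
  have hx0 : 0 ≤ x := by
    have : 0 ≤ ε' * (p : ℝ) := mul_nonneg hε'0.le hp0.le
    positivity
  have hcount := count_orb (fun t q => act t q) (fun t ht => act_bij t ht) B E x hx0 (by
    intro q hq
    have hev : eval₂ (Int.castRingHom (ZMod p)) q Qt ≠ 0 := by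
      intro h
      apply hq
      rw [hE, Finset.mem_filter, eval_map]
      exact ⟨Finset.mem_univ _, h⟩
    rw [hQt, eval₂_mul, eval₂_prod, eval₂_prod] at hev
    have hev1 : ∀ j ≤ n, eval₂ (Int.castRingHom (ZMod p)) q (Q1 j) ≠ 0 := fun j hj =>
      (Finset.prod_ne_zero_iff.1 (left_ne_zero_of_mul hev)) j
        (Finset.mem_range.2 (Nat.lt_succ_of_le hj))
    have hpure : ∀ i, q (pure' Z i) ≠ 0 := by
      intro i
      have := (Finset.prod_ne_zero_iff.1 (right_ne_zero_of_mul hev)) i (Finset.mem_univ i)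
      rwa [eval₂_X] at this
    set T1 : ℕ → Finset (ZMod p) := fun j => Finset.univ.filter fun t =>
      (LM (form (e + 1) (qx (act t q))) e he j).det = 0 with hT1
    set T2 : ℕ → Finset (ZMod p) := fun j => Finset.univ.filter fun t =>
      levdet (bnum p e he (qx (act t q))) j = 0 with hT2
    have hsub : (Finset.univ.filter fun t => act t q ∈ B) ⊆
        ((Finset.range (n + 2)).biUnion T1) ∪ ((Finset.range (n + 1)).biUnion T2) := by
      intro t ht
      rw [Finset.mem_filter] at ht
      have h2 := hB _ ht.2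
      rw [Finset.mem_union, Finset.mem_biUnion, Finset.mem_biUnion]
      by_contra hcon
      push Not at hcon
      apply h2
      refine ⟨?_, ?_, ?_⟩
      · intro i
        rw [act, if_pos ⟨i, rfl⟩]
        exact inv_ne_zero (hpure i)
      · intro j hj hz
        exact hcon.1 j (Finset.mem_range.2 (by omega)) (Finset.mem_filter.2 ⟨Finset.mem_univ _, hz⟩)
      · intro j hj hz
        exact hcon.2 j (Finset.mem_range.2 (by omega)) (Finset.mem_filter.2 ⟨Finset.mem_univ _, hz⟩)
    have hc1 : ∀ j ∈ Finset.range (n + 2), (T1 j).card ≤ Cd := by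
      intro j hj
      exact disc_count H.nat H.lm0 p e he hpe q hpure j Cd
        ((hCd p (ZMod p) _ _).2 j (by have := Finset.mem_range.1 hj; omega))
    have hc2 : ∀ j ∈ Finset.range (n + 1), ((T2 j).card : ℝ) ≤ ε' * p := by
      intro j hj
      have hj' : j ≤ n := by have := Finset.mem_range.1 hj; omega
      refine hline j p (hgeP j hj') h1 q hpure (hev1 j hj') (T2 j) ?_
      intro t ht
      rw [PL_eval H.nat]
      exact (Finset.mem_filter.1 ht).2
    have h3 : ((Finset.univ.filter fun t => act t q ∈ B).card : ℝ) ≤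
        ∑ j ∈ Finset.range (n + 2), ((T1 j).card : ℝ) +
        ∑ j ∈ Finset.range (n + 1), ((T2 j).card : ℝ) := by
      have h4 := ((Finset.card_le_card hsub).trans (Finset.card_union_le _ _)).trans
        (add_le_add Finset.card_biUnion_le Finset.card_biUnion_le)
      exact_mod_cast h4
    refine h3.trans ?_
    rw [hx]
    refine add_le_add ?_ ?_
    · refine (Finset.sum_le_card_nsmul _ _ (Cd : ℝ) fun j hj => by exact_mod_cast hc1 j hj).trans ?_
      rw [Finset.card_range, nsmul_eq_mul]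
      push_cast
      exact le_rfl
    · refine (Finset.sum_le_card_nsmul _ _ (ε' * p) fun j hj => hc2 j hj).trans ?_
      rw [Finset.card_range, nsmul_eq_mul]
      push_cast
      exact le_rfl)
  have hEc : (E.card : ℝ) ≤ D / p * (p : ℝ) ^ Fintype.card (Par Z) := by
    have h2 := Pool.Agent.Q267.ST.zip (map (Int.castRingHom (ZMod p)) Qt) (hp₁ p hgep₁)
    rw [hcp] at h2
    have h3 : (E.card : ℝ) ≤ (((map (Int.castRingHom (ZMod p)) Qt).totalDegree : ℕ) : ℝ) / p *
        (p : ℝ) ^ Fintype.card (Par Z) := by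
      refine le_trans (le_of_eq ?_) h2
      rw [hE]
      congr
    refine h3.trans ?_
    have h4 : (((map (Int.castRingHom (ZMod p)) Qt).totalDegree : ℕ) : ℝ) ≤ D := by
      have h5 : (map (Int.castRingHom (ZMod p)) Qt).totalDegree ≤ D := by
        rw [hD, totalDegree, totalDegree]
        exact Finset.sup_mono (support_map_subset _ _)
      exact_mod_cast h5
    exact mul_le_mul_of_nonneg_right (div_le_div_of_nonneg_right h4 hp0.le) (by positivity)
  rw [hcp] at hcount
  have hpZ : (0 : ℝ) < (p : ℝ) ^ Fintype.card (Par Z) := by positivity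
  have h2 : ((p : ℝ) - 1) * B.card ≤ (x + D) * (p : ℝ) ^ Fintype.card (Par Z) := by
    refine hcount.trans ?_
    have h3 : (p : ℝ) * E.card ≤ D * (p : ℝ) ^ Fintype.card (Par Z) := by
      refine (mul_le_mul_of_nonneg_left hEc hp0.le).trans (le_of_eq ?_)
      field_simp
    linarith
  have h3 : (p : ℝ) / 2 ≤ (p : ℝ) - 1 := by
    have : (2 : ℝ) ≤ p := by exact_mod_cast hge2
    linarith
  have h4 : (p : ℝ) / 2 * B.card ≤ (x + D) * (p : ℝ) ^ Fintype.card (Par Z) :=
    (mul_le_mul_of_nonneg_right h3 (Nat.cast_nonneg _)).trans h2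
  have h5 : x + D ≤ ε * p / 2 := by
    have h6 : (n + 1 : ℝ) * (ε' * p) = ε * p / 4 := by
      rw [hε']
      field_simp
    have h7 : (4 * ((n + 2) * Cd + D) : ℝ) ≤ ε * p := by
      have h8 : ((4 * ((n + 2) * Cd + D)) / ε : ℝ) ≤ p := hp₂.trans (by exact_mod_cast hgep₂)
      rw [div_le_iff₀ hε] at h8
      linarith
    rw [hx, h6]
    linarith
  have h6 : (p : ℝ) / 2 * B.card ≤ (p : ℝ) / 2 * (ε * (p : ℝ) ^ Fintype.card (Par Z)) := by
    refine h4.trans ?_
    calc (x + D) * (p : ℝ) ^ Fintype.card (Par Z) ≤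
        (ε * p / 2) * (p : ℝ) ^ Fintype.card (Par Z) := mul_le_mul_of_nonneg_right h5 hpZ.le
      _ = _ := by ring
  exact le_of_mul_le_mul_left h6 (by positivity)

end Pool.Agent.H887.BK
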