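import Pool.Agent.H887.BK.E8
import Pool.Agent.H887.BK.D3

/-!
# The Newton polygon of a summand cut out by symmetries
-/

set_option autoImplicit false
set_option linter.unusedSectionVars false
set_option linter.unusedVariables false

namespace Pool.Agent.H887.BK

open MvPolynomial Pool.Agent.H425

/-- the further parts -/
structure HypW : Prop where
  ptw : S_PTw
  bgr : S_BGr
  rdgr : S_RdGr
  kgw : S_KGw

/-- the monomials of a summand of the primitive cohomology -/
def Mp (ι : Type) [Fintype ι] (e : ℕ) (P : (ι → Fin e) → Prop) : Type :=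
  {u : ι → Fin e // (e + 1) ∣ wt u ∧ P u}

instance (ι : Type) [Fintype ι] [DecidableEq ι] (e : ℕ) (P : (ι → Fin e) → Prop)
    [DecidablePred P] : Fintype (Mp ι e P) :=
  inferInstanceAs (Fintype {u : ι → Fin e // (e + 1) ∣ wt u ∧ P u})

instance (ι : Type) [Fintype ι] (e : ℕ) (P : (ι → Fin e) → Prop) : DecidableEq (Mp ι e P) :=
  inferInstanceAs (DecidableEq {u : ι → Fin e // (e + 1) ∣ wt u ∧ P u})

/-- the Hodge level -/
def hp {ι : Type} [Fintype ι] {e : ℕ} {P : (ι → Fin e) → Prop} (u : Mp ι e P) : ℕ :=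
  wt u.1 / (e + 1) - 1

/-- a symmetry of the form with coefficients `c` -/
def SymOn {ι : Type} [Fintype ι] [DecidableEq ι] {K : Type} [CommRing K] (e : ℕ)
    (c : (ι →₀ ℕ) → K) (β : ι → K) : Prop :=
  (∀ i, β i ^ (e + 1) = 1) ∧ ∀ s ∈ Sd ι (e + 1), c s ≠ 0 → ∏ i, β i ^ (s i) = 1

variable {ι : Type} [Fintype ι] [DecidableEq ι]

theorem wt_hp [Nonempty ι] {e : ℕ} {P : (ι → Fin e) → Prop} (u : Mp ι e P) :
    wt u.1 = (e + 1) * (hp u + 1) :=
  wt_hh (⟨u.1, u.2.1⟩ : Mm ι e)

section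

variable {p e : ℕ} [hp' : Fact p.Prime] {K R : Type} [Field K] [CommRing R] [IsDomain R]
  (S : Setup p (e + 1) K R)

theorem prod_succ {A : Type} [CommRing A] (β : ι → A) (u : ι → ℕ) :
    ∏ i, β i ^ (u i + 1) = (∏ i, β i ^ (u i)) * ∏ i, β i := by
  rw [← Finset.prod_mul_distrib]
  exact Finset.prod_congr rfl fun i _ => pow_succ _ _

/-- the matrix of Frobenius respects the symmetries -/
theorem Bt_sym (H : Hyp) (W : HypW) (hSpan : S_Span) (he : 0 < e) (hp1 : p ≡ 1 [MOD (e + 1)])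
    (hge : P0 ι e ≤ p)
    (c : (ι →₀ ℕ) → K) (hc : ∀ s, c s ^ p = c s) (hcs : ∀ s, s ∉ Sd ι (e + 1) → c s = 0)
    (hdisc : ∀ j ≤ Fintype.card ι * e + 1, (LM (form (e + 1) c) e he j).det ≠ 0) (N : ℕ)
    (hN1 : 1 ≤ N) (D : S.BD N (form (e + 1) c) e emb) (β : ι → K)
    (hβ : SymOn e c β) (u' u : ι → Fin e) (hne : ∏ i, β i ^ (u' i : ℕ) ≠ ∏ i, β i ^ (u i : ℕ)) :
    Setup.Bt D 0 u' u = 0 := by
  classical
  have hd0 : 0 < e + 1 := Nat.succ_pos e
  have hge1 : 2 * (Fintype.card ι * e) + 4 ≤ p := (le_max_left _ _).trans hge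
  have hp4 : 4 ≤ p := by omega
  have hall := (hSpan ι K e he (form (e + 1) c) (form_homog _ _) hdisc).1
  have hres : ∀ s, S.res (cR S c s) = c s := res_cR S c hcs
  have hunit : ∀ j, IsUnit (LM (form (e + 1) (fun s => S.rd N (cR S c s)) :
      MvPolynomial ι (S.Q N)) e he j).det := by
    intro j
    apply isUnit_Q S N hN1
    rw [(H.nat ι (S.Q N) K (S.rho N hN1) p e he (fun s => S.rd N (cR S c s))).1 j]
    have h1 : (fun s => S.rho N hN1 (S.rd N (cR S c s))) = c := by
      funext s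
      rw [S.rho_rd, hres]
    rw [h1]
    exact hall j
  obtain ⟨D', -, hD'⟩ := H.rd ι (S.Q N) e he (form (e + 1) (fun s => S.rd N (cR S c s)))
    (form_homog _ _) hunit
  have hβ0 : ∀ i, β i ≠ 0 := by
    intro i h
    have h1 := hβ.1 i
    rw [h, zero_pow hd0.ne'] at h1
    exact zero_ne_one h1
  have hprod0 : ∏ i, β i ≠ 0 := Finset.prod_ne_zero_iff.2 fun i _ => hβ0 i
  have hcR0 : ∀ s ∈ Sd ι (e + 1), cR S c s ≠ 0 → c s ≠ 0 := by
    intro s hs h h0
    apply h
    rw [cR_eq S c s hs, h0, S.tau_zero]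
  rw [Bt_eq S c hc H.rdU N D D', Bm, kop_monomial, map_sum, Finset.sum_apply]
  refine Finset.sum_eq_zero fun v _ => ?_
  have h2 : (monomial v (S.rd N ((toPre S).ker (Sd ι (e + 1)) (cR S c) (v + one1)
      (emb u + one1))) : MvPolynomial ι (S.Q N)) =
      S.rd N ((toPre S).ker (Sd ι (e + 1)) (cR S c) (v + one1) (emb u + one1)) •
        monomial v 1 := by
    rw [smul_monomial, smul_eq_mul, mul_one]
  rw [h2, map_smul, Pi.smul_apply, smul_eq_mul]
  by_cases h3 : ∏ i, β i ^ (v i) = ∏ i, β i ^ (u i : ℕ)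
  · -- the coordinates vanish
    have h4 := W.rdgr ι (S.Q N) e _ D' (fun i => S.rd N (S.tau (β i))) (fun i => by
        rw [← map_pow, ← map_pow, hβ.1 i, map_one, map_one]) (fun s hs => by
        rw [mem_support_iff, coeff_form] at hs
        have hs1 : s ∈ Sd ι (e + 1) := by
          by_contra h
          exact hs (if_neg h)
        rw [if_pos hs1] at hs
        have hs2 : cR S c s ≠ 0 := by
          intro h
          exact hs (by rw [h, map_zero])
        have h5 := hβ.2 s hs1 (hcR0 s hs1 hs2)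
        have h6 : ∏ i, S.rd N (S.tau (β i)) ^ (s i) = S.rd N (S.tau (∏ i, β i ^ (s i))) := by
          rw [map_prod, map_prod]
          exact Finset.prod_congr rfl fun i _ => by rw [map_pow, map_pow]
        rw [h6, h5, map_one, map_one]) v u'
    have h5 : IsUnit (∏ i, S.rd N (S.tau (β i)) ^ (v i) -
        ∏ i, S.rd N (S.tau (β i)) ^ (u' i : ℕ)) := by
      apply isUnit_Q S N hN1
      rw [map_sub, map_prod, map_prod]
      simp only [map_pow, S.rho_rd, S.res_tau]
      rw [sub_ne_zero, h3]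
      exact fun h => hne h.symm
    rw [(h5.mul_right_eq_zero).1 h4, mul_zero]
  · -- the kernel vanishes
    have h4 := W.kgw ι p (e + 1) K R (toPre S) (cR S c) K β hp4 hd0 hp1 hβ.1
      (fun s hs h => hβ.2 s hs (hcR0 s hs h)) (v + one1) (emb u + one1) (by
        intro h
        apply h3
        have hone : ∀ i, (one1 : ι →₀ ℕ) i = 1 := by
          intro i
          rw [one1, oneA_apply, if_pos (Finset.mem_univ i)]
        simp only [Finsupp.add_apply, hone, emb_apply] at h
        rw [prod_succ, prod_succ β (fun i => (u i : ℕ))] at h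
        exact mul_right_cancel₀ hprod0 h)
    rw [h4, map_zero, zero_mul]

end

section

variable {p e : ℕ} [hp' : Fact p.Prime] {K R : Type} [Field K] [CharP K p] [CommRing R] [IsDomain R]
  (S : Setup p (e + 1) K R)

include S in
/-- the determinants of the parts of low Hodge level -/
theorem det_lowP (H : Hyp) (W : HypW) (hSpan : S_Span) [Nonempty ι] (he : 0 < e)
    (hp1 : p ≡ 1 [MOD (e + 1)])
    (hge : P0 ι e ≤ p)
    (c : (ι →₀ ℕ) → K) (hc : ∀ s, c s ^ p = c s) (hcs : ∀ s, s ∉ Sd ι (e + 1) → c s = 0)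
    (hdisc : ∀ j ≤ Fintype.card ι * e + 1, (LM (form (e + 1) c) e he j).det ≠ 0)
    (hDl : ∀ j, Dl p e he c j ≠ 0) (P : (ι → Fin e) → Prop) [DecidablePred P]
    (hsep : ∀ u' u : ι → Fin e, ¬ P u' → P u → ∃ β : ι → K, SymOn e c β ∧
      ∏ i, β i ^ (u' i : ℕ) ≠ ∏ i, β i ^ (u i : ℕ))
    (j : ℕ) (hlev : levdet (bnum p e he c) ((e + 1) * j) ≠ 0) :
    ((Matrix.of fun u' u : Mp ι e P =>
        (Dl p e he c (bdeg u'.1))⁻¹ * bnum p e he c u'.1 u.1).submatrix
      (Subtype.val : {u : Mp ι e P // hp u < j} → Mp ι e P)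
      (Subtype.val : {u : Mp ι e P // hp u < j} → Mp ι e P)).det ≠ 0 := by
  classical
  have hgr := bnum_grade S H hSpan he hp1 hge c hc hcs hdisc
  set B : Matrix (lev ι e ((e + 1) * j)) (lev ι e ((e + 1) * j)) K :=
    (bnum p e he c).submatrix Subtype.val Subtype.val with hB
  have h1 : B.det ≠ 0 := hlev
  have h2 := Matrix.twoBlockTriangular_det B (fun u => (e + 1) ∣ wt u.1 ∧ P u.1) (by
    intro u hu v hv
    change bnum p e he c u.1 v.1 = 0
    by_cases hw : (e + 1) ∣ wt u.1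
    · have hP : ¬ P u.1 := fun h => hu ⟨hw, h⟩
      obtain ⟨β, hβ, hne⟩ := hsep u.1 v.1 hP hv.2
      exact W.bgr ι K p e he c β hp1 hβ.1 hβ.2 u.1 v.1 hne
    · apply hgr
      intro h
      exact hw ((Nat.modEq_zero_iff_dvd.1 (h.trans (Nat.modEq_zero_iff_dvd.2 hv.1)))))
  rw [h2] at h1
  have h3 := left_ne_zero_of_mul h1
  -- compare the two index types
  let eqv : {u : Mp ι e P // hp u < j} ≃
      {u : lev ι e ((e + 1) * j) // (e + 1) ∣ wt u.1 ∧ P u.1} :=
    { toFun := fun u => ⟨⟨u.1.1, by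
        rw [wt_hp u.1]
        exact Nat.mul_le_mul_left _ u.2⟩, u.1.2⟩
      invFun := fun u => ⟨⟨u.1.1, u.2⟩, by
        have h4 := wt_hp (⟨u.1.1, u.2⟩ : Mp ι e P)
        have h5 : wt u.1.1 ≤ (e + 1) * j := u.1.2
        have h6 : (e + 1) * (hp (⟨u.1.1, u.2⟩ : Mp ι e P) + 1) ≤ (e + 1) * j := by
          rw [← h4]
          exact h5
        exact Nat.le_of_mul_le_mul_left h6 (Nat.succ_pos e)⟩
      left_inv := fun u => rfl
      right_inv := fun u => rfl }
  have h4 : (Matrix.of fun u' u : Mp ι e P => (Dl p e he c (bdeg u'.1))⁻¹ *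
      bnum p e he c u'.1 u.1).submatrix
      (Subtype.val : {u : Mp ι e P // hp u < j} → Mp ι e P)
      (Subtype.val : {u : Mp ι e P // hp u < j} → Mp ι e P) =
      Matrix.diagonal (fun u : {u : Mp ι e P // hp u < j} => (Dl p e he c (bdeg u.1.1))⁻¹) *
        (B.toSquareBlockProp (fun u => (e + 1) ∣ wt u.1 ∧ P u.1)).submatrix eqv eqv := by
    ext u v
    rw [Matrix.diagonal_mul]
    rfl
  rw [h4, Matrix.det_mul, Matrix.det_diagonal, Matrix.det_submatrix_equiv_self]
  exact mul_ne_zero (Finset.prod_ne_zero_iff.2 fun u _ => inv_ne_zero (hDl _)) h3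

include S in
/-- the determinants of the parts of low Hodge level -/
theorem det_allP (H : Hyp) (W : HypW) (hSpan : S_Span) [Nonempty ι] (he : 0 < e)
    (hp1 : p ≡ 1 [MOD (e + 1)])
    (hge : P0 ι e ≤ p)
    (c : (ι →₀ ℕ) → K) (hc : ∀ s, c s ^ p = c s) (hcs : ∀ s, s ∉ Sd ι (e + 1) → c s = 0)
    (hdisc : ∀ j ≤ Fintype.card ι * e + 1, (LM (form (e + 1) c) e he j).det ≠ 0)
    (hlev : ∀ j ≤ Fintype.card ι * e, levdet (bnum p e he c) j ≠ 0)
    (hDl : ∀ j, Dl p e he c j ≠ 0) (P : (ι → Fin e) → Prop) [DecidablePred P]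
    (hsep : ∀ u' u : ι → Fin e, ¬ P u' → P u → ∃ β : ι → K, SymOn e c β ∧
      ∏ i, β i ^ (u' i : ℕ) ≠ ∏ i, β i ^ (u i : ℕ))
    (j : ℕ) :
    ((Matrix.of fun u' u : Mp ι e P =>
        (Dl p e he c (bdeg u'.1))⁻¹ * bnum p e he c u'.1 u.1).submatrix
      (Subtype.val : {u : Mp ι e P // hp u < j} → Mp ι e P)
      (Subtype.val : {u : Mp ι e P // hp u < j} → Mp ι e P)).det ≠ 0 := by
  rcases Nat.lt_or_ge (Fintype.card ι * e) ((e + 1) * j) with h | h
  · -- all levels
    have hj : (e + 1) * ((Fintype.card ι * e) / (e + 1)) ≤ Fintype.card ι * e := Nat.mul_div_le _ _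
    have h1 := det_lowP S H W hSpan he hp1 hge c hc hcs hdisc hDl P hsep
      ((Fintype.card ι * e) / (e + 1)) (hlev _ hj)
    let eqv : {u : Mp ι e P // hp u < j} ≃
        {u : Mp ι e P // hp u < (Fintype.card ι * e) / (e + 1)} :=
      Equiv.subtypeEquivRight (fun u => by
        have h2 := wt_hp u
        have h3 := wt_le he u.1
        have h5 : hp u + 1 ≤ (Fintype.card ι * e) / (e + 1) := by
          rw [Nat.le_div_iff_mul_le (Nat.succ_pos e), mul_comm, ← h2]
          exact h3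
        have h6 : hp u + 1 ≤ j := by
          by_contra h7
          have h8 : (e + 1) * j ≤ (e + 1) * (hp u + 1) := Nat.mul_le_mul_left _ (by omega)
          omega
        omega)
    have h2 := Matrix.det_submatrix_equiv_self eqv
      ((Matrix.of fun u' u : Mp ι e P => (Dl p e he c (bdeg u'.1))⁻¹ *
        bnum p e he c u'.1 u.1).submatrix
        (Subtype.val : {u : Mp ι e P // hp u < (Fintype.card ι * e) / (e + 1)} → Mp ι e P)
        (Subtype.val : {u : Mp ι e P // hp u < (Fintype.card ι * e) / (e + 1)} → Mp ι e P))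
    rw [← h2] at h1
    exact h1
  · exact det_lowP S H W hSpan he hp1 hge c hc hcs hdisc hDl P hsep j (hlev _ h)

end

theorem card_Mp_lt {e p : ℕ} (hge : P0 ι e ≤ p) (P : (ι → Fin e) → Prop) [DecidablePred P] :
    Fintype.card (Mp ι e P) < p := by
  have h1 : Fintype.card (Mp ι e P) ≤ Fintype.card (ι → Fin e) :=
    Fintype.card_le_of_injective (Subtype.val : Mp ι e P → ι → Fin e) Subtype.val_injective
  rw [Fintype.card_fun, Fintype.card_fin] at h1
  have : e ^ Fintype.card ι + 1 ≤ p := (le_max_right _ _).trans hge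
  omega

section

variable {p e : ℕ} [hp' : Fact p.Prime] {K R : Type} [Field K] [IsAlgClosed K] [CharP K p]
  [CommRing R] [IsDomain R] (S : Setup p (e + 1) K R)

include S in
/-- the hypotheses of the theorems on Newton polygons for a summand -/
theorem class_hyp (H : Hyp) (W : HypW) (hSpan : S_Span) [Nonempty ι] (he : 0 < e)
    (hp1 : p ≡ 1 [MOD (e + 1)])
    (hge : P0 ι e ≤ p) (c : (ι →₀ ℕ) → K) (hc : ∀ s, c s ^ p = c s)
    (hcs : ∀ s, s ∉ Sd ι (e + 1) → c s = 0)
    (hdisc : ∀ j ≤ Fintype.card ι * e + 1, (LM (form (e + 1) c) e he j).det ≠ 0)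
    (hlev : ∀ j ≤ Fintype.card ι * e, levdet (bnum p e he c) j ≠ 0)
    (P : (ι → Fin e) → Prop) [DecidablePred P] (J : Type)
    (T : Finset J) (bt : J → ι → K) (hT : ∀ j ∈ T, SymOn e c (bt j))
    (hsep : ∀ u' u : ι → Fin e, P u' → ¬ P u → ∃ j ∈ T,
      ∏ i, bt j i ^ (u' i : ℕ) ≠ ∏ i, bt j i ^ (u i : ℕ))
    (χ : J → ℤ_[p]) (m : ℤ_[p]) (hm : S.res (S.zp m) ≠ 0)
    (hχ : ∀ u : ι → Fin e, ∑ j ∈ T, S.zp (χ j) * ∏ i, S.tau (bt j i) ^ ((u i : ℕ) + 1) =
      if P u then S.zp m else 0)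
    (St : ℕ → ℤ_[p])
    (hSt : ∀ a, 1 ≤ a → m * St a = (-1) ^ Fintype.card ι * ∑ j ∈ T, χ j *
      ((p ^ a * Nptw p (form (e + 1) c) (bt j) a : ℕ) - (p ^ (a * Fintype.card ι) : ℕ))) :
    ∃ bb : Matrix (Mp ι e P) (Mp ι e P) K,
      (∀ N : ℕ, ∃ b : Matrix (Mp ι e P) (Mp ι e P) R, (∀ u v, S.res (b u v) = bb u v) ∧
        ∀ a : ℕ, 1 ≤ a → ∃ z : R, S.zp (St a) =
          ((p : R) ^ a - 1) * ((Matrix.of fun u v => (-(p : R)) ^ (hp u + 1) * b u v) ^ a).trace +
            S.lam ^ N * z) ∧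
      (∀ j : ℕ, (bb.submatrix (Subtype.val : {u : Mp ι e P // hp u < j} → Mp ι e P)
        (Subtype.val : {u : Mp ι e P // hp u < j} → Mp ι e P)).det ≠ 0) := by
  classical
  have hge1 : 2 * (Fintype.card ι * e) + 4 ≤ p := (le_max_left _ _).trans hge
  have hn : 1 ≤ Fintype.card ι := Fintype.card_pos
  have hn1 : 1 ≤ Fintype.card ι * e := Nat.mul_pos hn he
  have hp5 : 5 ≤ p := by omega
  have hDl : ∀ j, Dl p e he c j ≠ 0 :=
    (Bt_facts S H hSpan he hp1 hge c hc hcs hdisc (Fintype.card ι * e) hn1 le_rfl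
      (exists_BD S hSpan he hp5 c hc hcs hdisc _ hn1)).1
  refine ⟨Matrix.of fun u' u : Mp ι e P =>
    (Dl p e he c (bdeg u'.1))⁻¹ * bnum p e he c u'.1 u.1, ?_, ?_⟩
  · intro N
    set M := N + Fintype.card ι * e with hM
    have hM1 : 1 ≤ M := by omega
    have hBD := exists_BD S hSpan he hp5 c hc hcs hdisc M hM1
    obtain ⟨-, hgr, b, hb⟩ := Bt_facts S H hSpan he hp1 hge c hc hcs hdisc M hM1 (by omega) hBD
    have hlift : ∀ u' u : Mp ι e P, ∃ y : R, S.rd M y = b u'.1 u.1 := fun u' u =>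
      Ideal.Quotient.mk_surjective (b u'.1 u.1)
    choose bR hbR using hlift
    refine ⟨bR, ?_, ?_⟩
    · intro u v
      have h1 := (hb u.1 v.1).2
      rw [← hbR, S.rho_rd] at h1
      rw [Matrix.of_apply, ← h1, ← mul_assoc, inv_mul_cancel₀ (hDl _), one_mul]
    · intro a ha
      set Wm : Matrix (Mp ι e P) (Mp ι e P) R :=
        Matrix.of fun u v => (-(p : R)) ^ (hp u + 1) * bR u v with hW
      have hent : ∀ u v : Mp ι e P, Setup.Bt hBD 0 u.1 v.1 = S.rd M (Wm u v) := by
        intro u v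
        have h0 : Wm u v = (-(p : R)) ^ (hp u + 1) * bR u v := rfl
        have h1 : (p - 1) * ((e + 1) * (hp u + 1)) = ((e + 1) * (p - 1)) * (hp u + 1) := by ring
        rw [(hb u.1 v.1).1, h0, map_mul, hbR, wt_hp u, h1, pow_mul (S.rd M S.lam), ← map_pow,
          S.lam_pow, ← map_pow]
      have hsub : (Setup.Bt hBD 0).submatrix (Subtype.val : Mp ι e P → ι → Fin e)
          (Subtype.val : Mp ι e P → ι → Fin e) = (S.rd M).mapMatrix Wm :=
        funext fun u => funext fun v => hent u v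
      have htr : ∑ u ∈ Finset.univ.filter (fun u : ι → Fin e => (e + 1) ∣ wt u ∧ P u),
          ((Setup.Bt hBD 0) ^ a) u u = S.rd M ((Wm ^ a).trace) := by
        have h1 : ((Setup.Bt hBD 0) ^ a).submatrix
            (Subtype.val : Mp ι e P → ι → Fin e) (Subtype.val : Mp ι e P → ι → Fin e) =
            ((Setup.Bt hBD 0).submatrix (Subtype.val : Mp ι e P → ι → Fin e)
            (Subtype.val : Mp ι e P → ι → Fin e)) ^ a :=
          pow_sub (Setup.Bt hBD 0) (fun u : ι → Fin e => (e + 1) ∣ wt u ∧ P u) (by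
            intro u v hu hv
            by_cases hw : (e + 1) ∣ wt v
            · have hP : ¬ P v := fun h => hv ⟨hw, h⟩
              obtain ⟨β, hβT, hne⟩ := hsep u v hu.2 hP
              exact Bt_sym S H W hSpan he hp1 hge c hc hcs hdisc M hM1 hBD (bt β) (hT β hβT) u v hne
            · apply hgr
              intro h
              exact hw ((Nat.modEq_zero_iff_dvd.1
                (h.symm.trans (Nat.modEq_zero_iff_dvd.2 hu.1))))) a
        have h5 : ((Setup.Bt hBD 0).submatrix (Subtype.val : Mp ι e P → ι → Fin e)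
            (Subtype.val : Mp ι e P → ι → Fin e)) ^ a = (S.rd M).mapMatrix (Wm ^ a) := by
          rw [hsub, map_pow]
          rfl
        have h2 : ∀ u : Mp ι e P, ((Setup.Bt hBD 0) ^ a) u.1 u.1 = S.rd M ((Wm ^ a) u u) :=
          fun u => congrFun (congrFun (h1.trans h5) u) u
        have h4 : (Wm ^ a).trace = ∑ u : Mp ι e P, (Wm ^ a) u u := rfl
        rw [h4, map_sum, Finset.sum_subtype (p := fun u : ι → Fin e => (e + 1) ∣ wt u ∧ P u) _
          (by intro x; simp)]
        exact Finset.sum_congr rfl fun u _ => h2 u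
      -- the trace formula, averaged
      have hav : ∑ β ∈ T, S.rd M (S.zp (χ β)) *
          (((p ^ a * Nptw p (form (e + 1) c) (bt β) a : ℕ) : S.Q M) -
            ((p ^ (a * Fintype.card ι) : ℕ) : S.Q M)) =
          (-1) ^ Fintype.card ι * ((p ^ a : ℕ) - 1 : S.Q M) *
            (S.rd M (S.zp m) * S.rd M ((Wm ^ a).trace)) := by
        have h1 : ∀ β ∈ T, S.rd M (S.zp (χ β)) *
          (((p ^ a * Nptw p (form (e + 1) c) (bt β) a : ℕ) : S.Q M) -
            ((p ^ (a * Fintype.card ι) : ℕ) : S.Q M)) =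
            (-1) ^ Fintype.card ι * ((p ^ a : ℕ) - 1 : S.Q M) *
            ∑ u ∈ Finset.univ.filter (fun u : ι → Fin e => (e + 1) ∣ wt u),
              S.rd M (S.zp (χ β) * ∏ i, S.tau (bt β i) ^ ((u i : ℕ) + 1)) *
                ((Setup.Bt hBD 0) ^ a) u u := by
          intro β hβ
          have h2 := W.ptw ι p e K R S M c (bt β) hc hp1 (hT β hβ).1 (hT β hβ).2 hBD a ha
          rw [h2, add_sub_cancel_left, mul_left_comm, Finset.mul_sum]
          congr 1
          refine Finset.sum_congr rfl fun u _ => ?_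
          rw [map_mul, mul_assoc]
        rw [Finset.sum_congr rfl h1, ← Finset.mul_sum, Finset.sum_comm]
        congr 1
        have h2 : ∀ u : ι → Fin e, ∑ β ∈ T,
            S.rd M (S.zp (χ β) * ∏ i, S.tau (bt β i) ^ ((u i : ℕ) + 1)) *
                ((Setup.Bt hBD 0) ^ a) u u =
            if P u then S.rd M (S.zp m) * ((Setup.Bt hBD 0) ^ a) u u else 0 := by
          intro u
          rw [← Finset.sum_mul, ← map_sum, hχ u]
          split_ifs with h
          · rfl
          · rw [map_zero, zero_mul]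
        rw [Finset.sum_congr rfl fun u _ => h2 u, ← Finset.sum_filter, Finset.filter_filter,
          ← Finset.mul_sum, htr]
      have hsign : ((-1 : S.Q M)) ^ Fintype.card ι * (-1) ^ Fintype.card ι = 1 := by
        rw [← mul_pow, neg_one_mul, neg_neg, one_pow]
      have hkey : S.rd M (S.zp m) * S.rd M (S.zp (St a)) =
          S.rd M (S.zp m) * S.rd M (((p : R) ^ a - 1) * (Wm ^ a).trace) := by
        have h1 : S.rd M (S.zp m) * S.rd M (S.zp (St a)) = (-1) ^ Fintype.card ι *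
            ∑ β ∈ T, S.rd M (S.zp (χ β)) *
          (((p ^ a * Nptw p (form (e + 1) c) (bt β) a : ℕ) : S.Q M) -
            ((p ^ (a * Fintype.card ι) : ℕ) : S.Q M)) := by
          rw [← map_mul, ← map_mul, hSt a ha, map_mul, map_mul, map_pow, map_pow, map_neg, map_neg,
            map_one, map_one, map_sum, map_sum]
          congr 1
          refine Finset.sum_congr rfl fun β _ => ?_
          rw [map_mul, map_mul, map_sub, map_sub, map_natCast, map_natCast, map_natCast,
            map_natCast]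
        rw [h1, hav, map_mul, map_sub, map_pow, map_one, map_natCast]
        push_cast
        linear_combination (((p : S.Q M) ^ a - 1) *
          (S.rd M (S.zp m) * S.rd M ((Wm ^ a).trace))) * hsign
      have hu : IsUnit (S.rd M (S.zp m)) := S.isUnit_rd M _ hm
      have hkey2 := hu.mul_left_cancel hkey
      rw [S.rd_eq] at hkey2
      obtain ⟨z, hz⟩ := hkey2
      refine ⟨S.lam ^ (Fintype.card ι * e) * z, ?_⟩
      rw [hM, pow_add] at hz
      linear_combination hz
  · exact det_allP S H W hSpan he hp1 hge c hc hcs hdisc hlev hDl P (by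
      intro u' u h1 h2
      obtain ⟨β, hβ, hne⟩ := hsep u u' h2 h1
      exact ⟨bt β, hT β hβ, hne.symm⟩)

end

end Pool.Agent.H887.BK
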