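import Pool.Agent.H887.BK.E10

/-!
# Few bad residue classes modulo almost all places, abstractly
-/

set_option autoImplicit false

open Finset MvPolynomial NumberField IsDedekindDomain

namespace Pool.Agent.H887.BK

lemma preimage_card' {A B : Type} [AddCommGroup A] [Fintype A] [AddCommGroup B] [Fintype B]
    [DecidableEq B] (L : A →+ B) (hL : Function.Surjective L) (S : Finset B) :
    (univ.filter fun a => L a ∈ S).card * Fintype.card B = S.card * Fintype.card A := by
  classical
  set m := (univ.filter fun a : A => L a = 0).card with hm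
  have hfib : ∀ b, (univ.filter fun a : A => L a = b).card = m := by
    intro b
    exact AddMonoidHom.card_fiber_eq_of_mem_range L (hL b) (hL 0)
  have h1 : (univ.filter fun a => L a ∈ S).card = S.card * m := by
    rw [card_eq_sum_card_fiberwise (s := univ.filter fun a => L a ∈ S) (t := S) (f := L)
      (fun a ha => (mem_filter.1 ha).2)]
    rw [← smul_eq_mul, ← sum_const]
    refine sum_congr rfl fun b hb => ?_
    rw [← hfib b, filter_filter]
    congr 1
    refine filter_congr fun a _ => ?_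
    constructor
    · exact fun h => h.2
    · rintro rfl
      exact ⟨hb, rfl⟩
  have h2 : Fintype.card A = Fintype.card B * m := by
    rw [← card_univ, card_eq_sum_card_fiberwise (s := (univ : Finset A)) (t := (univ : Finset B))
      (f := L) (fun a _ => mem_univ _), ← card_univ, ← smul_eq_mul, ← sum_const]
    exact sum_congr rfl fun b _ => hfib b
  rw [h1, h2]
  ring

open Classical in
/-- Few residue classes modulo almost all places violate a property which is implied by `Nice`. -/
theorem few_abs {K : Type} [Field K] [NumberField K] {ι : Type} [Fintype ι] [DecidableEq ι]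
    {h e : ℕ} (he : 0 < e) (Z : Sup ι e) (ω : Fin h → 𝓞 K) (a₀ : Fin h) (ha₀ : ω a₀ ≠ 0)
    {σ : Type} [Fintype σ] [DecidableEq σ] (eqv : σ ≃ Par Z)
    (O : HeightOneSpectrum (𝓞 K) → (σ × Fin h → ℕ) → Prop)
    (hO : ∀ (v : HeightOneSpectrum (𝓞 K)) (p : ℕ) [Fact p.Prime], Ideal.absNorm v.asIdeal = p →
      p ≡ 1 [MOD (e + 1)] → P0 ι e ≤ p → ∀ (φ : ZMod p →+* v.asIdeal.ResidueField)
      (t : σ × Fin h → ℕ) (c : Par Z → ZMod p),
      (∀ u, φ (c (eqv u)) = algebraMap (𝓞 K) v.asIdeal.ResidueField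
        (∑ a, ω a * (t (u, a) : 𝓞 K))) → Nice p e he c → O v t)
    (ε : ℝ) (hε : 0 < ε) :
    {v : HeightOneSpectrum (𝓞 K) | (Ideal.absNorm v.asIdeal).Prime ∧
      (e + 1) ∣ Ideal.absNorm v.asIdeal - 1 ∧
      ¬ (((Fintype.piFinset fun _ : σ × Fin h => range (Ideal.absNorm v.asIdeal)).filter
        fun t => ¬ O v t).card : ℝ) ≤
        ε * (Ideal.absNorm v.asIdeal : ℝ) ^ Fintype.card (σ × Fin h)}.Finite := by
  obtain ⟨p₀, hp₀⟩ := few_all he Z ε hε
  refine ((Pool.Agent.W352.ChAbs.finite_le (K := K) (max p₀ (P0 ι e))).union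
    (Pool.Agent.Q267.OD.finite_mem (K := K) _ ha₀)).subset ?_
  rintro v ⟨hv, hdv, hv'⟩
  by_contra hno
  rw [Set.mem_union, not_or] at hno
  obtain ⟨hno1, hno2⟩ := hno
  have hno1' : ¬ Ideal.absNorm v.asIdeal ≤ max p₀ (P0 ι e) := hno1
  have hno2' : ω a₀ ∉ v.asIdeal := hno2
  apply hv'
  obtain ⟨p, hp⟩ : ∃ p, p = Ideal.absNorm v.asIdeal := ⟨_, rfl⟩
  rw [← hp] at hv hdv hno1' ⊢
  push Not at hno1'
  have hfact : Fact p.Prime := ⟨hv⟩
  have hchar := Pool.Agent.Q267.OD.charP_res v (by rw [← hp]; exact hv)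
  rw [← hp] at hchar
  have hcard : Nat.card v.asIdeal.ResidueField = p := by
    rw [Pool.Agent.Q267.DC.card_res, hp]
  have hp1 : p ≡ 1 [MOD (e + 1)] := ((Nat.modEq_iff_dvd' hv.one_le).2 hdv).symm
  set φ : ZMod p →+* v.asIdeal.ResidueField := ZMod.castHom (dvd_refl p) _ with hφ
  have hfin : Finite v.asIdeal.ResidueField := Nat.finite_of_card_ne_zero (by
    rw [hcard]; exact hv.ne_zero)
  have hbij : Function.Bijective φ := by
    have := Fintype.ofFinite v.asIdeal.ResidueField
    rw [Fintype.bijective_iff_injective_and_card]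
    refine ⟨φ.injective, ?_⟩
    rw [ZMod.card, ← Nat.card_eq_fintype_card, hcard]
  choose w hw using fun a : Fin h => hbij.2 (algebraMap (𝓞 K) v.asIdeal.ResidueField (ω a))
  have hw0 : w a₀ ≠ 0 := by
    intro h0
    have h1 := hw a₀
    rw [h0, map_zero] at h1
    exact hno2' (Ideal.algebraMap_residueField_eq_zero.1 h1.symm)
  let L : (σ × Fin h → ZMod p) →+ (Par Z → ZMod p) :=
    { toFun := fun t u => ∑ a, w a * t (eqv.symm u, a)
      map_zero' := by
        funext u
        simp
      map_add' := by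
        intro s t
        funext u
        simp only [Pi.add_apply, mul_add, sum_add_distrib] }
  have hL : Function.Surjective L := by
    intro c
    refine ⟨fun i => if i.2 = a₀ then (w a₀)⁻¹ * c (eqv i.1) else 0, ?_⟩
    funext u
    change ∑ a, w a * (if a = a₀ then (w a₀)⁻¹ * c (eqv (eqv.symm u)) else 0) = c u
    rw [sum_eq_single a₀]
    · rw [if_pos rfl, ← mul_assoc, mul_inv_cancel₀ hw0, one_mul, eqv.apply_symm_apply]
    · intro a _ ha
      rw [if_neg ha, mul_zero]
    · intro h'
      exact absurd (mem_univ _) h'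
  set B : Finset (Par Z → ZMod p) := univ.filter fun c => ¬ Nice p e he c with hB
  have hBc := hp₀ p (by omega) hp1 B (fun c hc => (mem_filter.1 hc).2)
  have hpre := preimage_card' L hL B
  rw [Fintype.card_fun, Fintype.card_fun, ZMod.card] at hpre
  set Bad := (Fintype.piFinset fun _ : σ × Fin h => range p).filter
        fun t => ¬ O v t with hBad
  have hinj : Set.InjOn (fun (t : σ × Fin h → ℕ) (i : σ × Fin h) => (t i : ZMod p)) Bad := by
    intro a ha b hb hab
    have ha' := (mem_filter.mp (mem_coe.mp ha)).1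
    have hb' := (mem_filter.mp (mem_coe.mp hb)).1
    rw [Fintype.mem_piFinset] at ha' hb'
    funext i
    exact CharP.natCast_injOn_Iio (ZMod p) p
      (Set.mem_Iio.mpr (mem_range.mp (ha' i))) (Set.mem_Iio.mpr (mem_range.mp (hb' i)))
      (congrFun hab i)
  have hsub : Bad.image (fun (t : σ × Fin h → ℕ) (i : σ × Fin h) => (t i : ZMod p)) ⊆
      univ.filter fun τ => L τ ∈ B := by
    intro τ hτ
    obtain ⟨t, ht, rfl⟩ := mem_image.1 hτ
    rw [mem_filter, hB, mem_filter]
    refine ⟨mem_univ _, mem_univ _, fun hN => (mem_filter.1 ht).2 ?_⟩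
    refine hO v p hp.symm hp1 (by omega) φ t _ (fun u => ?_) hN
    change φ (∑ a, w a * (t (eqv.symm (eqv u), a) : ZMod p)) = _
    rw [eqv.symm_apply_apply, map_sum, map_sum]
    refine sum_congr rfl fun a _ => ?_
    rw [map_mul, map_mul, hw, map_natCast, map_natCast]
  have h1 : Bad.card ≤ (univ.filter fun τ => L τ ∈ B).card := by
    rw [← card_image_of_injOn hinj]
    exact card_le_card hsub
  have hpp : (0 : ℝ) < (p : ℝ) ^ Fintype.card (Par Z) := by
    have : (0 : ℝ) < p := by exact_mod_cast hv.pos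
    positivity
  have h2 : ((univ.filter fun τ => L τ ∈ B).card : ℝ) * (p : ℝ) ^ Fintype.card (Par Z) =
      B.card * (p : ℝ) ^ Fintype.card (σ × Fin h) := by
    exact_mod_cast hpre
  have h3 : ((univ.filter fun τ => L τ ∈ B).card : ℝ) * (p : ℝ) ^ Fintype.card (Par Z) ≤
      (ε * (p : ℝ) ^ Fintype.card (σ × Fin h)) * (p : ℝ) ^ Fintype.card (Par Z) := by
    rw [h2]
    calc (B.card : ℝ) * (p : ℝ) ^ Fintype.card (σ × Fin h) ≤
        (ε * (p : ℝ) ^ Fintype.card (Par Z)) * (p : ℝ) ^ Fintype.card (σ × Fin h) :=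
          mul_le_mul_of_nonneg_right hBc (by positivity)
      _ = _ := by ring
  have h4 := le_of_mul_le_mul_right h3 hpp
  have h5 : (Bad.card : ℝ) ≤ ((univ.filter fun τ => L τ ∈ B).card : ℝ) := by exact_mod_cast h1
  exact h5.trans h4

end Pool.Agent.H887.BK
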