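import Pool.Agent.H887.BK.F1
import Pool.Agent.H887.BK.F2
import Pool.Agent.H887.BK.D4

/-!
# Weighted hypersurfaces
-/

set_option autoImplicit false
set_option linter.unusedSectionVars false
set_option linter.unusedVariables false

namespace Pool.Agent.H887.BK

open MvPolynomial Pool.Agent.H425

variable {ι : Type} [Fintype ι] [DecidableEq ι]

section

variable {p d : ℕ} [hp' : Fact p.Prime] {K R : Type} [Field K] [IsAlgClosed K] [CharP K p]
  [CommRing R] [IsDomain R] (S : Setup p d K R)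

theorem sum_tau_pow (w : ℕ) (hw : 0 < w) (hpw : ((w : ℕ) : K) ≠ 0) (k : ℕ) :
    ∑ β ∈ Polynomial.nthRootsFinset w (1 : K), S.tau β ^ k = if w ∣ k then (w : R) else 0 := by
  classical
  have : NeZero ((w : ℕ) : K) := ⟨hpw⟩
  obtain ⟨ζ, hζ⟩ := HasEnoughRootsOfUnity.exists_primitiveRoot K w
  split_ifs with h
  · obtain ⟨m, rfl⟩ := h
    have h1 : ∀ β ∈ Polynomial.nthRootsFinset w (1 : K), S.tau β ^ (w * m) = 1 := by
      intro β hβ
      rw [Polynomial.mem_nthRootsFinset hw] at hβ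
      rw [pow_mul, ← map_pow, hβ, map_one, one_pow]
    rw [Finset.sum_congr rfl h1, Finset.sum_const, hζ.card_nthRootsFinset, nsmul_eq_mul, mul_one]
  · set s := ∑ β ∈ Polynomial.nthRootsFinset w (1 : K), S.tau β ^ k with hs
    have h1 : s = S.tau ζ ^ k * s := by
      rw [hs, Finset.mul_sum]
      refine (Finset.sum_bij (fun β _ => ζ * β) ?_ ?_ ?_ ?_).symm
      · intro β hβ
        rw [Polynomial.mem_nthRootsFinset hw] at hβ ⊢
        rw [mul_pow, hβ, hζ.pow_eq_one, one_mul]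
      · intro a _ b _ hab
        exact mul_left_cancel₀ (hζ.ne_zero hw.ne') hab
      · intro β hβ
        refine ⟨ζ⁻¹ * β, ?_, ?_⟩
        · rw [Polynomial.mem_nthRootsFinset hw] at hβ ⊢
          rw [mul_pow, hβ, inv_pow, hζ.pow_eq_one, inv_one, one_mul]
        · rw [← mul_assoc, mul_inv_cancel₀ (hζ.ne_zero hw.ne'), one_mul]
      · intro β _
        rw [map_mul, mul_pow]
    have h2 : (1 - S.tau ζ ^ k) * s = 0 := by rw [sub_mul, one_mul, ← h1, sub_self]
    rcases mul_eq_zero.1 h2 with h3 | h3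
    · exfalso
      have h4 := congrArg S.res h3
      rw [map_sub, map_one, map_pow, S.res_tau, map_zero, sub_eq_zero] at h4
      exact h ((hζ.pow_eq_one_iff_dvd k).1 h4.symm)
    · exact h3

end

/-- the weighted form -/
noncomputable def wform {e : ℕ} {Z : Sup ι e} {K : Type} [CommRing K] (w : ι → ℕ) (c : Par Z → K) :
    MvPolynomial ι K :=
  ∑ s : Par Z, monomial (Finsupp.equivFunOnFinite.symm fun i => s.1 i / w i) (c s)

theorem eval_wform {e : ℕ} {Z : Sup ι e} {K : Type} [Field K] (w : ι → ℕ) (c : Par Z → K)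
    (x : ι → K) : eval x (wform w c) = ∑ s ∈ Sd ι (e + 1), qx c s * ∏ i, x i ^ (s i / w i) := by
  classical
  have hsub : Z.S ⊆ Sd ι (e + 1) := fun s hs => (mem_Sd _ _).2 (Z.deg s hs)
  rw [← Finset.sum_subset hsub]
  · rw [← Finset.sum_coe_sort Z.S, wform, map_sum]
    refine Finset.sum_congr rfl fun u _ => ?_
    unfold qx
    rw [dif_pos u.2, eval_monomial, Finsupp.prod_fintype _ _ (fun i => pow_zero _)]
    rfl
  · intro s _ hs
    unfold qx
    rw [dif_neg hs, zero_mul]

/-- **Smoothness of the weighted hypersurface.** -/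
theorem wsmooth [Nonempty ι] {p e : ℕ} [hp' : Fact p.Prime] (he : 0 < e)
    {K : Type} [Field K] [IsAlgClosed K]
    {Z : Sup ι e} (w : ι → ℕ) (hw : ∀ i, w i ∣ e + 1) (hZw : ∀ s ∈ Z.S, ∀ i, w i ∣ s i)
    (c : Par Z → K) (hN : Nice p e he c) (x : ι → K)
    (hx : ∀ i, eval x (pderiv i (wform w c)) = 0) : x = 0 := by
  classical
  obtain ⟨h1, h2, h3⟩ := hN
  have hw0 : ∀ i, 0 < w i := fun i => Nat.pos_of_dvd_of_pos (hw i) (Nat.succ_pos e)
  have hroot : ∀ i, ∃ y : K, y ^ w i = x i := fun i =>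
    IsAlgClosed.exists_pow_nat_eq (x i) (hw0 i)
  choose y hy using hroot
  have h4 := (Pool.Agent.H539.BK.h_Span ι K e he (form (e + 1) (qx c)) (form_homog _ _) h2).2.2 K
    (RingHom.id K) y
  have hbind : form (e + 1) (qx c) = bind₁ (fun i => (X i : MvPolynomial ι K) ^ w i)
      (wform w c) := by
    rw [form_qx, wform, map_sum]
    refine Finset.sum_congr rfl fun u _ => ?_
    rw [bind₁_monomial, monomial_eq, Finsupp.prod_fintype _ _ (fun i => pow_zero _)]
    congr 1
    have h6 : ∏ i ∈ (Finsupp.equivFunOnFinite.symm fun i => u.1 i / w i).support,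
        ((X i : MvPolynomial ι K) ^ w i) ^
          (Finsupp.equivFunOnFinite.symm fun i => u.1 i / w i) i =
        ∏ i, ((X i : MvPolynomial ι K) ^ w i) ^
          (Finsupp.equivFunOnFinite.symm fun i => u.1 i / w i) i :=
      Finset.prod_subset (Finset.subset_univ _) (fun i _ hi => by
        rw [Finsupp.notMem_support_iff.1 hi, pow_zero])
    rw [h6]
    refine Finset.prod_congr rfl fun i _ => ?_
    rw [← pow_mul]
    congr 1
    exact (Nat.mul_div_cancel' (hZw u.1 u.2 i)).symm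
  have h5 : y = 0 := by
    apply h4
    intro i
    change eval y (pderiv i (form (e + 1) (qx c))) = 0
    rw [hbind]
    have h6 : pderiv i (bind₁ (fun i => (X i : MvPolynomial ι K) ^ w i) (wform w c)) =
        ∑ j, bind₁ (fun i => (X i : MvPolynomial ι K) ^ w i) (pderiv j (wform w c)) *
          pderiv i ((X j : MvPolynomial ι K) ^ w j) := by
      induction wform w c using MvPolynomial.induction_on with
      | C a => simp
      | add P Q hP hQ =>
        simp only [map_add, hP, hQ, add_mul, Finset.sum_add_distrib]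
      | mul_X P j hP =>
        rw [map_mul, pderiv_mul, hP, bind₁_X_right]
        simp only [pderiv_mul, map_add, map_mul, bind₁_X_right, add_mul,
          Finset.sum_add_distrib, Finset.sum_mul]
        congr 1
        · refine Finset.sum_congr rfl fun k _ => ?_
          ring
        · rw [Finset.sum_eq_single j]
          · rw [pderiv_X_self, map_one, mul_one]
          · intro k _ hk
            rw [pderiv_X_of_ne (Ne.symm hk), map_zero, mul_zero, zero_mul]
          · intro h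
            exact absurd (Finset.mem_univ _) h
    rw [h6, map_sum]
    refine Finset.sum_eq_zero fun j _ => ?_
    rw [map_mul]
    have h7 : eval y (bind₁ (fun i => (X i : MvPolynomial ι K) ^ w i) (pderiv j (wform w c))) =
        eval x (pderiv j (wform w c)) := by
      have h8 : (fun i => eval y ((X i : MvPolynomial ι K) ^ w i)) = x := by
        funext i
        rw [map_pow, eval_X, hy i]
      have h9 := eval₂Hom_bind₁ (RingHom.id K) y (fun i => (X i : MvPolynomial ι K) ^ w i)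
        (pderiv j (wform w c))
      change eval y _ = _ at h9
      rw [h9]
      change eval (fun i => eval y ((X i : MvPolynomial ι K) ^ w i)) _ = _
      rw [h8]
    rw [h7, hx j, zero_mul]
  funext i
  rw [← hy i, h5, Pi.zero_apply, zero_pow (hw0 i).ne']

section grp

variable {d : ℕ} [NeZero d]

/-- products of powers of roots of unity -/
theorem prod_root {A : Type} [CommRing A] (z : A) (hz : z ^ d = 1) (b : ι → ZMod d) (n : ι → ℕ) :
    ∏ i, (z ^ (b i).val) ^ (n i) = z ^ (∑ i, b i * ((n i : ℕ) : ZMod d)).val := by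
  have h1 : ∀ x : ZMod d, z ^ x.val = AddChar.zmodChar d hz x := fun x => rfl
  have h2 : ∀ (t : Finset ι) (f : ι → ZMod d),
      AddChar.zmodChar d hz (∑ i ∈ t, f i) = ∏ i ∈ t, AddChar.zmodChar d hz (f i) := by
    intro t f
    induction t using Finset.induction_on with
    | empty => rw [Finset.sum_empty, Finset.prod_empty, AddChar.map_zero_eq_one]
    | insert i t hi ih =>
      rw [Finset.sum_insert hi, Finset.prod_insert hi, AddChar.map_add_eq_mul, ih]
  rw [h1, h2]
  refine Finset.prod_congr rfl fun i _ => ?_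
  rw [h1, ← AddChar.map_nsmul_eq_pow, nsmul_eq_mul, mul_comm]

theorem pow_add_val {A : Type} [CommRing A] (z : A) (hz : z ^ d = 1) (x y : ZMod d) :
    z ^ (x + y).val = z ^ x.val * z ^ y.val := by
  have h1 : ∀ x : ZMod d, z ^ x.val = AddChar.zmodChar d hz x := fun x => rfl
  rw [h1, h1, h1, AddChar.map_add_eq_mul]

open Classical in
/-- orthogonality -/
theorem sum_orth {A : Type} [CommRing A] [IsDomain A] (z : A) (hz : IsPrimitiveRoot z d)
    (Γ : AddSubgroup (ι → ZMod d)) (L : (ι → ZMod d) →+ ZMod d) :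
    ∑ b ∈ Finset.univ.filter (fun b : ι → ZMod d => b ∈ Γ), z ^ (L b).val =
      if ∀ b ∈ Γ, L b = 0 then (((Finset.univ.filter (fun b : ι → ZMod d => b ∈ Γ)).card : ℕ) : A)
      else 0 := by
  split_ifs with h
  · rw [Finset.sum_congr rfl (g := fun _ => (1 : A)) (fun b hb => by
      rw [h b (Finset.mem_filter.1 hb).2, ZMod.val_zero, pow_zero]), Finset.sum_const,
      nsmul_eq_mul, mul_one]
  · push Not at h
    obtain ⟨b₀, hb₀, hL⟩ := h
    set s := ∑ b ∈ Finset.univ.filter (fun b : ι → ZMod d => b ∈ Γ), z ^ (L b).val with hs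
    have h1 : s = z ^ (L b₀).val * s := by
      rw [hs, Finset.mul_sum]
      refine (Finset.sum_bij (fun b _ => b₀ + b) ?_ ?_ ?_ ?_).symm
      · intro b hb
        rw [Finset.mem_filter] at hb ⊢
        exact ⟨Finset.mem_univ _, Γ.add_mem hb₀ hb.2⟩
      · intro a _ b _ hab
        exact add_left_cancel hab
      · intro b hb
        rw [Finset.mem_filter] at hb
        refine ⟨-b₀ + b, Finset.mem_filter.2 ⟨Finset.mem_univ _,
          Γ.add_mem (Γ.neg_mem hb₀) hb.2⟩, ?_⟩
        rw [add_neg_cancel_left]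
      · intro b _
        rw [map_add, pow_add_val z hz.pow_eq_one]
    have h2 : (1 - z ^ (L b₀).val) * s = 0 := by rw [sub_mul, one_mul, ← h1, sub_self]
    rcases mul_eq_zero.1 h2 with h3 | h3
    · exfalso
      rw [sub_eq_zero] at h3
      have h4 := (hz.pow_eq_one_iff_dvd (L b₀).val).1 h3.symm
      exact hL ((ZMod.val_eq_zero _).1 (Nat.eq_zero_of_dvd_of_lt h4 (ZMod.val_lt _)))
    · exact h3

end grp

section

variable {p d : ℕ} [hp' : Fact p.Prime] {K R : Type} [Field K] [IsAlgClosed K] [CharP K p]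
  [CommRing R] [IsDomain R] (S : Setup p d K R)

theorem sum_tau_pow' (w : ℕ) (hw : 0 < w) (hpw : ((w : ℕ) : K) ≠ 0) (β : K) (hβ : β ≠ 0) (k : ℕ) :
    ∑ γ ∈ Polynomial.nthRootsFinset w β, S.tau γ ^ k =
      if w ∣ k then (w : R) * S.tau β ^ (k / w) else 0 := by
  classical
  obtain ⟨γ₀, hγ₀⟩ := IsAlgClosed.exists_pow_nat_eq β hw
  have hγ₀0 : γ₀ ≠ 0 := by
    rintro rfl
    rw [zero_pow hw.ne'] at hγ₀
    exact hβ hγ₀.symm
  have h1 : ∑ γ ∈ Polynomial.nthRootsFinset w β, S.tau γ ^ k =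
      S.tau γ₀ ^ k * ∑ γ ∈ Polynomial.nthRootsFinset w (1 : K), S.tau γ ^ k := by
    rw [Finset.mul_sum]
    refine (Finset.sum_bij (fun γ _ => γ₀ * γ) ?_ ?_ ?_ ?_).symm
    · intro γ hγ
      rw [Polynomial.mem_nthRootsFinset hw] at hγ ⊢
      rw [mul_pow, hγ, hγ₀, mul_one]
    · intro a _ b _ hab
      exact mul_left_cancel₀ hγ₀0 hab
    · intro γ hγ
      refine ⟨γ₀⁻¹ * γ, ?_, ?_⟩
      · rw [Polynomial.mem_nthRootsFinset hw] at hγ ⊢
        rw [mul_pow, hγ, inv_pow, hγ₀, inv_mul_cancel₀ hβ]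
      · rw [← mul_assoc, mul_inv_cancel₀ hγ₀0, one_mul]
    · intro γ _
      rw [map_mul, mul_pow]
  rw [h1, sum_tau_pow S w hw hpw]
  split_ifs with h
  · obtain ⟨m, rfl⟩ := h
    rw [Nat.mul_div_cancel_left _ hw, pow_mul, ← map_pow, hγ₀, mul_comm]
  · rw [mul_zero]

/-- the number of `w`-th roots -/
theorem card_roots (w : ℕ) (hw : 0 < w) (hpw : ((w : ℕ) : K) ≠ 0) (β : K) (hβ : β ≠ 0) :
    (Polynomial.nthRootsFinset w β).card = w := by
  classical
  have : NeZero ((w : ℕ) : K) := ⟨hpw⟩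
  obtain ⟨ζ, hζ⟩ := HasEnoughRootsOfUnity.exists_primitiveRoot K w
  obtain ⟨γ₀, hγ₀⟩ := IsAlgClosed.exists_pow_nat_eq β hw
  rw [Polynomial.nthRootsFinset_def, Multiset.toFinset_card_of_nodup, hζ.card_nthRoots,
    if_pos ⟨γ₀, hγ₀⟩]
  exact hζ.nthRoots_nodup hβ

end

/-- the class condition -/
def PC {ι : Type} [Fintype ι] {e : ℕ} (w : ι → ℕ) (Γ : AddSubgroup (ι → ZMod (e + 1)))
    (g : ι → ZMod (e + 1)) (u : ι → Fin e) : Prop :=
  (∀ i, w i ∣ (u i : ℕ) + 1) ∧
    ∀ b ∈ Γ, ∑ i, b i * ((((u i : ℕ) + 1) / w i : ℕ) : ZMod (e + 1)) = ∑ i, b i * g i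

open Classical in
/-- **The hypotheses of the theorems on Newton polygons for a summand of the cohomology of a weighted
hypersurface.** -/
theorem grp_hyp (W : HypW) (hWC : S_WCntT) [Nonempty ι] {p e : ℕ} [hp' : Fact p.Prime] (he : 0 < e)
    (hp1 : p ≡ 1 [MOD (e + 1)]) (hge : P0 ι e ≤ p) {K R : Type} [Field K] [IsAlgClosed K]
    [CharP K p] [CommRing R] [IsDomain R] (S : Setup p (e + 1) K R)
    {Z : Sup ι e} (w : ι → ℕ) (hw : ∀ i, w i ∣ e + 1) (hZw : ∀ s ∈ Z.S, ∀ i, w i ∣ s i)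
    (c : Par Z → K) (hc : ∀ u, c u ^ p = c u) (hN : Nice p e he c)
    (Γ : AddSubgroup (ι → ZMod (e + 1)))
    (hΓ : ∀ b ∈ Γ, ∀ s ∈ Z.S, ∑ i, b i * ((s i / w i : ℕ) : ZMod (e + 1)) = 0)
    (g : ι → ZMod (e + 1)) (ζ : ℤ_[p]) (hζ : IsPrimitiveRoot ζ (e + 1)) (St : ℕ → ℤ_[p])
    (hSt : ∀ a, 1 ≤ a → (((Finset.univ.filter (fun b => b ∈ Γ)).card : ℕ) : ℤ_[p]) * St a =
      (-1) ^ Fintype.card ι * ∑ b ∈ Finset.univ.filter (fun b => b ∈ Γ),
        ζ ^ (-∑ i, b i * g i).val *
        ((p ^ a * Nptw p (wform w c) (fun i => S.res (S.zp ζ) ^ (b i).val) a : ℕ) -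
          (p ^ (a * Fintype.card ι) : ℕ))) :
    ∃ bb : Matrix (Mp ι e (PC w Γ g)) (Mp ι e (PC w Γ g)) K,
      (∀ N : ℕ, ∃ b : Matrix (Mp ι e (PC w Γ g)) (Mp ι e (PC w Γ g)) R,
        (∀ u v, S.res (b u v) = bb u v) ∧
        ∀ a : ℕ, 1 ≤ a → ∃ z : R, S.zp (St a) =
          ((p : R) ^ a - 1) * ((Matrix.of fun u v => (-(p : R)) ^ (hp u + 1) * b u v) ^ a).trace +
            S.lam ^ N * z) ∧
      (∀ j : ℕ, (bb.submatrix
        (Subtype.val : {u : Mp ι e (PC w Γ g) // hp u < j} → Mp ι e (PC w Γ g))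
        (Subtype.val : {u : Mp ι e (PC w Γ g) // hp u < j} → Mp ι e (PC w Γ g))).det ≠ 0) := by
  obtain ⟨h1, h2, h3⟩ := hN
  have hcx : ∀ s, qx c s ^ p = qx c s := by
    intro s
    unfold qx
    split_ifs with h
    · exact hc _
    · exact zero_pow hp'.out.ne_zero
  have hw0 : ∀ i, 0 < w i := fun i => Nat.pos_of_dvd_of_pos (hw i) (Nat.succ_pos e)
  have hpe := pow_dvd_of_modEq hp'.out he hp1
  have heK : (((e + 1 : ℕ)) : K) ≠ 0 := by
    intro h
    rw [CharP.cast_eq_zero_iff K p] at h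
    exact hpe h
  have hwK : ∀ i, ((w i : ℕ) : K) ≠ 0 := by
    intro i h
    rw [CharP.cast_eq_zero_iff K p] at h
    exact hpe (h.trans (hw i))
  have hqx : ∀ s, qx c s ≠ 0 → s ∈ Z.S := by
    intro s hs
    by_contra h
    exact hs (by unfold qx; rw [dif_neg h])
  have hqxw : ∀ s ∈ Sd ι (e + 1), qx c s ≠ 0 → ∀ i, w i ∣ s i :=
    fun s _ hs => hZw s (hqx s hs)
  -- the root of unity
  set z : K := S.res (S.zp ζ) with hz
  have hzR : S.zp ζ ^ (e + 1) = 1 := by rw [← map_pow, hζ.pow_eq_one, map_one]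
  have hz1 : z ^ (e + 1) = 1 := by rw [hz, ← map_pow, hzR, map_one]
  have hz0 : z ≠ 0 := by
    intro h
    rw [h, zero_pow (Nat.succ_ne_zero e)] at hz1
    exact zero_ne_one hz1
  have hroot1 : ∀ y : R, y ^ (e + 1) = 1 → S.res y = 1 → y = 1 := by
    intro y hy hy1
    have h4 : (y - 1) * ∑ i ∈ Finset.range (e + 1), y ^ i = 0 := by
      rw [mul_comm, geom_sum_mul, hy, sub_self]
    rcases mul_eq_zero.1 h4 with h5 | h5
    · exact sub_eq_zero.1 h5
    · exfalso
      have h6 := congrArg S.res h5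
      rw [map_sum, map_zero, Finset.sum_congr rfl (g := fun _ => (1 : K)) (fun i _ => by
        rw [map_pow, hy1, one_pow]), Finset.sum_const, Finset.card_range, nsmul_eq_mul,
        mul_one] at h6
      exact heK h6
  have htau : S.tau z = S.zp ζ := by
    have h4 : S.tau z * S.zp ζ ^ e = 1 := by
      apply hroot1
      · rw [mul_pow, ← map_pow, hz1, map_one, one_mul, ← pow_mul, mul_comm e, pow_mul, hzR,
          one_pow]
      · rw [map_mul, S.res_tau, map_pow, ← hz, ← pow_succ', hz1]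
    calc S.tau z = S.tau z * S.zp ζ ^ (e + 1) := by rw [hzR, mul_one]
      _ = (S.tau z * S.zp ζ ^ e) * S.zp ζ := by rw [pow_succ, mul_assoc]
      _ = S.zp ζ := by rw [h4, one_mul]
  have hzprim : IsPrimitiveRoot z (e + 1) := by
    refine ⟨hz1, fun l hl => ?_⟩
    have h4 : S.zp ζ ^ l = 1 := by
      apply hroot1
      · rw [← pow_mul, mul_comm, pow_mul, hzR, one_pow]
      · rw [map_pow, ← hz, hl]
    rw [← htau, ← map_pow, hl, map_one] at h4
    -- the map zp is injective on roots of unity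
    have h5 : ζ ^ l = 1 := by
      by_contra h6
      have h7 : (ζ ^ l - 1) * ∑ i ∈ Finset.range (e + 1), (ζ ^ l) ^ i = 0 := by
        rw [mul_comm, geom_sum_mul, ← pow_mul, mul_comm l, pow_mul, hζ.pow_eq_one, one_pow,
          sub_self]
      rcases mul_eq_zero.1 h7 with h8 | h8
      · exact h6 (sub_eq_zero.1 h8)
      · have h9 := congrArg (fun x => S.res (S.zp x)) h8
        simp only [map_sum, map_zero, map_pow] at h9
        rw [← hz, hl, Finset.sum_congr rfl (g := fun _ => (1 : K)) (fun i _ => one_pow i),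
          Finset.sum_const, Finset.card_range, nsmul_eq_mul, mul_one] at h9
        exact heK h9
    exact hζ.dvd_of_pow_eq_one l h5
  have hzpprim : IsPrimitiveRoot (S.zp ζ) (e + 1) := by
    refine ⟨hzR, fun l hl => ?_⟩
    apply hzprim.dvd_of_pow_eq_one
    rw [hz, ← map_pow, hl, map_one]
  set bt : (ι → ZMod (e + 1)) → ι → K := fun b i => z ^ (b i).val with hbt
  have hbt0 : ∀ b i, bt b i ≠ 0 := fun b i => pow_ne_zero _ hz0
  set GF : Finset (ι → ZMod (e + 1)) := Finset.univ.filter (fun b => b ∈ Γ) with hGF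
  have hGFm : ∀ b, b ∈ GF ↔ b ∈ Γ := by
    intro b
    rw [hGF, Finset.mem_filter]
    exact ⟨fun h => h.2, fun h => ⟨Finset.mem_univ _, h⟩⟩
  set T : Finset (Σ _ : (ι → ZMod (e + 1)), ι → K) := GF.sigma
    (fun b => Fintype.piFinset (fun i => Polynomial.nthRootsFinset (w i) (bt b i))) with hT
  have hTm : ∀ j : (Σ _ : (ι → ZMod (e + 1)), ι → K), j ∈ T ↔
      j.1 ∈ Γ ∧ ∀ i, j.2 i ^ w i = bt j.1 i := by
    intro j
    rw [hT, Finset.mem_sigma, Fintype.mem_piFinset, hGFm]
    refine and_congr Iff.rfl (forall_congr' fun i => ?_)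
    exact Polynomial.mem_nthRootsFinset (hw0 i) _
  -- the symmetries
  have hsym : ∀ j ∈ T, SymOn e (qx c) j.2 := by
    intro j hj
    rw [hTm] at hj
    obtain ⟨hb, hγ⟩ := hj
    have hprod : ∀ s ∈ Z.S, ∏ i, j.2 i ^ (s i) = 1 := by
      intro s hs
      have h4 : ∏ i, j.2 i ^ (s i) = ∏ i, (z ^ (j.1 i).val) ^ (s i / w i) := by
        refine Finset.prod_congr rfl fun i _ => ?_
        obtain ⟨m, hm⟩ := hZw s hs i
        rw [hm, Nat.mul_div_cancel_left _ (hw0 i), pow_mul, hγ i]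
      rw [h4, prod_root z hz1, hΓ j.1 hb s hs, ZMod.val_zero, pow_zero]
    refine ⟨fun i => ?_, fun s hs hs0 => hprod s (hqx s hs0)⟩
    have h4 := hprod _ (Z.pure i)
    rw [Finset.prod_eq_single i] at h4
    · rwa [Finsupp.single_eq_same] at h4
    · intro k _ hk
      rw [Finsupp.single_eq_of_ne hk, pow_zero]
    · intro h
      exact absurd (Finset.mem_univ _) h
  have hprodγ : ∀ j ∈ T, ∀ u : ι → Fin e, (∀ i, w i ∣ (u i : ℕ) + 1) →
      ∏ i, j.2 i ^ ((u i : ℕ) + 1) =
        z ^ (∑ i, j.1 i * ((((u i : ℕ) + 1) / w i : ℕ) : ZMod (e + 1))).val := by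
    intro j hj u hu
    rw [hTm] at hj
    rw [← prod_root z hz1]
    refine Finset.prod_congr rfl fun i _ => ?_
    obtain ⟨m, hm⟩ := hu i
    rw [hm, Nat.mul_div_cancel_left _ (hw0 i), pow_mul, hj.2 i]
  have hsep : ∀ u' u : ι → Fin e, PC w Γ g u' → ¬ PC w Γ g u → ∃ j ∈ T,
      ∏ i, j.2 i ^ (u' i : ℕ) ≠ ∏ i, j.2 i ^ (u i : ℕ) := by
    intro u' u hu' hu
    by_cases hwu : ∀ i, w i ∣ (u i : ℕ) + 1
    · have h4 : ¬ ∀ b ∈ Γ, ∑ i, b i * ((((u i : ℕ) + 1) / w i : ℕ) : ZMod (e + 1)) =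
          ∑ i, b i * g i := fun h => hu ⟨hwu, h⟩
      push Not at h4
      obtain ⟨b, hb, hbne⟩ := h4
      have hγ : ∀ i, ∃ γ : K, γ ^ w i = bt b i := fun i =>
        IsAlgClosed.exists_pow_nat_eq _ (hw0 i)
      choose γ hγ using hγ
      have hj : (⟨b, γ⟩ : Σ _ : (ι → ZMod (e + 1)), ι → K) ∈ T := by
        rw [hTm]
        exact ⟨hb, hγ⟩
      refine ⟨⟨b, γ⟩, hj, ?_⟩
      intro h5
      apply hbne
      have h6 : ∏ i, γ i ^ ((u' i : ℕ) + 1) = ∏ i, γ i ^ ((u i : ℕ) + 1) := by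
        rw [prod_succ γ (fun i => (u' i : ℕ)), prod_succ γ (fun i => (u i : ℕ))]
        exact congrArg (· * ∏ i, γ i) h5
      rw [hprodγ _ hj u' hu'.1, hprodγ _ hj u hwu] at h6
      have h7 := hzprim.pow_inj (ZMod.val_lt _) (ZMod.val_lt _) h6
      have h8 := ZMod.val_injective _ h7
      change ∑ i, b i * ((((u' i : ℕ) + 1) / w i : ℕ) : ZMod (e + 1)) =
        ∑ i, b i * ((((u i : ℕ) + 1) / w i : ℕ) : ZMod (e + 1)) at h8
      rw [← h8]
      exact hu'.2 b hb
    · push Not at hwu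
      obtain ⟨i, hi⟩ := hwu
      have : NeZero ((w i : ℕ) : K) := ⟨hwK i⟩
      obtain ⟨η, hη⟩ := HasEnoughRootsOfUnity.exists_primitiveRoot K (w i)
      refine ⟨⟨0, Function.update (fun _ => 1) i η⟩, ?_, ?_⟩
      · rw [hTm]
        refine ⟨Γ.zero_mem, fun j => ?_⟩
        have h4 : bt 0 j = 1 := by
          change z ^ (ZMod.val (0 : ZMod (e + 1))) = 1
          rw [ZMod.val_zero, pow_zero]
        rw [h4]
        change (Function.update (fun _ => (1 : K)) i η) j ^ w j = 1
        by_cases hj : j = i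
        · subst hj
          rw [Function.update_self, hη.pow_eq_one]
        · rw [Function.update_of_ne hj, one_pow]
      · have h4 : ∀ v : ι → ℕ, ∏ j, (Function.update (fun _ => (1 : K)) i η) j ^ v j =
            η ^ v i := by
          intro v
          rw [Finset.prod_eq_single i]
          · rw [Function.update_self]
          · intro j _ hj
            rw [Function.update_of_ne hj, one_pow]
          · intro h
            exact absurd (Finset.mem_univ _) h
        change ∏ j, (Function.update (fun _ => (1 : K)) i η) j ^ (u' j : ℕ) ≠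
          ∏ j, (Function.update (fun _ => (1 : K)) i η) j ^ (u j : ℕ)
        rw [h4 (fun j => (u' j : ℕ)), h4 (fun j => (u j : ℕ))]
        intro h5
        apply hi
        rw [← hη.pow_eq_one_iff_dvd, pow_succ, ← h5, ← pow_succ, hη.pow_eq_one_iff_dvd]
        exact hu'.1 i
  -- the character sum
  have hχ : ∀ u : ι → Fin e, ∑ j ∈ T, S.zp (ζ ^ (-∑ i, j.1 i * g i).val) *
      ∏ i, S.tau (j.2 i) ^ ((u i : ℕ) + 1) =
      if PC w Γ g u then S.zp ((GF.card : ℕ) * ((∏ i, w i : ℕ) : ℤ_[p])) else 0 := by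
    intro u
    have h4 : ∀ b : ι → ZMod (e + 1), ∑ γ ∈ Fintype.piFinset
        (fun i => Polynomial.nthRootsFinset (w i) (bt b i)),
          S.zp (ζ ^ (-∑ i, b i * g i).val) * ∏ i, S.tau (γ i) ^ ((u i : ℕ) + 1) =
        S.zp (ζ ^ (-∑ i, b i * g i).val) * ∏ i, (if w i ∣ (u i : ℕ) + 1 then
          (w i : R) * S.tau (bt b i) ^ (((u i : ℕ) + 1) / w i) else 0) := by
      intro b
      rw [← Finset.mul_sum, ← Finset.prod_univ_sum
        (fun i => Polynomial.nthRootsFinset (w i) (bt b i))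
        (fun i x => S.tau x ^ ((u i : ℕ) + 1))]
      congr 1
      exact Finset.prod_congr rfl fun i _ =>
        sum_tau_pow' S (w i) (hw0 i) (hwK i) (bt b i) (hbt0 b i) _
    rw [hT, Finset.sum_sigma, Finset.sum_congr rfl fun b _ => h4 b]
    by_cases hwu : ∀ i, w i ∣ (u i : ℕ) + 1
    · set L : (ι → ZMod (e + 1)) →+ ZMod (e + 1) :=
        { toFun := fun b => (-∑ i, b i * g i) +
            ∑ i, b i * ((((u i : ℕ) + 1) / w i : ℕ) : ZMod (e + 1))
          map_zero' := by simp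
          map_add' := by
            intro x y
            simp only [Pi.add_apply, add_mul, Finset.sum_add_distrib]
            ring } with hL
      have h5 : ∀ b, S.zp (ζ ^ (-∑ i, b i * g i).val) * ∏ i, (if w i ∣ (u i : ℕ) + 1 then
          (w i : R) * S.tau (bt b i) ^ (((u i : ℕ) + 1) / w i) else 0) =
          (∏ i, (w i : R)) * S.zp ζ ^ (L b).val := by
        intro b
        rw [Finset.prod_congr rfl fun i _ => if_pos (hwu i), Finset.prod_mul_distrib]
        have h6 : ∏ i, S.tau (bt b i) ^ (((u i : ℕ) + 1) / w i) =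
            S.zp ζ ^ (∑ i, b i * ((((u i : ℕ) + 1) / w i : ℕ) : ZMod (e + 1))).val := by
          rw [← prod_root (S.zp ζ) hzR]
          refine Finset.prod_congr rfl fun i _ => ?_
          change S.tau (z ^ (b i).val) ^ _ = _
          rw [map_pow, htau]
        rw [h6, map_pow, hL]
        change _ = _ * S.zp ζ ^ ((-∑ i, b i * g i) +
            ∑ i, b i * ((((u i : ℕ) + 1) / w i : ℕ) : ZMod (e + 1))).val
        rw [pow_add_val (S.zp ζ) hzR]
        ring
      rw [Finset.sum_congr rfl fun b _ => h5 b, ← Finset.mul_sum, hGF,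
        sum_orth (S.zp ζ) hzpprim Γ L]
      have h7 : (∀ b ∈ Γ, L b = 0) ↔ PC w Γ g u := by
        unfold PC
        constructor
        · intro h
          refine ⟨hwu, fun b hb => ?_⟩
          have h8 : (-∑ i, b i * g i) +
            ∑ i, b i * ((((u i : ℕ) + 1) / w i : ℕ) : ZMod (e + 1)) = 0 := h b hb
          exact (neg_add_eq_zero.1 h8).symm
        · rintro ⟨-, h⟩ b hb
          change (-∑ i, b i * g i) +
            ∑ i, b i * ((((u i : ℕ) + 1) / w i : ℕ) : ZMod (e + 1)) = 0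
          rw [h b hb, neg_add_cancel]
      by_cases h8 : PC w Γ g u
      · rw [if_pos (h7.2 h8), if_pos h8, map_mul, map_natCast, map_natCast, Nat.cast_prod, mul_comm]
      · rw [if_neg (fun h => h8 (h7.1 h)), if_neg h8, mul_zero]
    · rw [if_neg (fun h : PC w Γ g u => hwu h.1)]
      push Not at hwu
      obtain ⟨i, hi⟩ := hwu
      refine Finset.sum_eq_zero fun b _ => ?_
      rw [Finset.prod_eq_zero (Finset.mem_univ i) (if_neg hi), mul_zero]
  -- the twisted counts
  have hcnt : ∀ a, 1 ≤ a → ∀ b, ∑ γ ∈ Fintype.piFinset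
      (fun i => Polynomial.nthRootsFinset (w i) (bt b i)), Nptw p (form (e + 1) (qx c)) γ a =
        (∏ i, w i) * Nptw p (wform w c) (bt b) a := by
    intro a ha b
    rw [hWC ι K p (e + 1) w (qx c) a (bt b) ha (Nat.succ_pos e) hp1 hcx hw (hbt0 b) hqxw, Nptw]
    simp only [eval_wform]
  have hcard : ∀ b, (Fintype.piFinset
      (fun i => Polynomial.nthRootsFinset (w i) (bt b i))).card = ∏ i, w i := by
    intro b
    rw [Fintype.card_piFinset]
    exact Finset.prod_congr rfl fun i _ => card_roots (w i) (hw0 i) (hwK i) _ (hbt0 b i)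
  refine class_hyp S hyp W Pool.Agent.H539.BK.h_Span he hp1 hge (qx c) hcx
    (fun s hs => qx_notMem c s hs) h2 h3 (PC w Γ g) _ T (fun j => j.2) hsym hsep
    (fun j => ζ ^ (-∑ i, j.1 i * g i).val) ((GF.card : ℕ) * ((∏ i, w i : ℕ) : ℤ_[p])) ?_ hχ St ?_
  · rw [map_mul, map_mul, map_natCast, map_natCast, map_natCast, map_natCast, Nat.cast_prod]
    refine mul_ne_zero ?_ (Finset.prod_ne_zero_iff.2 fun i _ => hwK i)
    intro h
    rw [CharP.cast_eq_zero_iff K p] at h
    have h4 : GF.card = Nat.card Γ := by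
      rw [Nat.card_eq_fintype_card, Fintype.card_subtype]
    have h5 : Nat.card Γ ∣ Nat.card (ι → ZMod (e + 1)) := AddSubgroup.card_addSubgroup_dvd_card Γ
    rw [Nat.card_eq_fintype_card (α := ι → ZMod (e + 1)), Fintype.card_fun, ZMod.card] at h5
    rw [h4] at h
    exact hpe (hp'.out.dvd_of_dvd_pow (h.trans h5))
  · intro a ha
    rw [mul_right_comm, hSt a ha, hT, Finset.sum_sigma, mul_assoc]
    congr 1
    rw [Finset.sum_mul]
    refine Finset.sum_congr rfl fun b _ => ?_
    change _ = ∑ γ ∈ Fintype.piFinset (fun i => Polynomial.nthRootsFinset (w i) (bt b i)),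
      ζ ^ (-∑ i, b i * g i).val *
        (((p ^ a * Nptw p (form (e + 1) (qx c)) γ a : ℕ) : ℤ_[p]) -
          ((p ^ (a * Fintype.card ι) : ℕ) : ℤ_[p]))
    rw [← Finset.mul_sum, Finset.sum_sub_distrib, Finset.sum_const, hcard]
    have h5 : ∑ γ ∈ Fintype.piFinset (fun i => Polynomial.nthRootsFinset (w i) (bt b i)),
        ((p ^ a * Nptw p (form (e + 1) (qx c)) γ a : ℕ) : ℤ_[p]) =
        ((p ^ a * ((∏ i, w i) * Nptw p (wform w c) (bt b) a) : ℕ) : ℤ_[p]) := by
      rw [← hcnt a ha b, Finset.mul_sum, Nat.cast_sum]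
    rw [h5, nsmul_eq_mul, mul_assoc]
    congr 1
    push_cast
    ring

end Pool.Agent.H887.BK
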