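import Pool.Agent.H887.BK.F3
import Pool.Agent.H253.BK.PTw
import Pool.Agent.H337.BK.Gr
import Pool.Agent.H233.BK.NewP

/-!
# The further parts together

The parts were proved by helper253 (twisted trace formula), helper337 (symmetries) and helper233
(Newton polygons over the `p`-adic numbers).
-/

set_option autoImplicit false

namespace Pool.Agent.H887.BK

theorem hypW : HypW where
  ptw := Pool.Agent.H253.BK.h_PTw
  bgr := Pool.Agent.H337.BKG.h_BGr
  rdgr := Pool.Agent.H337.BKG.h_RdGr
  kgw := Pool.Agent.H337.BKG.h_KGw

end Pool.Agent.H887.BK
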