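import Pool.Agent.H887.BK.F4

/-!
# Hodge numbers of the summands
-/

set_option autoImplicit false
set_option linter.unusedSectionVars false
set_option linter.unusedVariables false

namespace Pool.Agent.H887.BK

open MvPolynomial Pool.Agent.H425

variable {ι : Type} [Fintype ι] [DecidableEq ι]

/-- the number of elements of the box of given weight with the property `P` -/
def hdgP (ι : Type) [Fintype ι] [DecidableEq ι] (e : ℕ) (P : (ι → Fin e) → Prop) [DecidablePred P]
    (i : ℕ) : ℕ :=
  (Finset.univ.filter fun u : ι → Fin e => wt u = (i + 1) * (e + 1) ∧ P u).card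

variable {e : ℕ} (P : (ι → Fin e) → Prop) [DecidablePred P]

theorem card_fibP [Nonempty ι] (i : ℕ) :
    (Finset.univ.filter fun u : Mp ι e P => hp u = i).card = hdgP ι e P i := by
  classical
  unfold hdgP
  refine Finset.card_bij (fun u _ => u.1) ?_ ?_ ?_
  · intro u hu
    rw [Finset.mem_filter] at hu ⊢
    refine ⟨Finset.mem_univ _, ?_, u.2.2⟩
    rw [wt_hp u, hu.2, mul_comm]
  · intro u _ v _ h
    exact Subtype.ext h
  · intro u hu
    rw [Finset.mem_filter] at hu
    have h1 : (e + 1) ∣ wt u := by rw [hu.2.1]; exact dvd_mul_left _ _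
    have h0 := hu.2.2
    have h2 : wt u = _ := wt_hp (⟨u, h1, h0⟩ : Mp ι e P)
    refine ⟨⟨u, h1, h0⟩, Finset.mem_filter.2 ⟨Finset.mem_univ _, ?_⟩, rfl⟩
    have h3 : (e + 1) * (hp (⟨u, h1, h0⟩ : Mp ι e P) + 1) = (e + 1) * (i + 1) :=
      (h2.symm.trans hu.2.1).trans (mul_comm _ _)
    have := Nat.eq_of_mul_eq_mul_left (Nat.succ_pos e) h3
    omega

theorem sum_lowP [Nonempty ι] (j : ℕ) (F : ℕ → ℕ) :
    ∑ u ∈ Finset.univ.filter (fun u : Mp ι e P => hp u < j), F (hp u) =
      ∑ i ∈ Finset.range j, hdgP ι e P i * F i := by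
  classical
  rw [← Finset.sum_fiberwise_of_maps_to (s := Finset.univ.filter (fun u : Mp ι e P => hp u < j))
    (t := Finset.range j) (g := hp) (fun u hu => Finset.mem_range.2 (Finset.mem_filter.1 hu).2)]
  refine Finset.sum_congr rfl fun i hi => ?_
  rw [Finset.filter_filter]
  have h1 : (Finset.univ.filter fun u : Mp ι e P => hp u < j ∧ hp u = i) =
      Finset.univ.filter fun u : Mp ι e P => hp u = i := by
    refine Finset.filter_congr fun u _ => ?_
    have := Finset.mem_range.1 hi
    omega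
  rw [h1, ← card_fibP P i, ← smul_eq_mul, ← Finset.sum_const]
  refine Finset.sum_congr rfl fun u hu => ?_
  rw [(Finset.mem_filter.1 hu).2]

theorem sum_truncP [Nonempty ι] (j : ℕ) :
    ∑ u : Mp ι e P, (j - hp u) = ∑ i ∈ Finset.range j, hdgP ι e P i * (j - i) := by
  rw [← sum_lowP P j (fun i => j - i)]
  symm
  refine Finset.sum_subset (Finset.subset_univ _) ?_
  intro u _ hu
  rw [Finset.mem_filter, not_and] at hu
  have := hu (Finset.mem_univ _)
  omega

theorem hp_lt [Nonempty ι] (he : 0 < e) (u : Mp ι e P) : hp u < Fintype.card ι :=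
  hh_lt he (⟨u.1, u.2.1⟩ : Mm ι e)

theorem card_MpP [Nonempty ι] (he : 0 < e) :
    Fintype.card (Mp ι e P) = ∑ i ∈ Finset.range (Fintype.card ι), hdgP ι e P i := by
  have h1 := sum_lowP P (Fintype.card ι) (fun _ => 1)
  simp only [mul_one] at h1
  rw [← h1, Finset.sum_const, smul_eq_mul, mul_one, ← Finset.card_univ]
  congr 1
  symm
  rw [Finset.filter_true_of_mem]
  intro u _
  exact hp_lt P he u

theorem card_lowP [Nonempty ι] (j : ℕ) :
    (Finset.univ.filter (fun u : Mp ι e P => hp u < j)).card =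
      ∑ i ∈ Finset.range j, hdgP ι e P i := by
  have h5 := sum_lowP P j (fun _ => 1)
  simp only [mul_one] at h5
  rw [← h5, Finset.sum_const, smul_eq_mul, mul_one]

end Pool.Agent.H887.BK
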