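import Pool.Agent.H887.BK.F5
import Pool.Agent.H894.BK.WCntT
import Pool.Agent.H738.BK.Orb

/-!
# Summands of the cohomology of weighted hypersurfaces: Hodge numbers and Newton polygons
-/

set_option autoImplicit false
set_option linter.unusedSectionVars false
set_option linter.unusedVariables false

namespace Pool.Agent.H887.BK

open MvPolynomial Pool.Agent.H425

/-- the monomials of the weighted Jacobian ring in a given class -/
def WM {n : ℕ} (w : Fin n → ℕ) (e : ℕ) (Γ : AddSubgroup (Fin n → ZMod (e + 1)))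
    (g : Fin n → ZMod (e + 1)) (i : ℕ) : Type :=
  {u : (j : Fin n) → Fin ((e + 1) / w j - 1) //
    ∑ j, w j * ((u j : ℕ) + 1) = (i + 1) * (e + 1) ∧
    ∀ b ∈ Γ, ∑ j, b j * ((((u j : ℕ) + 1 : ℕ)) : ZMod (e + 1)) = ∑ j, b j * g j}

open Classical in
theorem hdg_WM {n : ℕ} (w : Fin n → ℕ) (e : ℕ) (hw : ∀ i, w i ∣ e + 1)
    (Γ : AddSubgroup (Fin n → ZMod (e + 1))) (g : Fin n → ZMod (e + 1)) (i : ℕ) :
    hdgP (Fin n) e (PC w Γ g) i = Nat.card (WM w e Γ g i) := by
  have hw0 : ∀ i, 0 < w i := fun i => Nat.pos_of_dvd_of_pos (hw i) (Nat.succ_pos e)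
  have hwt : ∀ u : Fin n → Fin e, wt u = ∑ j, ((u j : ℕ) + 1) := by
    intro u
    rw [Finset.sum_add_distrib, Finset.sum_const, smul_eq_mul, mul_one, Finset.card_univ, wt, bdeg]
  unfold hdgP
  rw [← Fintype.card_subtype, ← Nat.card_eq_fintype_card]
  refine Nat.card_congr ?_
  exact
    { toFun := fun u => ⟨fun j => ⟨((u.1 j : ℕ) + 1) / w j - 1, by
          obtain ⟨m, hm⟩ := u.2.2.1 j
          obtain ⟨M, hM⟩ := hw j
          rw [hm, hM, Nat.mul_div_cancel_left _ (hw0 j), Nat.mul_div_cancel_left _ (hw0 j)]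
          have h1 := (u.1 j).2
          have h2 : w j * m < w j * M := by omega
          have h3 := Nat.lt_of_mul_lt_mul_left h2
          have h4 : m ≠ 0 := by
            rintro rfl
            omega
          omega⟩, by
          have h0 : ∀ j, ((u.1 j : ℕ) + 1) / w j - 1 + 1 = ((u.1 j : ℕ) + 1) / w j := by
            intro j
            obtain ⟨m, hm⟩ := u.2.2.1 j
            rw [hm, Nat.mul_div_cancel_left _ (hw0 j)]
            have h4 : m ≠ 0 := by
              rintro rfl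
              omega
            omega
          refine ⟨?_, ?_⟩
          · refine Eq.trans (Finset.sum_congr rfl fun j _ => ?_) ((hwt u.1).symm.trans u.2.1)
            change w j * (((u.1 j : ℕ) + 1) / w j - 1 + 1) = _
            rw [h0, Nat.mul_div_cancel' (u.2.2.1 j)]
          · intro b hb
            rw [← u.2.2.2 b hb]
            refine Finset.sum_congr rfl fun j _ => ?_
            change b j * (((((u.1 j : ℕ) + 1) / w j - 1 + 1 : ℕ)) : ZMod (e + 1)) = _
            rw [h0]⟩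
      invFun := fun u => ⟨fun j => ⟨w j * ((u.1 j : ℕ) + 1) - 1, by
          obtain ⟨M, hM⟩ := hw j
          have h1 := (u.1 j).2
          have h5 : (e + 1) / w j = M := by rw [hM, Nat.mul_div_cancel_left _ (hw0 j)]
          have h2 : (u.1 j : ℕ) + 1 < M := by omega
          have h3 : w j * ((u.1 j : ℕ) + 1) < w j * M := Nat.mul_lt_mul_of_pos_left h2 (hw0 j)
          have h4 : 0 < w j * ((u.1 j : ℕ) + 1) := Nat.mul_pos (hw0 j) (Nat.succ_pos _)
          omega⟩, by
          have h0 : ∀ j, w j * ((u.1 j : ℕ) + 1) - 1 + 1 = w j * ((u.1 j : ℕ) + 1) := by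
            intro j
            have h4 : 0 < w j * ((u.1 j : ℕ) + 1) := Nat.mul_pos (hw0 j) (Nat.succ_pos _)
            omega
          refine ⟨?_, fun j => ?_, ?_⟩
          · rw [hwt]
            exact Eq.trans (Finset.sum_congr rfl fun j _ => h0 j) u.2.1
          · change w j ∣ w j * ((u.1 j : ℕ) + 1) - 1 + 1
            rw [h0]
            exact dvd_mul_right _ _
          · intro b hb
            rw [← u.2.2 b hb]
            refine Finset.sum_congr rfl fun j _ => ?_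
            change b j * ((((w j * ((u.1 j : ℕ) + 1) - 1 + 1) / w j : ℕ)) : ZMod (e + 1)) = _
            rw [h0, Nat.mul_div_cancel_left _ (hw0 j)]⟩
      left_inv := by
        intro u
        apply Subtype.ext
        funext j
        apply Fin.ext
        change w j * ((((u.1 j : ℕ) + 1) / w j - 1) + 1) - 1 = u.1 j
        obtain ⟨m, hm⟩ := u.2.2.1 j
        have h4 : m ≠ 0 := by
          rintro rfl
          omega
        rw [hm, Nat.mul_div_cancel_left _ (hw0 j), show m - 1 + 1 = m by omega, ← hm]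
        omega
      right_inv := by
        intro u
        apply Subtype.ext
        funext j
        apply Fin.ext
        change (w j * ((u.1 j : ℕ) + 1) - 1 + 1) / w j - 1 = u.1 j
        have h4 : 0 < w j * ((u.1 j : ℕ) + 1) := Nat.mul_pos (hw0 j) (Nat.succ_pos _)
        rw [show w j * ((u.1 j : ℕ) + 1) - 1 + 1 = w j * ((u.1 j : ℕ) + 1) by omega,
          Nat.mul_div_cancel_left _ (hw0 j)]
        omega }

open Classical in
/-- **A summand of the cohomology of a weighted hypersurface outside the exceptional set.** -/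
theorem grp_good {n : ℕ} (hn : 1 ≤ n) {p e : ℕ} [hp' : Fact p.Prime] (he : 0 < e)
    (hp1 : p ≡ 1 [MOD (e + 1)]) (hge : P0 (Fin n) e ≤ p) {K : Type} [Field K] [IsAlgClosed K]
    [CharP K p]
    {Z : Sup (Fin n) e} (w : Fin n → ℕ) (hw : ∀ i, w i ∣ e + 1) (hZw : ∀ s ∈ Z.S, ∀ i, w i ∣ s i)
    (c : Par Z → K) (hc : ∀ u, c u ^ p = c u) (hN : Nice p e he c)
    (Γ : AddSubgroup (Fin n → ZMod (e + 1)))
    (hΓ : ∀ b ∈ Γ, ∀ s ∈ Z.S, ∑ i, b i * ((s i / w i : ℕ) : ZMod (e + 1)) = 0)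
    (g : Fin n → ZMod (e + 1)) (ζ : ℤ_[p]) (hζ : IsPrimitiveRoot ζ (e + 1)) (St : ℕ → ℤ_[p])
    (hSt : ∀ a, 1 ≤ a → (((Finset.univ.filter (fun b => b ∈ Γ)).card : ℕ) : ℤ_[p]) * St a =
      (-1) ^ n * ∑ b ∈ Finset.univ.filter (fun b => b ∈ Γ),
        ζ ^ (-∑ i, b i * g i).val *
        ((p ^ a * Nptw p (wform w c)
            (fun i => (((PadicInt.toZMod ζ).val : ℕ) : K) ^ (b i).val) a : ℕ) -
          (p ^ (a * n) : ℕ))) :
    ∃ C : ℕ → ℚ_[p], C 0 = 1 ∧
      (∀ k : ℕ, ((k : ℚ_[p]) + 1) * C (k + 1) = -∑ i ∈ Finset.range (k + 1),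
        (St (i + 1) : ℚ_[p]) / (((p : ℚ_[p]) ^ (i + 1) - 1) * (p : ℚ_[p]) ^ (i + 1)) *
          C (k - i)) ∧
      (∀ k, ∑ i ∈ Finset.range n, Nat.card (WM w e Γ g i) < k → C k = 0) ∧
      (∀ k j : ℕ, C k ≠ 0 →
        ((j * k : ℕ) : ℤ) -
          ((∑ i ∈ Finset.range j, Nat.card (WM w e Γ g i) * (j - i) : ℕ) : ℤ) ≤
          (C k).valuation) ∧
      (∀ j : ℕ, C (∑ i ∈ Finset.range j, Nat.card (WM w e Γ g i)) ≠ 0 ∧
        (C (∑ i ∈ Finset.range j, Nat.card (WM w e Γ g i))).valuation =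
          ((∑ i ∈ Finset.range j, Nat.card (WM w e Γ g i) * i : ℕ) : ℤ)) := by
  have hne : Nonempty (Fin n) := ⟨⟨0, hn⟩⟩
  have hpos : 0 < (e + 1) * (p - 1) :=
    Nat.mul_pos (Nat.succ_pos e) (Nat.sub_pos_of_lt hp'.out.one_lt)
  have hdom : IsDomain (Constr.RR p ((e + 1) * (p - 1)) K) := Constr.RR_domain p _ _ hpos
  let S := Constr.setup p K (e + 1) (Nat.succ_pos e) hdom
  have hres : S.res (S.zp ζ) = (((PadicInt.toZMod ζ).val : ℕ) : K) := by
    have h1 : PadicInt.toZMod (ζ - (((PadicInt.toZMod ζ).val : ℕ) : ℤ_[p])) = 0 := by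
      rw [map_sub, map_natCast, ZMod.natCast_zmod_val, sub_self]
    have h2 : ζ - (((PadicInt.toZMod ζ).val : ℕ) : ℤ_[p]) ∈
        RingHom.ker (PadicInt.toZMod (p := p)) := h1
    rw [PadicInt.ker_toZMod, PadicInt.maximalIdeal_eq_span_p, Ideal.mem_span_singleton] at h2
    obtain ⟨y, hy⟩ := h2
    have h3 : ζ = (((PadicInt.toZMod ζ).val : ℕ) : ℤ_[p]) + (p : ℤ_[p]) * y := by
      rw [← hy]
      ring
    conv_lhs => rw [h3]
    rw [map_add, map_add, map_mul, map_mul, map_natCast, map_natCast, map_natCast, map_natCast,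
      CharP.cast_eq_zero K p, zero_mul, add_zero]
  have hcard : Fintype.card (Fin n) = n := Fintype.card_fin n
  obtain ⟨bb, hbb, hdet⟩ := grp_hyp hypW Pool.Agent.H894.BK.h_WCntT he hp1 hge S w hw hZw c hc hN Γ
    hΓ g ζ hζ St (by
      intro a ha
      rw [hSt a ha, hcard, hres])
  obtain ⟨C, hC0, hC1, hC2, hC3, hC4⟩ := Pool.Agent.H233.BK.h_NewP p (e + 1) K _ (toPre S)
    (Mp (Fin n) e (PC w Γ g)) hp St bb (Nat.succ_pos e) (card_Mp_lt hge _) hbb hdet
  have hs1 := fun j => card_lowP (PC w Γ g) j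
  have hs2 := fun j => sum_truncP (PC w Γ g) j
  have hs3 := fun j => sum_lowP (PC w Γ g) j (fun i => i)
  have hs4 := card_MpP (PC w Γ g) he
  simp only [hdg_WM w e hw Γ g, hcard] at hs1 hs2 hs3 hs4
  refine ⟨C, hC0, hC1, ?_, ?_, ?_⟩
  · rw [← hs4]
    exact hC2
  · intro k j hk
    rw [← hs2 j]
    exact hC3 k j hk
  · intro j
    rw [← hs1 j, ← hs3 j]
    exact hC4 j

end Pool.Agent.H887.BK
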