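import Pool.Agent.H887.BK.F6

/-!
# Weighted monomials, and points of quotients by finite groups
-/

set_option autoImplicit false
set_option linter.unusedSectionVars false
set_option linter.unusedVariables false

namespace Pool.Agent.H887.BK

open MvPolynomial Pool.Agent.H425

section sc

variable {n : ℕ}

/-- the exponent `(w_i u_i)` -/
noncomputable def sc (w : Fin n → ℕ) (u : Fin n →₀ ℕ) : Fin n →₀ ℕ :=
  Finsupp.equivFunOnFinite.symm fun i => w i * u i

theorem sc_apply (w : Fin n → ℕ) (u : Fin n →₀ ℕ) (i : Fin n) : sc w u i = w i * u i := rfl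

theorem sc_inj (w : Fin n → ℕ) (hw : ∀ i, 0 < w i) : Function.Injective (sc w) := by
  intro u v h
  ext i
  have h1 := DFunLike.congr_fun h i
  rw [sc_apply, sc_apply] at h1
  exact Nat.eq_of_mul_eq_mul_left (hw i) h1

variable {e : ℕ}

/-- the monomials of the covering -/
noncomputable def supW (w : Fin n → ℕ) (hw : ∀ i, w i ∣ e + 1) (Z : Finset (Fin n →₀ ℕ))
    (hZ : ∀ u ∈ Z, ∑ i, w i * u i = e + 1) (hZ' : ∀ i, Finsupp.single i ((e + 1) / w i) ∈ Z) :
    Sup (Fin n) e where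
  S := Z.image (sc w)
  pure := by
    intro i
    rw [Finset.mem_image]
    refine ⟨_, hZ' i, ?_⟩
    ext j
    rw [sc_apply]
    by_cases hj : i = j
    · subst hj
      rw [Finsupp.single_eq_same, Finsupp.single_eq_same, Nat.mul_div_cancel' (hw i)]
    · rw [Finsupp.single_eq_of_ne' hj, Finsupp.single_eq_of_ne' hj, mul_zero]
  deg := by
    intro s hs
    rw [Finset.mem_image] at hs
    obtain ⟨u, hu, rfl⟩ := hs
    rw [Finsupp.degree_eq_sum]
    exact hZ u hu

/-- the monomials of the hypersurface and of its covering -/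
noncomputable def eqvW (w : Fin n → ℕ) (hw : ∀ i, w i ∣ e + 1) (Z : Finset (Fin n →₀ ℕ))
    (hZ : ∀ u ∈ Z, ∑ i, w i * u i = e + 1) (hZ' : ∀ i, Finsupp.single i ((e + 1) / w i) ∈ Z) :
    {u // u ∈ Z} ≃ Par (supW w hw Z hZ hZ') :=
  Equiv.ofBijective (fun u => ⟨sc w u.1, Finset.mem_image_of_mem _ u.2⟩) (by
    have hw0 : ∀ i, 0 < w i := fun i => Nat.pos_of_dvd_of_pos (hw i) (Nat.succ_pos e)
    refine ⟨fun u v h => ?_, fun s => ?_⟩
    · exact Subtype.ext (sc_inj w hw0 (congrArg Subtype.val h))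
    · obtain ⟨u, hu, hs⟩ := Finset.mem_image.1 s.2
      exact ⟨⟨u, hu⟩, Subtype.ext hs⟩)

theorem eqvW_val (w : Fin n → ℕ) (hw : ∀ i, w i ∣ e + 1) (Z : Finset (Fin n →₀ ℕ))
    (hZ : ∀ u ∈ Z, ∑ i, w i * u i = e + 1) (hZ' : ∀ i, Finsupp.single i ((e + 1) / w i) ∈ Z)
    (u : {u // u ∈ Z}) : (eqvW w hw Z hZ hZ' u).1 = sc w u.1 := rfl

theorem sc_div (w : Fin n → ℕ) (hw0 : ∀ i, 0 < w i) (u : Fin n →₀ ℕ) (i : Fin n) :
    sc w u i / w i = u i := by
  rw [sc_apply, Nat.mul_div_cancel_left _ (hw0 i)]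

theorem wform_eqv (w : Fin n → ℕ) (hw : ∀ i, w i ∣ e + 1) (Z : Finset (Fin n →₀ ℕ))
    (hZ : ∀ u ∈ Z, ∑ i, w i * u i = e + 1) (hZ' : ∀ i, Finsupp.single i ((e + 1) / w i) ∈ Z)
    {K : Type} [CommRing K] (c : Par (supW w hw Z hZ hZ') → K) :
    wform w c = ∑ u : {u // u ∈ Z}, monomial u.1 (c (eqvW w hw Z hZ hZ' u)) := by
  have hw0 : ∀ i, 0 < w i := fun i => Nat.pos_of_dvd_of_pos (hw i) (Nat.succ_pos e)
  rw [wform, ← Equiv.sum_comp (eqvW w hw Z hZ hZ')]
  refine Finset.sum_congr rfl fun u _ => ?_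
  congr 1
  congr 1
  ext i
  change (eqvW w hw Z hZ hZ' u).1 i / w i = u.1 i
  rw [eqvW_val, sc_div w hw0]

theorem supW_w (w : Fin n → ℕ) (hw : ∀ i, w i ∣ e + 1) (Z : Finset (Fin n →₀ ℕ))
    (hZ : ∀ u ∈ Z, ∑ i, w i * u i = e + 1) (hZ' : ∀ i, Finsupp.single i ((e + 1) / w i) ∈ Z) :
    ∀ s ∈ (supW w hw Z hZ hZ').S, ∀ i, w i ∣ s i := by
  intro s hs i
  obtain ⟨u, hu, rfl⟩ := Finset.mem_image.1 hs
  exact dvd_mul_right _ _

theorem supW_sym (w : Fin n → ℕ) (hw : ∀ i, w i ∣ e + 1) (Z : Finset (Fin n →₀ ℕ))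
    (hZ : ∀ u ∈ Z, ∑ i, w i * u i = e + 1) (hZ' : ∀ i, Finsupp.single i ((e + 1) / w i) ∈ Z)
    (Γ : AddSubgroup (Fin n → ZMod (e + 1)))
    (hΓ : ∀ b ∈ Γ, ∀ u ∈ Z, ∑ i, b i * ((u i : ℕ) : ZMod (e + 1)) = 0) :
    ∀ b ∈ Γ, ∀ s ∈ (supW w hw Z hZ hZ').S,
      ∑ i, b i * ((s i / w i : ℕ) : ZMod (e + 1)) = 0 := by
  have hw0 : ∀ i, 0 < w i := fun i => Nat.pos_of_dvd_of_pos (hw i) (Nat.succ_pos e)
  intro b hb s hs
  obtain ⟨u, hu, rfl⟩ := Finset.mem_image.1 hs
  rw [← hΓ b hb u hu]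
  refine Finset.sum_congr rfl fun i _ => ?_
  rw [sc_div w hw0]

end sc

section orb

variable {n d : ℕ} [NeZero d] {K : Type} [Field K]

/-- the action of a group of exponents on the zeros of an invariant form -/
@[reducible]
noncomputable def actG (z : K) (hz : z ^ d = 1) (f : MvPolynomial (Fin n) K)
    (Γ : AddSubgroup (Fin n → ZMod d))
    (hf : ∀ b ∈ Γ, ∀ ξ : Fin n → K, eval ξ f = 0 → eval (fun i => z ^ (b i).val * ξ i) f = 0) :
    MulAction (Multiplicative Γ) {ξ : Fin n → K // eval ξ f = 0} where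
  smul b ξ := ⟨fun i => z ^ ((Multiplicative.toAdd b).1 i).val * ξ.1 i,
    hf _ (Multiplicative.toAdd b).2 _ ξ.2⟩
  one_smul ξ := by
    apply Subtype.ext
    funext i
    change z ^ ((0 : Fin n → ZMod d) i).val * ξ.1 i = ξ.1 i
    rw [Pi.zero_apply, ZMod.val_zero, pow_zero, one_mul]
  mul_smul b b' ξ := by
    apply Subtype.ext
    funext i
    change z ^ (((Multiplicative.toAdd b).1 + (Multiplicative.toAdd b').1) i).val * ξ.1 i =
      z ^ ((Multiplicative.toAdd b).1 i).val * (z ^ ((Multiplicative.toAdd b').1 i).val * ξ.1 i)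
    rw [Pi.add_apply, pow_add_val z hz, mul_assoc]

open Classical in
/-- **Points of the quotient and twisted points.** -/
theorem orb_count (hOrb : S_Orb) (z : K) (hz : z ^ d = 1) (p : ℕ) [hp : Fact p.Prime] [CharP K p]
    (hp1 : p ≡ 1 [MOD d]) (f : MvPolynomial (Fin n) K) (hfp : ∀ s, coeff s f ^ p = coeff s f)
    (Γ : AddSubgroup (Fin n → ZMod d))
    (hf : ∀ b ∈ Γ, ∀ ξ : Fin n → K, eval ξ f = 0 → eval (fun i => z ^ (b i).val * ξ i) f = 0)
    (a : ℕ) (ha : 1 ≤ a) :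
    ∑ b ∈ Finset.univ.filter (fun b => b ∈ Γ), Nptw p f (fun i => z ^ (b i).val) a =
      (Finset.univ.filter (fun b => b ∈ Γ)).card *
        Nat.card {o : Set (Fin n → K) // ∃ ξ, o = {η | ∃ b ∈ Γ, ∀ i, η i = z ^ (b i).val * ξ i} ∧
          eval ξ f = 0 ∧ (fun i => ξ i ^ p ^ a) ∈ o} := by
  let _ := actG z hz f Γ hf
  have hsmul : ∀ (b : Multiplicative Γ) (ξ : {ξ : Fin n → K // eval ξ f = 0}) (i : Fin n),
      (b • ξ).1 i = z ^ ((Multiplicative.toAdd b).1 i).val * ξ.1 i := fun b ξ i => rfl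
  have hzp : ∀ a : ℕ, z ^ p ^ a = z := by
    intro a
    have h1 : p ^ a ≡ 1 [MOD d] := by
      have := hp1.pow a
      rwa [one_pow] at this
    have h2 : z ^ (p ^ a) = z ^ 1 := by
      rw [pow_eq_pow_mod (p ^ a) hz, h1, ← pow_eq_pow_mod 1 hz]
    rw [h2, pow_one]
  have hfr : ∀ (ξ : Fin n → K), eval (fun i => ξ i ^ p ^ a) f = (eval ξ f) ^ p ^ a := by
    intro ξ
    have hcoef : ∀ (a : ℕ) s, coeff s f ^ p ^ a = coeff s f := by
      intro a s
      induction a with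
      | zero => rw [pow_zero, pow_one]
      | succ a ih => rw [pow_succ, pow_mul, ih, hfp]
    have : ExpChar K p := ExpChar.prime hp.out
    have h1 : (eval ξ f) ^ p ^ a = iterateFrobenius K p a (eval ξ f) := rfl
    rw [h1, eval_eq', eval_eq', map_sum]
    refine Finset.sum_congr rfl fun s _ => ?_
    rw [map_mul, map_prod]
    change coeff s f * _ = coeff s f ^ p ^ a * _
    rw [hcoef]
    congr 1
    refine Finset.prod_congr rfl fun i _ => ?_
    rw [map_pow]
    rfl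
  let F : {ξ : Fin n → K // eval ξ f = 0} → {ξ : Fin n → K // eval ξ f = 0} := fun ξ =>
    ⟨fun i => ξ.1 i ^ p ^ a, by
      rw [hfr, ξ.2, zero_pow (pow_ne_zero _ hp.out.ne_zero)]⟩
  have hF : ∀ (g : Multiplicative Γ) (x : {ξ : Fin n → K // eval ξ f = 0}),
      F (g • x) = g • F x := by
    intro g x
    apply Subtype.ext
    funext i
    rw [hsmul]
    change ((g • x).1 i) ^ p ^ a = _ * (x.1 i) ^ p ^ a
    rw [hsmul, mul_pow, ← pow_mul, mul_comm (ZMod.val _), pow_mul, hzp]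
  have hd0 : 0 < d := Nat.pos_of_ne_zero (NeZero.ne d)
  have hfin : {x : {ξ : Fin n → K // eval ξ f = 0} |
      F x ∈ MulAction.orbit (Multiplicative Γ) x}.Finite := by
    set P : Polynomial K := Polynomial.X ^ (p ^ a * d) - Polynomial.X ^ d with hP
    have hP0 : P ≠ 0 := by
      intro h
      have h1 := congrArg (fun Q => Polynomial.coeff Q (p ^ a * d)) h
      simp only [hP, Polynomial.coeff_sub, Polynomial.coeff_X_pow, if_true,
        Polynomial.coeff_zero] at h1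
      have h2 : 2 ≤ p ^ a := by
        calc 2 ≤ p := hp.out.two_le
          _ = p ^ 1 := (pow_one p).symm
          _ ≤ p ^ a := Nat.pow_le_pow_right hp.out.pos ha
      have h3 : p ^ a * d ≠ d := by
        intro h3
        have h4 : 2 * d ≤ p ^ a * d := Nat.mul_le_mul_right d h2
        omega
      rw [if_neg h3, sub_zero] at h1
      exact one_ne_zero h1
    have h1 : {x : {ξ : Fin n → K // eval ξ f = 0} |
        F x ∈ MulAction.orbit (Multiplicative Γ) x} ⊆
        (Subtype.val) ⁻¹' (Set.pi Set.univ (fun _ : Fin n => {y : K | P.IsRoot y})) := by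
      rintro x ⟨g, hg⟩ i -
      have h2 : z ^ ((Multiplicative.toAdd g).1 i).val * x.1 i = x.1 i ^ p ^ a := by
        have h3 := congrFun (congrArg Subtype.val hg) i
        exact h3
      change P.IsRoot (x.1 i)
      simp only [hP, Polynomial.IsRoot.def, Polynomial.eval_sub, Polynomial.eval_pow,
        Polynomial.eval_X]
      rw [pow_mul, ← h2, mul_pow, ← pow_mul, mul_comm (ZMod.val _), pow_mul, hz, one_pow, one_mul,
        sub_self]
    refine Set.Finite.subset ?_ h1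
    refine Set.Finite.preimage Subtype.val_injective.injOn (Set.Finite.pi fun _ => ?_)
    exact Polynomial.finite_setOfPred_isRoot hP0
  have hmain := hOrb (Multiplicative Γ) {ξ : Fin n → K // eval ξ f = 0} F hF hfin
  have h1 : ∀ g : Multiplicative Γ, Nat.card {x : {ξ : Fin n → K // eval ξ f = 0} //
      F x = g • x} = Nptw p f (fun i => z ^ ((Multiplicative.toAdd g).1 i).val) a := by
    intro g
    unfold Nptw
    refine Nat.card_congr
      { toFun := fun x => ⟨x.1.1, fun i => congrFun (congrArg Subtype.val x.2) i, x.1.2⟩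
        invFun := fun x => ⟨⟨x.1, x.2.2⟩, Subtype.ext (funext fun i => x.2.1 i)⟩
        left_inv := fun x => rfl
        right_inv := fun x => rfl }
  have h2 : Nat.card {o : Set {ξ : Fin n → K // eval ξ f = 0} //
      ∃ x, o = MulAction.orbit (Multiplicative Γ) x ∧ F x ∈ o} =
      Nat.card {o : Set (Fin n → K) // ∃ ξ, o = {η | ∃ b ∈ Γ, ∀ i, η i = z ^ (b i).val * ξ i} ∧
          eval ξ f = 0 ∧ (fun i => ξ i ^ p ^ a) ∈ o} := by
    have himg : ∀ x : {ξ : Fin n → K // eval ξ f = 0},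
        Subtype.val '' (MulAction.orbit (Multiplicative Γ) x) =
        {η | ∃ b ∈ Γ, ∀ i, η i = z ^ (b i).val * x.1 i} := by
      intro x
      ext η
      constructor
      · rintro ⟨y, ⟨g, rfl⟩, rfl⟩
        exact ⟨(Multiplicative.toAdd g).1, (Multiplicative.toAdd g).2, fun i => rfl⟩
      · rintro ⟨b, hb, hη⟩
        refine ⟨(Multiplicative.ofAdd (⟨b, hb⟩ : Γ)) • x, ⟨_, rfl⟩, ?_⟩
        funext i
        rw [hη i]
        rfl
    refine Nat.card_congr (Equiv.ofBijective (fun o => ⟨Subtype.val '' o.1, ?_⟩) ⟨?_, ?_⟩)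
    · obtain ⟨x, hx, hFx⟩ := o.2
      refine ⟨x.1, by rw [hx, himg], x.2, ?_⟩
      exact ⟨F x, hFx, rfl⟩
    · intro o o' h
      have h3 := congrArg Subtype.val h
      exact Subtype.ext (Set.image_injective.2 Subtype.val_injective h3)
    · rintro ⟨o, ξ, ho, hξ, hFξ⟩
      refine ⟨⟨MulAction.orbit (Multiplicative Γ) ⟨ξ, hξ⟩, ⟨ξ, hξ⟩, rfl, ?_⟩, ?_⟩
      · rw [ho] at hFξ
        obtain ⟨b, hb, hb'⟩ := hFξ
        refine ⟨Multiplicative.ofAdd (⟨b, hb⟩ : Γ), ?_⟩
        apply Subtype.ext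
        funext i
        exact (hb' i).symm
      · apply Subtype.ext
        change Subtype.val '' _ = o
        rw [himg, ho]
  rw [h2] at hmain
  have h3 : ∑ g : Multiplicative Γ, Nat.card {x : {ξ : Fin n → K // eval ξ f = 0} //
      F x = g • x} = ∑ b ∈ Finset.univ.filter (fun b => b ∈ Γ),
        Nptw p f (fun i => z ^ (b i).val) a := by
    rw [Finset.sum_congr rfl fun g _ => h1 g,
      Finset.sum_subtype (p := fun b => b ∈ Γ) (Finset.univ.filter (fun b => b ∈ Γ)) (by simp)]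
    exact Fintype.sum_equiv (Multiplicative.toAdd) _ _ (fun _ => rfl)
  have h4 : Fintype.card (Multiplicative Γ) = (Finset.univ.filter (fun b => b ∈ Γ)).card := by
    rw [← Fintype.card_subtype]
    exact Fintype.card_congr Multiplicative.toAdd
  rw [h3, h4] at hmain
  exact hmain

end orb

end Pool.Agent.H887.BK
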