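import Pool.Agent.H887.BK.F7

/-!
# Quotients of weighted hypersurfaces
-/

set_option autoImplicit false
set_option linter.unusedSectionVars false
set_option linter.unusedVariables false

namespace Pool.Agent.H887.BK

open MvPolynomial Pool.Agent.H425

/-- roots of unity in the `p`-adic integers -/
theorem exists_zeta (p e : ℕ) [hp : Fact p.Prime] (hp1 : p ≡ 1 [MOD (e + 1)]) :
    ∃ ζ : ℤ_[p], IsPrimitiveRoot ζ (e + 1) := by
  obtain ⟨g, hg⟩ := IsCyclic.exists_ofOrder_eq_natCard (α := (ZMod p)ˣ)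
  have h1 : Nat.card (ZMod p)ˣ = p - 1 := by
    rw [Nat.card_eq_fintype_card, ZMod.card_units]
  have h2 : IsPrimitiveRoot g (p - 1) := by
    rw [← h1, ← hg]
    exact IsPrimitiveRoot.orderOf g
  have h3 : (e + 1) ∣ p - 1 := (Nat.modEq_iff_dvd' hp.out.one_le).1 hp1.symm
  obtain ⟨m, hm⟩ := h3
  have h4 : IsPrimitiveRoot (g ^ m) (e + 1) :=
    h2.pow (Nat.sub_pos_of_lt hp.out.one_lt) (by rw [hm, mul_comm])
  have h5 : IsPrimitiveRoot ((g ^ m : (ZMod p)ˣ) : ZMod p) (e + 1) :=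
    IsPrimitiveRoot.coe_units_iff.2 h4
  have h6 : IsPrimitiveRoot (WittVector.teichmuller p ((g ^ m : (ZMod p)ˣ) : ZMod p)) (e + 1) := by
    refine h5.map_of_injective ?_
    intro x y h
    have h7 := congrArg (fun w : WittVector p (ZMod p) => w.coeff 0) h
    simpa only [WittVector.teichmuller_coeff_zero] using h7
  exact ⟨_, h6.map_of_injective (WittVector.equiv p).injective⟩

/-- the finite group of the diagonal automorphisms of exponent `d` which fix the monomials `x ^ m`,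
`m ∈ M` -/
def dgrp {k : Type} [Field k] {n : ℕ} (d : ℕ) (M : Set (Fin n →₀ ℕ)) : Set (Fin n → k) :=
  {β | (∀ i, β i ^ d = 1) ∧ ∀ m ∈ M, ∏ i, β i ^ m i = 1}

/-- the exponents of the group -/
def Gam {n : ℕ} (d : ℕ) [NeZero d] (M : Set (Fin n →₀ ℕ)) : AddSubgroup (Fin n → ZMod d) where
  carrier := {b | ∀ m ∈ M, ∑ i, b i * ((m i : ℕ) : ZMod d) = 0}
  zero_mem' := by
    intro m _
    simp
  add_mem' := by
    intro a b ha hb m hm
    simp only [Pi.add_apply, add_mul, Finset.sum_add_distrib]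
    rw [ha m hm, hb m hm, add_zero]
  neg_mem' := by
    intro a ha m hm
    simp only [Pi.neg_apply, neg_mul, Finset.sum_neg_distrib]
    rw [ha m hm, neg_zero]

theorem mem_dgrp {k : Type} [Field k] {n d : ℕ} [NeZero d] (M : Set (Fin n →₀ ℕ)) (z : k)
    (hz : IsPrimitiveRoot z d) (β : Fin n → k) :
    β ∈ (dgrp d M : Set (Fin n → k)) ↔ ∃ b ∈ Gam d M, ∀ i, β i = z ^ (b i).val := by
  constructor
  · rintro ⟨h1, h2⟩
    have h3 : ∀ i, ∃ b : ZMod d, β i = z ^ b.val := by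
      intro i
      obtain ⟨j, hj, hj'⟩ := hz.eq_pow_of_pow_eq_one (h1 i)
      refine ⟨(j : ZMod d), ?_⟩
      rw [ZMod.val_natCast, Nat.mod_eq_of_lt hj, hj']
    choose b hb using h3
    refine ⟨b, ?_, hb⟩
    intro m hm
    have h4 := h2 m hm
    rw [Finset.prod_congr rfl fun i _ => by rw [hb i], prod_root z hz.pow_eq_one] at h4
    have h5 := (hz.pow_eq_one_iff_dvd _).1 h4
    exact (ZMod.val_eq_zero _).1 (Nat.eq_zero_of_dvd_of_lt h5 (ZMod.val_lt _))
  · rintro ⟨b, hb, hβ⟩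
    refine ⟨fun i => ?_, fun m hm => ?_⟩
    · rw [hβ i, ← pow_mul, mul_comm, pow_mul, hz.pow_eq_one, one_pow]
    · rw [Finset.prod_congr rfl fun i _ => by rw [hβ i], prod_root z hz.pow_eq_one, hb m hm,
        ZMod.val_zero, pow_zero]

theorem inv_iff {k : Type} [Field k] {n d : ℕ} [NeZero d] (M : Set (Fin n →₀ ℕ)) (z : k)
    (hz : IsPrimitiveRoot z d) (m : Fin n → ℕ) :
    (∀ β ∈ (dgrp d M : Set (Fin n → k)), ∏ i, β i ^ m i = 1) ↔
      ∀ b ∈ Gam d M, ∑ i, b i * ((m i : ℕ) : ZMod d) = 0 := by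
  constructor
  · intro h b hb
    have h1 := h (fun i => z ^ (b i).val) ((mem_dgrp M z hz _).2 ⟨b, hb, fun i => rfl⟩)
    rw [prod_root z hz.pow_eq_one] at h1
    have h5 := (hz.pow_eq_one_iff_dvd _).1 h1
    exact (ZMod.val_eq_zero _).1 (Nat.eq_zero_of_dvd_of_lt h5 (ZMod.val_lt _))
  · intro h β hβ
    obtain ⟨b, hb, hβ'⟩ := (mem_dgrp M z hz _).1 hβ
    rw [Finset.prod_congr rfl fun i _ => by rw [hβ' i], prod_root z hz.pow_eq_one, h b hb,
      ZMod.val_zero, pow_zero]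

/-- the points of the quotient of the affine cone -/
noncomputable def Norb {k : Type} [Field k] {n : ℕ} (d : ℕ) (M : Set (Fin n →₀ ℕ)) (q : ℕ)
    (f : MvPolynomial (Fin n) k) (r : ℕ) : ℕ :=
  Nat.card {o : Set (Fin n → k) // ∃ ξ : Fin n → k,
    o = {η | ∃ β ∈ (dgrp d M : Set (Fin n → k)), η = β * ξ} ∧ eval ξ f = 0 ∧
      (fun i => ξ i ^ q ^ r) ∈ o}

/-- the invariant monomials of the weighted Jacobian ring -/
def WI {n : ℕ} (w : Fin n → ℕ) (d : ℕ) (M : Set (Fin n →₀ ℕ)) (i : ℕ) : Type :=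
  {u : (j : Fin n) → Fin (d / w j - 1) // ∑ j, w j * ((u j : ℕ) + 1) = (i + 1) * d ∧
    ∀ β ∈ (dgrp d M : Set (Fin n → ℂ)), ∏ j, β j ^ ((u j : ℕ) + 1) = 1}

theorem card_WI {n : ℕ} (w : Fin n → ℕ) (e : ℕ) (M : Set (Fin n →₀ ℕ)) (i : ℕ) :
    Nat.card (WI w (e + 1) M i) = Nat.card (WM w e (Gam (e + 1) M) 0 i) := by
  refine Nat.card_congr (Equiv.subtypeEquivRight fun u => ?_)
  refine and_congr Iff.rfl ?_
  rw [inv_iff M _ (Complex.isPrimitiveRoot_exp (e + 1) (Nat.succ_ne_zero e))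
    (fun j => (u j : ℕ) + 1)]
  simp only [Pi.zero_apply, mul_zero, Finset.sum_const_zero]

/-- **Quotients of weighted hypersurfaces outside the exceptional set.** -/
theorem quot_good {n : ℕ} (hn : 1 ≤ n) {p e : ℕ} [hp' : Fact p.Prime] (he : 0 < e)
    (hp1 : p ≡ 1 [MOD (e + 1)]) (hge : P0 (Fin n) e ≤ p) {K : Type} [Field K] [IsAlgClosed K]
    [CharP K p] (w : Fin n → ℕ) (hw : ∀ i, w i ∣ e + 1) (Z : Finset (Fin n →₀ ℕ))
    (hZ : ∀ u ∈ Z, ∑ i, w i * u i = e + 1) (hZ' : ∀ i, Finsupp.single i ((e + 1) / w i) ∈ Z)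
    (M : Set (Fin n →₀ ℕ)) (hM : ∀ u ∈ Z, u ∈ M)
    (c : Par (supW w hw Z hZ hZ') → K) (hc : ∀ u, c u ^ p = c u) (hN : Nice p e he c) :
    ∃ C : ℕ → ℚ, C 0 = 1 ∧
      (∀ k : ℕ, ((k : ℚ) + 1) * C (k + 1) = -∑ i ∈ Finset.range (k + 1),
        ((-1) ^ n * ((Norb (e + 1) M p (wform w c) (i + 1) : ℚ) - (p : ℚ) ^ ((i + 1) * (n - 1))) /
          ((p : ℚ) ^ (i + 1) - 1)) * C (k - i)) ∧
      (∀ k, ∑ i ∈ Finset.range n, Nat.card (WI w (e + 1) M i) < k → C k = 0) ∧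
      (∀ k j : ℕ, C k ≠ 0 →
        ((j * k : ℕ) : ℤ) -
          ((∑ i ∈ Finset.range j, Nat.card (WI w (e + 1) M i) * (j - i) : ℕ) : ℤ) ≤
          padicValRat p (C k)) ∧
      (∀ j : ℕ, C (∑ i ∈ Finset.range j, Nat.card (WI w (e + 1) M i)) ≠ 0 ∧
        padicValRat p (C (∑ i ∈ Finset.range j, Nat.card (WI w (e + 1) M i))) =
          ((∑ i ∈ Finset.range j, Nat.card (WI w (e + 1) M i) * i : ℕ) : ℤ)) := by
  classical
  have hne : Nonempty (Fin n) := ⟨⟨0, hn⟩⟩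
  have hpos : 0 < (e + 1) * (p - 1) :=
    Nat.mul_pos (Nat.succ_pos e) (Nat.sub_pos_of_lt hp'.out.one_lt)
  have hdom : IsDomain (Constr.RR p ((e + 1) * (p - 1)) K) := Constr.RR_domain p _ _ hpos
  let S := Constr.setup p K (e + 1) (Nat.succ_pos e) hdom
  obtain ⟨ζ, hζ⟩ := exists_zeta p e hp1
  have hpe := pow_dvd_of_modEq hp'.out he hp1
  have heK : (((e + 1 : ℕ)) : K) ≠ 0 := by
    intro h
    rw [CharP.cast_eq_zero_iff K p] at h
    exact hpe h
  set z : K := S.res (S.zp ζ) with hz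
  have hz1 : z ^ (e + 1) = 1 := by rw [hz, ← map_pow, ← map_pow, hζ.pow_eq_one, map_one, map_one]
  have hzprim : IsPrimitiveRoot z (e + 1) := by
    refine ⟨hz1, fun l hl => ?_⟩
    have h5 : ζ ^ l = 1 := by
      by_contra h6
      have h7 : (ζ ^ l - 1) * ∑ i ∈ Finset.range (e + 1), (ζ ^ l) ^ i = 0 := by
        rw [mul_comm, geom_sum_mul, ← pow_mul, mul_comm l, pow_mul, hζ.pow_eq_one, one_pow,
          sub_self]
      rcases mul_eq_zero.1 h7 with h8 | h8
      · exact h6 (sub_eq_zero.1 h8)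
      · have h9 := congrArg (fun x => S.res (S.zp x)) h8
        simp only [map_sum, map_zero, map_pow] at h9
        rw [← hz, hl, Finset.sum_congr rfl (g := fun _ => (1 : K)) (fun i _ => one_pow i),
          Finset.sum_const, Finset.card_range, nsmul_eq_mul, mul_one] at h9
        exact heK h9
    exact hζ.dvd_of_pow_eq_one l h5
  set Γ := Gam (n := n) (e + 1) M with hΓ
  have hw0 : ∀ i, 0 < w i := fun i => Nat.pos_of_dvd_of_pos (hw i) (Nat.succ_pos e)
  have hΓZ : ∀ b ∈ Γ, ∀ u ∈ Z, ∑ i, b i * ((u i : ℕ) : ZMod (e + 1)) = 0 :=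
    fun b hb u hu => hb u (hM u hu)
  -- the form is invariant
  have hinv : ∀ b ∈ Γ, ∀ ξ : Fin n → K, eval (fun i => z ^ (b i).val * ξ i) (wform w c) =
      eval ξ (wform w c) := by
    intro b hb ξ
    rw [wform_eqv, map_sum, map_sum]
    refine Finset.sum_congr rfl fun u _ => ?_
    rw [eval_monomial, eval_monomial, Finsupp.prod_fintype _ _ (fun i => pow_zero _),
      Finsupp.prod_fintype _ _ (fun i => pow_zero _)]
    congr 1
    rw [Finset.prod_congr rfl fun i _ => mul_pow _ _ _, Finset.prod_mul_distrib,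
      prod_root z hz1, hΓZ b hb u.1 u.2, ZMod.val_zero, pow_zero, one_mul]
  have hfp : ∀ s, coeff s (wform w c) ^ p = coeff s (wform w c) := by
    intro s
    have : ExpChar K p := ExpChar.prime hp'.out
    change frobenius K p (coeff s (wform w c)) = _
    rw [wform, coeff_sum, map_sum]
    refine Finset.sum_congr rfl fun u _ => ?_
    rw [coeff_monomial]
    split_ifs
    · exact hc u
    · exact map_zero _
  have horb : ∀ a, 1 ≤ a → ∑ b ∈ Finset.univ.filter (fun b => b ∈ Γ),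
      Nptw p (wform w c) (fun i => z ^ (b i).val) a =
      (Finset.univ.filter (fun b => b ∈ Γ)).card * Norb (e + 1) M p (wform w c) a := by
    intro a ha
    rw [orb_count Pool.Agent.H738.BKOrb.h_Orb z hz1 p hp1 (wform w c) hfp Γ
      (fun b hb ξ hξ => by rw [hinv b hb, hξ]) a ha]
    congr 1
    unfold Norb
    have h1 : ∀ ξ : Fin n → K, {η : Fin n → K | ∃ b ∈ Γ, ∀ i, η i = z ^ (b i).val * ξ i} =
        {η | ∃ β ∈ (dgrp (e + 1) M : Set (Fin n → K)), η = β * ξ} := by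
      intro ξ
      ext η
      constructor
      · rintro ⟨b, hb, hη⟩
        exact ⟨fun i => z ^ (b i).val, (mem_dgrp M z hzprim _).2 ⟨b, hb, fun i => rfl⟩,
          funext hη⟩
      · rintro ⟨β, hβ, hη⟩
        obtain ⟨b, hb, hβ'⟩ := (mem_dgrp M z hzprim _).1 hβ
        refine ⟨b, hb, fun i => ?_⟩
        rw [hη, Pi.mul_apply, hβ' i]
    simp only [h1]
  have hcard : Fintype.card (Fin n) = n := Fintype.card_fin n
  set St : ℕ → ℤ := fun a => (-1) ^ n * ((p ^ a * Norb (e + 1) M p (wform w c) a : ℕ) -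
    (p ^ (a * n) : ℕ)) with hSt
  obtain ⟨bb, hbb, hdet⟩ := grp_hyp hypW Pool.Agent.H894.BK.h_WCntT he hp1 hge S w hw
    (supW_w w hw Z hZ hZ') c hc hN Γ (supW_sym w hw Z hZ hZ' Γ hΓZ) 0 ζ hζ
    (fun a => (St a : ℤ_[p])) (by
      intro a ha
      rw [hcard]
      have h1 : ∀ b : Fin n → ZMod (e + 1), ζ ^ (-∑ i, b i * (0 : Fin n → ZMod (e + 1)) i).val =
          1 := by
        intro b
        simp only [Pi.zero_apply, mul_zero, Finset.sum_const_zero, neg_zero, ZMod.val_zero,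
          pow_zero]
      simp only [h1, one_mul]
      rw [← hz, Finset.sum_sub_distrib, Finset.sum_const]
      have h2 : ∑ b ∈ Finset.univ.filter (fun b => b ∈ Γ),
          ((p ^ a * Nptw p (wform w c) (fun i => z ^ (b i).val) a : ℕ) : ℤ_[p]) =
          ((p ^ a * ((Finset.univ.filter (fun b => b ∈ Γ)).card *
            Norb (e + 1) M p (wform w c) a) : ℕ) : ℤ_[p]) := by
        rw [← horb a ha, Finset.mul_sum, Nat.cast_sum]
      rw [h2, nsmul_eq_mul]
      simp only [hSt]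
      push_cast
      ring)
  obtain ⟨C, hC0, hC1, hC2, hC3, hC4⟩ := Pool.Agent.H333.BK.h_New p (e + 1) K _ (toPre S)
    (Mp (Fin n) e (PC w Γ 0)) hp St bb (Nat.succ_pos e) (card_Mp_lt hge _) (by
      intro N
      obtain ⟨b, hb1, hb2⟩ := hbb N
      refine ⟨b, hb1, fun a ha => ?_⟩
      obtain ⟨y, hy⟩ := hb2 a ha
      refine ⟨y, ?_⟩
      rw [map_intCast] at hy
      exact hy) hdet
  have hs1 := fun j => card_lowP (PC w Γ 0) j
  have hs2 := fun j => sum_truncP (PC w Γ 0) j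
  have hs3 := fun j => sum_lowP (PC w Γ 0) j (fun i => i)
  have hs4 := card_MpP (PC w Γ 0) he
  have hWI : ∀ i, hdgP (Fin n) e (PC w Γ 0) i = Nat.card (WI w (e + 1) M i) := fun i =>
    (hdg_WM w e hw Γ 0 i).trans (card_WI w e M i).symm
  simp only [hWI, hcard] at hs1 hs2 hs3 hs4
  refine ⟨C, hC0, ?_, ?_, ?_, ?_⟩
  · intro k
    rw [hC1 k]
    congr 1
    refine Finset.sum_congr rfl fun i _ => ?_
    congr 1
    have hp0 : (p : ℚ) ≠ 0 := by exact_mod_cast hp'.out.ne_zero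
    simp only [hSt]
    push_cast
    have h2 : (p : ℚ) ^ ((i + 1) * n) = (p : ℚ) ^ (i + 1) * (p : ℚ) ^ ((i + 1) * (n - 1)) := by
      rw [← pow_add]
      congr 1
      obtain ⟨m, rfl⟩ : ∃ m, n = m + 1 := ⟨n - 1, by omega⟩
      rw [Nat.add_sub_cancel]
      ring
    rw [h2, ← mul_sub, mul_left_comm, mul_comm ((p : ℚ) ^ (i + 1) - 1), mul_div_mul_left]
    exact pow_ne_zero _ hp0
  · rw [← hs4]
    exact hC2
  · intro k j hk
    rw [← hs2 j]
    exact hC3 k j hk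
  · intro j
    rw [← hs1 j, ← hs3 j]
    exact hC4 j

end Pool.Agent.H887.BK
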