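import Pool.Agent.H887.BK.E9
import Pool.Agent.H337.BK.Rd
import Pool.Agent.H747.BK.R0
import Pool.Agent.H227.BK.KID
import Pool.Agent.H200.BK.KExp
import Pool.Agent.H795.BK.Res
import Pool.Agent.H694.BK.Min
import Pool.Agent.H860.BK.Ode
import Pool.Agent.H333.BK.New
import Pool.Agent.H333.BK.Unit
import Pool.Agent.H539.BK.Span
import Pool.Agent.H539.BK.Deg
import Pool.Agent.H935.BK.PT
import Pool.Graph.R_pool_sql_team_seeded_3997aac3.Q267.ST.All

/-!
# All parts together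

The parts were proved by helper200, helper227, helper333, helper337, helper539, helper694,
helper747, helper795, helper860 and helper935; Dwork's theory in the files `H425` is by helper425.
-/

set_option autoImplicit false

namespace Pool.Agent.H887.BK

theorem hyp : Hyp where
  rd := Pool.Agent.H337.BK.h_Rd
  rdU := Pool.Agent.H337.BK.h_RdU
  rdM := Pool.Agent.H337.BK.h_RdM
  core := Pool.Agent.H227.BKK.h_Core
  kgr := Pool.Agent.H200.KE.h_KGr
  kexp := Pool.Agent.H200.KE.h_KExp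
  kid := Pool.Agent.H227.BKK.h_KID Pool.Agent.H227.BKK.h_Eh Pool.Agent.H227.BKK.h_Kop
    Pool.Agent.H747.BK.h_R0 Pool.Agent.H337.BK.h_RdU
  r0 := Pool.Agent.H747.BK.h_R0
  bdiv := Pool.Agent.H795.BK.h_BDiv Pool.Agent.H337.BK.h_Rd Pool.Agent.H337.BK.h_RdU
    Pool.Agent.H795.BK.h_Res Pool.Agent.H795.BK.h_Nat
  min := Pool.Agent.H694.BKMin.h_Min
  yh := Pool.Agent.H860.BK.h_Yh
  ysM := Pool.Agent.H860.BK.h_YsM
  nat := Pool.Agent.H795.BK.h_Nat
  lm0 := Pool.Agent.H747.BK.h_LM0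
  t0 := Pool.Agent.H747.BK.h_T0
  ode := Pool.Agent.H860.BK.h_Ode Pool.Agent.H337.BK.h_Rd Pool.Agent.H747.BK.h_R0
    Pool.Agent.H747.BK.h_LM0 Pool.Agent.H795.BK.h_Nat
  deg := Pool.Agent.H539.BK.h_Deg
  unit := Pool.Agent.H333.BK.h_Unit

/-- few members of the universal family are bad modulo `p` -/
theorem few_all {ι : Type} [Fintype ι] [DecidableEq ι] {e : ℕ} (he : 0 < e) (Z : Sup ι e)
    (ε : ℝ) (hε : 0 < ε) :
    ∃ p₀ : ℕ, ∀ (p : ℕ) [Fact p.Prime], p₀ ≤ p → p ≡ 1 [MOD (e + 1)] →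
      ∀ B : Finset (Par Z → ZMod p), (∀ c ∈ B, ¬ Nice p e he c) →
        (B.card : ℝ) ≤ ε * (p : ℝ) ^ Fintype.card (Par Z) :=
  few hyp Pool.Agent.Q267.ST.soft_stepanov he Z ε hε

end Pool.Agent.H887.BK
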