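import Pool.Agent.H887.BK.PTheta

set_option autoImplicit false
set_option linter.unusedSectionVars false
set_option linter.unusedVariables false

/-! Adapted from helper425's file `Frob`. -/

namespace Pool.Agent.H887.BK

open Pool.Agent.H425 Pool.Agent.H425.AH

namespace Pre

variable {p d : ℕ} [hp : Fact p.Prime] {K R : Type} [CommRing K] [CommRing R] [IsDomain R]
  (S : Pre p d K R) {ι : Type}

/-- `θ (c x ^ s)` -/
noncomputable def Fs (s : ι →₀ ℕ) (c : R) : MvPowerSeries ι R :=
  fun w => open Classical in ∑ j ∈ Finset.range (w.degree + 1), if j • s = w then S.th j * c ^ j else 0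

theorem degree_pos {s : ι →₀ ℕ} (hs : s ≠ 0) : 0 < s.degree := by
  rw [Nat.pos_iff_ne_zero]
  intro h
  exact hs ((Finsupp.degree_eq_zero_iff s).1 h)

theorem coeff_Fs (s : ι →₀ ℕ) (hs : s ≠ 0) (c : R) (j : ℕ) :
    MvPowerSeries.coeff (j • s) (S.Fs s c) = S.th j * c ^ j := by
  classical
  change ∑ j' ∈ Finset.range ((j • s).degree + 1), (if j' • s = j • s then S.th j' * c ^ j' else 0) = _
  rw [Finset.sum_eq_single j]
  · rw [if_pos rfl]
  · intro b _ hb
    rw [if_neg]
    intro h
    exact hb (smul_inj hs h)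
  · intro h
    exfalso
    apply h
    rw [Finset.mem_range, map_nsmul, smul_eq_mul]
    have := degree_pos hs
    nlinarith

theorem coeff_Fs_ne (s : ι →₀ ℕ) (c : R) (w : ι →₀ ℕ) (h : ∀ j : ℕ, j • s ≠ w) :
    MvPowerSeries.coeff w (S.Fs s c) = 0 := by
  classical
  change ∑ j' ∈ Finset.range (w.degree + 1), (if j' • s = w then S.th j' * c ^ j' else 0) = _
  refine Finset.sum_eq_zero fun j _ => ?_
  rw [if_neg (h j)]

theorem smul_le_smul_iff' {s : ι →₀ ℕ} (hs : s ≠ 0) {a b : ℕ} : a • s ≤ b • s ↔ a ≤ b := by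
  obtain ⟨i, hi⟩ : ∃ i, s i ≠ 0 := by
    by_contra hcon
    push Not at hcon
    exact hs (Finsupp.ext hcon)
  constructor
  · intro h
    have := h i
    rw [Finsupp.smul_apply, Finsupp.smul_apply, smul_eq_mul, smul_eq_mul] at this
    exact Nat.le_of_mul_le_mul_right this (Nat.pos_of_ne_zero hi)
  · intro h j
    rw [Finsupp.smul_apply, Finsupp.smul_apply, smul_eq_mul, smul_eq_mul]
    exact Nat.mul_le_mul_right _ h

theorem sub_smul' (s : ι →₀ ℕ) {a b : ℕ} : b • s - a • s = (b - a) • s := by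
  ext i
  simp [Nat.sub_mul]

theorem eui_Fs (i : ι) (s : ι →₀ ℕ) (hs : s ≠ 0) (c : R) : eui i (S.Fs s c) =
    (MvPowerSeries.monomial s ((s i : R) * S.pi * c) -
      MvPowerSeries.monomial (p • s) ((s i : R) * p * S.pi * c ^ p)) * S.Fs s c := by
  classical
  ext w
  rw [coeff_eui, sub_mul, map_sub, MvPowerSeries.coeff_monomial_mul, MvPowerSeries.coeff_monomial_mul]
  by_cases hw : ∃ j : ℕ, j • s = w
  · obtain ⟨j, rfl⟩ := hw
    rw [S.coeff_Fs s hs]
    have e1 : (s ≤ j • s) ↔ 1 ≤ j := by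
      have := smul_le_smul_iff' hs (a := 1) (b := j)
      rwa [one_smul] at this
    have e2 : j • s - s = (j - 1) • s := by
      have := sub_smul' s (a := 1) (b := j)
      rwa [one_smul] at this
    rw [e2, sub_smul', S.coeff_Fs s hs, S.coeff_Fs s hs]
    simp only [e1, smul_le_smul_iff' hs]
    rw [Finsupp.smul_apply, smul_eq_mul]
    rcases Nat.eq_zero_or_pos j with rfl | hj
    · have := hp.out.pos
      rw [if_neg (by omega), if_neg (by omega)]
      simp
    · have hj1 : 1 ≤ j := hj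
      rw [if_pos hj1]
      have h1 := S.th_rec j hj
      have e3 : c ^ j = c * c ^ (j - 1) := by rw [← pow_succ', Nat.sub_add_cancel hj]
      split_ifs at h1 ⊢ with hpj
      · have e4 : c ^ j = c ^ p * c ^ (j - p) := by rw [← pow_add, Nat.add_sub_cancel' hpj]
        push_cast
        calc (j : R) * (s i) * (S.th j * c ^ j) = (s i) * c ^ j * (j * S.th j) := by ring
          _ = (s i) * S.pi * S.th (j - 1) * c ^ j - (s i) * (p * S.pi * S.th (j - p)) * c ^ j := by
            rw [h1]; ring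
          _ = _ := by
            conv_lhs => enter [1]; rw [e3]
            conv_lhs => enter [2]; rw [e4]
            ring
      · push_cast
        calc (j : R) * (s i) * (S.th j * c ^ j) = (s i) * c ^ j * (j * S.th j) := by ring
          _ = (s i) * S.pi * S.th (j - 1) * c ^ j := by
            rw [h1]; ring
          _ = _ := by
            rw [e3]
            ring
  · push Not at hw
    rw [S.coeff_Fs_ne s c w hw, mul_zero]
    have h1 : (if s ≤ w then (s i : R) * S.pi * c * (MvPowerSeries.coeff (w - s)) (S.Fs s c) else 0) = 0 := by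
      split_ifs with h
      · rw [S.coeff_Fs_ne, mul_zero]
        intro j hj
        apply hw (j + 1)
        rw [add_smul, hj, one_smul, tsub_add_cancel_of_le h]
      · rfl
    have h2 : (if p • s ≤ w then (s i : R) * p * S.pi * c ^ p *
        (MvPowerSeries.coeff (w - p • s)) (S.Fs s c) else 0) = 0 := by
      split_ifs with h
      · rw [S.coeff_Fs_ne, mul_zero]
        intro j hj
        apply hw (j + p)
        rw [add_smul, hj, tsub_add_cancel_of_le h]
      · rfl
    rw [h1, h2, sub_zero]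

/-- growth condition -/
def Grw (F : MvPowerSeries ι R) : Prop :=
  ∀ w, S.lam ^ ce p w.degree ∣ MvPowerSeries.coeff w F

theorem Grw_mul {F G : MvPowerSeries ι R} (hF : S.Grw F) (hG : S.Grw G) : S.Grw (F * G) := by
  classical
  intro w
  rw [MvPowerSeries.coeff_mul]
  refine Finset.dvd_sum fun x hx => ?_
  rw [Finset.HasAntidiagonal.mem_antidiagonal] at hx
  have h1 : ce p w.degree ≤ ce p x.1.degree + ce p x.2.degree := by
    rw [← hx, map_add]
    exact ce_add p hp.out.two_le _ _
  have h2 := mul_dvd_mul (hF x.1) (hG x.2)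
  rw [← pow_add] at h2
  exact (pow_dvd_pow _ h1).trans h2

theorem Grw_one : S.Grw (1 : MvPowerSeries ι R) := by
  classical
  intro w
  rw [MvPowerSeries.coeff_one]
  split_ifs with h
  · rw [h, map_zero, ce_zero, pow_zero]
  · exact dvd_zero _

theorem Grw_Fs (s : ι →₀ ℕ) (hs : s ≠ 0) (hsd : s.degree ≤ d) (c : R) : S.Grw (S.Fs s c) := by
  intro w
  by_cases hw : ∃ j : ℕ, j • s = w
  · obtain ⟨j, rfl⟩ := hw
    rw [S.coeff_Fs s hs]
    refine Dvd.dvd.mul_right ((pow_dvd_pow _ ?_).trans (S.th_dvd j)) _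
    rw [map_nsmul, smul_eq_mul, mul_comm]
    calc ce p (s.degree * j) ≤ ce p (d * j) := ce_mono p hp.out.two_le (Nat.mul_le_mul_right _ hsd)
      _ ≤ _ := ce_mul p hp.out.two_le _ _
  · push Not at hw
    rw [S.coeff_Fs_ne s c w hw]
    exact dvd_zero _

/-- the product `∏ θ (c_s x ^ s)` -/
noncomputable def FF (supp : Finset (ι →₀ ℕ)) (c : (ι →₀ ℕ) → R) : MvPowerSeries ι R :=
  ∏ s ∈ supp, S.Fs s (c s)

theorem Grw_prod {T : Type} (s : Finset T) (F : T → MvPowerSeries ι R) (h : ∀ l ∈ s, S.Grw (F l)) :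
    S.Grw (∏ l ∈ s, F l) := by
  classical
  induction s using Finset.induction_on with
  | empty => simpa using S.Grw_one
  | insert i s hi ih =>
    rw [Finset.prod_insert hi]
    exact S.Grw_mul (h i (by simp)) (ih fun l hl => h l (by simp [hl]))

theorem Grw_FF (supp : Finset (ι →₀ ℕ)) (c : (ι →₀ ℕ) → R)
    (h0 : 0 ∉ supp) (hd : ∀ s ∈ supp, s.degree ≤ d) : S.Grw (S.FF supp c) :=
  S.Grw_prod _ _ fun s hs => S.Grw_Fs s (fun h => h0 (h ▸ hs)) (hd s hs) _

theorem euler_FF [DecidableEq ι] (supp : Finset (ι →₀ ℕ)) (c : (ι →₀ ℕ) → R) (h0 : 0 ∉ supp) (i : ι)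
    (w : ι →₀ ℕ) : (w i : R) * MvPowerSeries.coeff w (S.FF supp c) =
      ∑ s ∈ supp, (s i : R) * S.pi * c s *
        (if s ≤ w then MvPowerSeries.coeff (w - s) (S.FF supp c) else 0) -
      ∑ s ∈ supp, (s i : R) * p * S.pi * c s ^ p *
        (if p • s ≤ w then MvPowerSeries.coeff (w - p • s) (S.FF supp c) else 0) := by
  rw [← coeff_eui, FF, eui_prod i supp _ (fun s => (MvPowerSeries.monomial s ((s i : R) * S.pi * c s) -
      MvPowerSeries.monomial (p • s) ((s i : R) * p * S.pi * c s ^ p)))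
      (fun s hs => S.eui_Fs i s (fun h => h0 (h ▸ hs)) (c s))]
  rw [Finset.sum_mul, map_sum, ← Finset.sum_sub_distrib]
  refine Finset.sum_congr rfl fun s _ => ?_
  rw [sub_mul, map_sub, MvPowerSeries.coeff_monomial_mul, MvPowerSeries.coeff_monomial_mul,
    mul_ite, mul_ite, mul_zero, mul_zero]

end Pre

end Pool.Agent.H887.BK
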