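import Pool.Agent.H887.BK.Pre

set_option autoImplicit false
set_option linter.unusedSectionVars false

/-! Adapted from helper425's file `Theta`. -/

namespace Pool.Agent.H887.BK

open PowerSeries Pool.Agent.H425 Pool.Agent.H425.AH

namespace Pre

variable {p d : ℕ} [hp : Fact p.Prime] {K R : Type} [CommRing K] [CommRing R] [IsDomain R]
  (S : Pre p d K R)

/-- Dwork's uniformizer -/
def pi : R := S.lam ^ d

theorem pi_pow : S.pi ^ (p - 1) = -(p : R) := by rw [pi, ← pow_mul, S.lam_pow]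

theorem pi_ne : S.pi ≠ 0 := pow_ne_zero _ S.lam_ne

include S in
theorem p_ne : (p : R) ≠ 0 := by
  rw [← neg_ne_zero, ← S.lam_pow]
  exact pow_ne_zero _ S.lam_ne

theorem zp_injective : Function.Injective S.zp := by
  rw [RingHom.injective_iff_ker_eq_bot]
  by_contra hne
  have hprime : (RingHom.ker S.zp).IsPrime := RingHom.ker_isPrime _
  have hmax : (RingHom.ker S.zp).IsMaximal := IsPrime.to_maximal_ideal hne
  have h1 : RingHom.ker S.zp = Ideal.span {(p : ℤ_[p])} := by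
    rw [← PadicInt.maximalIdeal_eq_span_p]
    exact IsLocalRing.eq_maximalIdeal hmax
  have h2 : (p : ℤ_[p]) ∈ RingHom.ker S.zp := by
    rw [h1]; exact Ideal.mem_span_singleton_self _
  rw [RingHom.mem_ker, map_natCast] at h2
  exact S.p_ne h2

include S in
theorem charZero : CharZero R :=
  charZero_of_injective_ringHom S.zp_injective

include S in
theorem isUnit_nat {s : ℕ} (h : ¬ p ∣ s) : IsUnit (s : R) := by
  have h1 : IsUnit ((s : ℕ) : ℤ_[p]) := by
    rw [PadicInt.isUnit_iff, PadicInt.norm_natCast_eq_one_iff]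
    exact (hp.out.coprime_iff_not_dvd.2 h)
  have := h1.map S.zp
  rwa [map_natCast] at this

/-- integral part of a `p`-adic number, sent to `R` -/
noncomputable def zpq (x : ℚ_[p]) : R := open Classical in if h : ‖x‖ ≤ 1 then S.zp ⟨x, h⟩ else 0

theorem zpq_mk (z : ℤ_[p]) : S.zpq (z : ℚ_[p]) = S.zp z := by
  rw [zpq, dif_pos z.2]
  rfl

theorem zpq_add (x y : ℚ_[p]) (hx : ‖x‖ ≤ 1) (hy : ‖y‖ ≤ 1) : S.zpq (x + y) = S.zpq x + S.zpq y := by
  have := S.zpq_mk (⟨x, hx⟩ + ⟨y, hy⟩)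
  rw [map_add, PadicInt.coe_add] at this
  rw [← S.zpq_mk, ← S.zpq_mk] at this
  exact this

theorem zpq_mul (x y : ℚ_[p]) (hx : ‖x‖ ≤ 1) (hy : ‖y‖ ≤ 1) : S.zpq (x * y) = S.zpq x * S.zpq y := by
  have := S.zpq_mk (⟨x, hx⟩ * ⟨y, hy⟩)
  rw [map_mul, PadicInt.coe_mul] at this
  rw [← S.zpq_mk, ← S.zpq_mk] at this
  exact this

theorem zpq_natCast (n : ℕ) : S.zpq (n : ℚ_[p]) = n := by
  have := S.zpq_mk (n : ℤ_[p])
  rw [map_natCast, PadicInt.coe_natCast] at this
  exact this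

theorem zpq_zero : S.zpq 0 = 0 := by
  have := S.zpq_natCast 0
  simpa using this

/-- denominators exponent -/
def de (p j : ℕ) : ℕ := 2 * j / (p * (p - 1))

theorem de_mono {i j : ℕ} (h : i ≤ j) : de p i ≤ de p j := Nat.div_le_div_right (by omega)

theorem de_le (j : ℕ) : (p - 1) * de p j ≤ 2 * j / p := by
  unfold de
  rw [Nat.le_div_iff_mul_le hp.out.pos]
  calc (p - 1) * (2 * j / (p * (p - 1))) * p = (2 * j / (p * (p - 1))) * (p * (p - 1)) := by ring
    _ ≤ 2 * j := Nat.div_mul_le_self _ _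

theorem de_le' (j : ℕ) : (p - 1) * de p j ≤ j := by
  refine (de_le j).trans ?_
  have := hp.out.two_le
  refine Nat.div_le_of_le_mul ?_
  nlinarith

theorem norm_int (j E : ℕ) (hE : de p j ≤ E) : ‖(p : ℚ_[p]) ^ E * coeff j (bb p)‖ ≤ 1 := by
  rw [norm_mul, norm_pow, Padic.norm_p, inv_pow]
  have h1 := norm_bb p j
  have h2 : (p : ℝ) ^ (2 * j / (p * (p - 1))) ≤ (p : ℝ) ^ E := pow_le_pow_right₀ (one_le_p_real p) hE
  rw [inv_mul_le_one₀ (pow_pos (p_pos_real p) _)]
  exact h1.trans h2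

/-- the coefficients of `exp (π (x - x ^ p))` -/
noncomputable def th (j : ℕ) : R :=
  (-1) ^ de p j * S.pi ^ (j - (p - 1) * de p j) * S.zpq ((p : ℚ_[p]) ^ de p j * coeff j (bb p))

theorem th_key (j E : ℕ) (hE : de p j ≤ E) :
    (p : R) ^ E * S.th j = S.pi ^ j * S.zpq ((p : ℚ_[p]) ^ E * coeff j (bb p)) := by
  obtain ⟨r, rfl⟩ := Nat.exists_eq_add_of_le hE
  have h1 : (p : R) ^ de p j * S.th j = S.pi ^ j * S.zpq ((p : ℚ_[p]) ^ de p j * coeff j (bb p)) := by
    rw [th]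
    have h2 : S.pi ^ j = (-(p : R)) ^ de p j * S.pi ^ (j - (p - 1) * de p j) := by
      rw [← S.pi_pow, ← pow_mul, ← pow_add, Nat.add_sub_cancel' (de_le' j)]
    rw [h2, neg_eq_neg_one_mul (p : R), mul_pow]
    ring
  have h3 : (p : ℚ_[p]) ^ (de p j + r) * coeff j (bb p) =
      ((p ^ r : ℕ) : ℚ_[p]) * ((p : ℚ_[p]) ^ (de p j) * coeff j (bb p)) := by
    push_cast
    rw [pow_add]; ring
  rw [h3, S.zpq_mul _ _ ?_ (norm_int j _ le_rfl), zpq_natCast, pow_add]
  · push_cast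
    linear_combination (p : R) ^ r * h1
  · exact_mod_cast PadicInt.norm_le_one ((p ^ r : ℕ) : ℤ_[p])

theorem th_zero : S.th 0 = 1 := by
  rw [th]
  have : de p 0 = 0 := by simp [de]
  rw [this, coeff_zero_bb]
  simp
  exact_mod_cast S.zpq_natCast 1

theorem th_rec (j : ℕ) (hj : 1 ≤ j) : (j : R) * S.th j = S.pi * S.th (j - 1) -
    (if p ≤ j then p * S.pi * S.th (j - p) else 0) := by
  have hE1 : de p (j - 1) ≤ de p j := de_mono (by omega)
  have hpE : (p : R) ^ de p j ≠ 0 := pow_ne_zero _ S.p_ne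
  apply mul_left_cancel₀ hpE
  have h1 := S.th_key j (de p j) le_rfl
  have h2 := S.th_key (j - 1) (de p j) hE1
  have h3 := rec_bb p j
  rw [if_pos hj] at h3
  have hnj : ‖((j : ℕ) : ℚ_[p])‖ ≤ 1 := by exact_mod_cast PadicInt.norm_le_one ((j : ℕ) : ℤ_[p])
  have h4 : (j : R) * S.zpq ((p : ℚ_[p]) ^ de p j * coeff j (bb p)) =
      S.zpq ((p : ℚ_[p]) ^ de p j * coeff (j - 1) (bb p)) +
      (if p ≤ j then S.zpq ((p : ℚ_[p]) ^ de p j * coeff (j - p) (bb p)) else 0) := by
    rw [← S.zpq_natCast j, ← S.zpq_mul _ _ hnj (norm_int j _ le_rfl)]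
    have h5 : ((j : ℕ) : ℚ_[p]) * ((p : ℚ_[p]) ^ de p j * coeff j (bb p)) =
        (p : ℚ_[p]) ^ de p j * coeff (j - 1) (bb p) +
        (p : ℚ_[p]) ^ de p j * (if p ≤ j then coeff (j - p) (bb p) else 0) := by
      linear_combination (p : ℚ_[p]) ^ de p j * h3
    rw [h5, S.zpq_add _ _ (norm_int _ _ hE1)]
    · congr 1
      split_ifs
      · rfl
      · rw [mul_zero, zpq_zero]
    · split_ifs
      · exact norm_int _ _ (de_mono (by omega))
      · rw [mul_zero, norm_zero]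
        exact zero_le_one
  have e1 : S.pi ^ j = S.pi * S.pi ^ (j - 1) := by
    rw [← pow_succ', Nat.sub_add_cancel hj]
  split_ifs with hpj
  · rw [if_pos hpj] at h4
    have h6 := S.th_key (j - p) (de p j) (de_mono (by omega))
    have e2 : S.pi ^ j = -(p : R) * S.pi * S.pi ^ (j - p) := by
      rw [← S.pi_pow, ← pow_succ, ← pow_add]
      congr 1
      have := hp.out.one_lt
      omega
    have e3 : S.pi * S.pi ^ (j - 1) = S.pi ^ j := e1.symm
    calc (p : R) ^ de p j * (j * S.th j) = S.pi ^ j * (j * S.zpq ((p : ℚ_[p]) ^ de p j * coeff j (bb p))) := by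
          linear_combination (j : R) * h1
      _ = S.pi ^ j * (S.zpq ((p : ℚ_[p]) ^ de p j * coeff (j - 1) (bb p)) +
          S.zpq ((p : ℚ_[p]) ^ de p j * coeff (j - p) (bb p))) := by rw [h4]
      _ = _ := by
        rw [mul_add]
        conv_lhs => enter [1]; rw [e1]
        conv_lhs => enter [2]; rw [e2]
        linear_combination (-S.pi) * h2 + (p : R) * S.pi * h6
  · rw [if_neg hpj, add_zero] at h4
    rw [sub_zero]
    calc (p : R) ^ de p j * (j * S.th j) = S.pi ^ j * (j * S.zpq ((p : ℚ_[p]) ^ de p j * coeff j (bb p))) := by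
          linear_combination (j : R) * h1
      _ = S.pi ^ j * (S.zpq ((p : ℚ_[p]) ^ de p j * coeff (j - 1) (bb p))) := by rw [h4]
      _ = _ := by
        rw [e1]
        linear_combination (-S.pi) * h2

theorem th_dvd (j : ℕ) : S.lam ^ (d * ce p j) ∣ S.th j := by
  rw [th]
  refine Dvd.dvd.mul_right (Dvd.dvd.mul_left ?_ _) _
  rw [pi, ← pow_mul]
  refine pow_dvd_pow _ (Nat.mul_le_mul_left _ ?_)
  unfold ce
  exact Nat.sub_le_sub_left (de_le j) _

theorem th_small (j : ℕ) (hj : j < p) : (j.factorial : R) * S.th j = S.pi ^ j := by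
  induction j with
  | zero => simp [th_zero]
  | succ j ih =>
    have h := S.th_rec (j + 1) (by omega)
    rw [if_neg (by omega), sub_zero, Nat.add_sub_cancel] at h
    rw [Nat.factorial_succ, Nat.cast_mul, pow_succ]
    have h2 := ih (by omega)
    linear_combination (j.factorial : R) * h + S.pi * h2

/-- the splitting function as a power series -/
noncomputable def Th : R⟦X⟧ := PowerSeries.mk S.th

theorem eu_Th : eu S.Th = (C S.pi * X - C ((p : R) * S.pi) * X ^ p) * S.Th := by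
  ext j
  rw [coeff_eu, sub_mul, map_sub, mul_assoc, mul_assoc, coeff_C_mul, coeff_C_mul, coeff_X_pow_mul',
    Th, coeff_mk]
  cases j with
  | zero =>
    have := hp.out.pos
    rw [if_neg (by omega)]
    simp
  | succ j =>
    rw [coeff_succ_X_mul, coeff_mk, S.th_rec (j + 1) (by omega), Nat.add_sub_cancel]
    congr 1
    split_ifs
    · rw [coeff_mk]
    · rw [mul_zero]

/-- the coefficients of `exp (p π x)` -/
noncomputable def ep (j : ℕ) : R := S.pi ^ j * S.zpq ((p : ℚ_[p]) ^ j / (j.factorial : ℚ_[p]))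

theorem ep_zero : S.ep 0 = 1 := by
  rw [ep]
  simp
  exact_mod_cast S.zpq_natCast 1

theorem ep_rec (j : ℕ) : ((j + 1 : ℕ) : R) * S.ep (j + 1) = p * S.pi * S.ep j := by
  rw [ep, ep]
  have hnj : ∀ j : ℕ, ‖((j : ℕ) : ℚ_[p])‖ ≤ 1 := fun j => by
    exact_mod_cast PadicInt.norm_le_one ((j : ℕ) : ℤ_[p])
  have h1 := S.zpq_mul ((j + 1 : ℕ) : ℚ_[p]) ((p : ℚ_[p]) ^ (j + 1) / ((j + 1).factorial : ℚ_[p]))
    (hnj _) (norm_ep p (j + 1))
  have h2 := S.zpq_mul (p : ℚ_[p]) ((p : ℚ_[p]) ^ j / (j.factorial : ℚ_[p])) (hnj _) (norm_ep p j)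
  have h3 : ((j + 1 : ℕ) : ℚ_[p]) * ((p : ℚ_[p]) ^ (j + 1) / ((j + 1).factorial : ℚ_[p])) =
      (p : ℚ_[p]) * ((p : ℚ_[p]) ^ j / (j.factorial : ℚ_[p])) := by
    have h4 : ((j.factorial : ℕ) : ℚ_[p]) ≠ 0 := Nat.cast_ne_zero.2 (Nat.factorial_ne_zero j)
    have h5 : ((j : ℚ_[p]) + 1) ≠ 0 := by exact_mod_cast Nat.succ_ne_zero j
    rw [Nat.factorial_succ]
    push_cast
    field_simp
    ring
  rw [h3, h2, zpq_natCast, zpq_natCast] at h1
  rw [pow_succ]
  linear_combination (-(S.pi ^ j * S.pi)) * h1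

theorem ep_dvd (j : ℕ) : S.lam ^ (d * j) ∣ S.ep j := by
  rw [ep, pi, ← pow_mul]
  exact dvd_mul_right _ _

/-- `exp (p π x)` -/
noncomputable def Ep : R⟦X⟧ := PowerSeries.mk S.ep

theorem eu_Ep : eu S.Ep = (C ((p : R) * S.pi) * X) * S.Ep := by
  ext j
  rw [coeff_eu, mul_assoc, coeff_C_mul, Ep, coeff_mk]
  cases j with
  | zero => simp
  | succ j => rw [coeff_succ_X_mul, coeff_mk, S.ep_rec]

theorem Th_identity : S.Th ^ p * expand p hp.out.ne_zero S.Ep = S.Ep := by
  have := S.charZero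
  refine eu_unique (C ((p : R) * S.pi) * X) _ _ ?_ ?_ S.eu_Ep ?_
  · simp
  · have hE : expand p hp.out.ne_zero (C ((p : R) * S.pi) * X * S.Ep) =
        C ((p : R) * S.pi) * X ^ p * expand p hp.out.ne_zero S.Ep := by
      rw [map_mul (expand p hp.out.ne_zero), map_mul (expand p hp.out.ne_zero), expand_C, expand_X]
    rw [eu_mul, eu_pow, eu_Th, eu_expand, eu_Ep, hE]
    have h1 : S.Th ^ p = S.Th ^ (p - 1) * S.Th := by
      rw [← pow_succ, Nat.sub_add_cancel hp.out.one_lt.le]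
    have h2 : (p : R⟦X⟧) = C (p : R) := (map_natCast _ _).symm
    have h3 : C ((p : R) * S.pi) = C (p : R) * C S.pi := map_mul _ _ _
    rw [h1, h2, h3]
    ring
  · rw [coeff_zero_eq_constantCoeff_apply, coeff_zero_eq_constantCoeff_apply, map_mul, map_pow]
    have h1 : constantCoeff S.Th = 1 := by
      rw [← coeff_zero_eq_constantCoeff_apply, Th, coeff_mk, th_zero]
    have h2 : constantCoeff S.Ep = 1 := by
      rw [← coeff_zero_eq_constantCoeff_apply, Ep, coeff_mk, ep_zero]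
    have h3 : constantCoeff (expand p hp.out.ne_zero S.Ep) = 1 := by
      rw [← coeff_zero_eq_constantCoeff_apply, coeff_expand, if_pos (dvd_zero _), Nat.zero_div,
        Ep, coeff_mk, ep_zero]
    rw [h1, h2, h3]
    simp

end Pre

end Pool.Agent.H887.BK
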