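import Pool.Agent.H425.AH3
import Pool.Agent.H425.RR
import Pool.Agent.H425.Ker

/-!
# Dwork's setup over a ring whose residue ring need not be a field

Adapted from helper425's files `Theta`, `Frob`, `Ker`.
-/

set_option autoImplicit false
set_option linter.unusedSectionVars false

namespace Pool.Agent.H887.BK

open Pool.Agent.H425

/-- a domain with an element `lam`, a power of which is `-p`, and its quotient modulo `lam` -/
structure Pre (p d : ℕ) [Fact p.Prime] (K R : Type) [CommRing K] [CommRing R] [IsDomain R] where
  lam : R
  res : R →+* K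
  zp : ℤ_[p] →+* R
  lam_pow : lam ^ (d * (p - 1)) = -(p : R)
  lam_ne : lam ≠ 0
  dvd_of_res : ∀ x, res x = 0 → lam ∣ x
  res_lam : res lam = 0

/-- the underlying structure of a setup -/
def toPre {p d : ℕ} [Fact p.Prime] {K R : Type} [Field K] [CommRing R] [IsDomain R]
    (S : Setup p d K R) : Pre p d K R where
  lam := S.lam
  res := S.res
  zp := S.zp
  lam_pow := S.lam_pow
  lam_ne := S.lam_ne
  dvd_of_res := S.dvd_of_res
  res_lam := S.res_lam

end Pool.Agent.H887.BK
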